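import Mathlib
import Pool.Agent.Helper47.Spread.A1

/-!
# Dimension of points over a transcendental extension: upper bound
-/

universe u v w

open CategoryTheory AlgebraicGeometry Limits

namespace Pool.Agent.Helper47.Spread

open Pool.Agent.Helper10 Pool.Agent.Helper10.SmProjVar Pool.Agent.Helper47.Chow
open Pool.Agent.Helper47.Desc

noncomputable section

lemma trdeg_le_g2 {R K D A : Type u} [CommRing R] [IsDomain R] [Field K] [CommRing D] [IsDomain D]
    [CommRing A] [IsDomain A] [Algebra R K] [Algebra R D] [Algebra R A] [Algebra K A] [Algebra D A]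
    [IsScalarTower R K A] [IsScalarTower R D A] [FaithfulSMul D A] [FaithfulSMul R D]
    (hgen : Algebra.adjoin K (Set.range (algebraMap D A)) = ⊤) :
    Algebra.trdeg K A ≤ Algebra.trdeg R D := by
  obtain ⟨s, hs⟩ := exists_isTranscendenceBasis R D
  have halg : Algebra.IsAlgebraic (Algebra.adjoin R s) D := by
    have h1 := hs.isAlgebraic
    rwa [Subtype.range_coe] at h1
  have hinj : Function.Injective (algebraMap D A) := FaithfulSMul.algebraMap_injective D A
  let B := Algebra.adjoin K (algebraMap D A '' s)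
  have hmap : ∀ z : Algebra.adjoin R s, algebraMap D A (z : D) ∈ B := by
    rintro ⟨z, hz⟩
    change algebraMap D A z ∈ B
    induction hz using Algebra.adjoin_induction with
    | mem x hx => exact Algebra.subset_adjoin ⟨x, hx, rfl⟩
    | algebraMap r =>
      rw [← IsScalarTower.algebraMap_apply R D A, IsScalarTower.algebraMap_apply R K A]
      exact B.algebraMap_mem _
    | add x y _ _ hx hy => rw [map_add]; exact B.add_mem hx hy
    | mul x y _ _ hx hy => rw [map_mul]; exact B.mul_mem hx hy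
  let ψ : Algebra.adjoin R s →+* B :=
    ((algebraMap D A).comp (Algebra.adjoin R s).val.toRingHom).codRestrict B hmap
  have hψ : ∀ z, ((ψ z : B) : A) = algebraMap D A (z : D) := fun _ => rfl
  have hψinj : Function.Injective ψ := by
    intro z z' h
    have h2 := congrArg (fun t : B => (t : A)) h
    simp only [hψ] at h2
    exact Subtype.ext (hinj h2)
  have hD : ∀ d : D, IsAlgebraic B (algebraMap D A d) := by
    intro d
    obtain ⟨p, hp0, hp⟩ := halg.isAlgebraic d
    refine ⟨p.map ψ, ?_, ?_⟩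
    · rwa [Ne, Polynomial.map_eq_zero_iff hψinj]
    · rw [Polynomial.aeval_def, Polynomial.eval₂_map]
      have h1 : (algebraMap B A).comp ψ =
          (algebraMap D A).comp (algebraMap (Algebra.adjoin R s) D) := by
        ext z
        exact hψ z
      rw [h1, ← Polynomial.hom_eval₂, ← Polynomial.aeval_def, hp, map_zero]
  have hA : Algebra.IsAlgebraic B A := by
    refine ⟨fun y => ?_⟩
    have hy : y ∈ Algebra.adjoin K (Set.range (algebraMap D A)) := by rw [hgen]; trivial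
    induction hy using Algebra.adjoin_induction with
    | mem x hx => obtain ⟨d, rfl⟩ := hx; exact hD d
    | algebraMap r =>
      have h1 : algebraMap K A r = algebraMap B A (algebraMap K B r) := rfl
      rw [h1]
      exact isAlgebraic_algebraMap _
    | add x y _ _ hx hy => exact hx.add hy
    | mul x y _ _ hx hy => exact hx.mul hy
  have h1 : Algebra.trdeg K A ≤ Cardinal.mk (algebraMap D A '' s) :=
    Algebra.IsAlgebraic.trdeg_le_cardinalMk K (algebraMap D A '' s)
  refine h1.trans (Cardinal.mk_image_le.trans ?_)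
  rw [hs.cardinalMk_eq_trdeg]

theorem dimOf_add_le {F K P T : Type u} [Field F] [Field K] [Algebra F K] [CommRing P]
    [CommRing T] {I : Type} [Fintype I] (a : I → K) (ha : AlgebraicIndependent F a)
    (L : MvPolynomial I F →+* P) (hL : (L.comp MvPolynomial.C).FiniteType)
    (ρ : P →+* T) (κ : K →+* T)
    (hsq : ρ.comp L = κ.comp (MvPolynomial.aeval a : MvPolynomial I F →ₐ[F] K).toRingHom)
    (hgen : Subring.closure (Set.range ρ ∪ Set.range κ) = ⊤)
    (𝔔 : Ideal T) (h𝔔 : 𝔔.IsPrime) :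
    dimOf κ 𝔔 + Fintype.card I ≤ dimOf (L.comp MvPolynomial.C) (𝔔.comap ρ) := by
  have h𝔭 : (𝔔.comap ρ).IsPrime := Ideal.comap_isPrime ρ 𝔔
  have : IsDomain (T ⧸ 𝔔) := Ideal.Quotient.isDomain 𝔔
  have : IsDomain (P ⧸ 𝔔.comap ρ) := Ideal.Quotient.isDomain _
  let i0 : Algebra (MvPolynomial I F) K :=
    (MvPolynomial.aeval a : MvPolynomial I F →ₐ[F] K).toRingHom.toAlgebra
  let i1 : Algebra K (T ⧸ 𝔔) := ((Ideal.Quotient.mk 𝔔).comp κ).toAlgebra
  let i2 : Algebra F (P ⧸ 𝔔.comap ρ) :=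
    ((Ideal.Quotient.mk (𝔔.comap ρ)).comp (L.comp MvPolynomial.C)).toAlgebra
  let i3 : Algebra (P ⧸ 𝔔.comap ρ) (T ⧸ 𝔔) := (Ideal.quotientMap 𝔔 ρ le_rfl).toAlgebra
  let i5 : Algebra (MvPolynomial I F) (P ⧸ 𝔔.comap ρ) :=
    ((Ideal.Quotient.mk (𝔔.comap ρ)).comp L).toAlgebra
  let i6 : Algebra (MvPolynomial I F) (T ⧸ 𝔔) :=
    (((Ideal.Quotient.mk 𝔔).comp κ).comp
      (MvPolynomial.aeval a : MvPolynomial I F →ₐ[F] K).toRingHom).toAlgebra
  have hκ : ∀ p : MvPolynomial I F, ρ (L p) = κ (MvPolynomial.aeval a p) := fun p =>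
    congrArg (fun f => f p) hsq
  have s1 : IsScalarTower (MvPolynomial I F) K (T ⧸ 𝔔) := IsScalarTower.of_algebraMap_eq' rfl
  have s2 : IsScalarTower (MvPolynomial I F) (P ⧸ 𝔔.comap ρ) (T ⧸ 𝔔) := by
    refine IsScalarTower.of_algebraMap_eq' ?_
    refine RingHom.ext fun c => ?_
    change Ideal.Quotient.mk 𝔔 (κ (MvPolynomial.aeval a c)) =
      Ideal.quotientMap 𝔔 ρ le_rfl (Ideal.Quotient.mk (𝔔.comap ρ) (L c))
    rw [Ideal.quotientMap_mk, hκ]
  have s3 : IsScalarTower F (MvPolynomial I F) (P ⧸ 𝔔.comap ρ) :=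
    IsScalarTower.of_algebraMap_eq' rfl
  have hinj : Function.Injective (algebraMap (P ⧸ 𝔔.comap ρ) (T ⧸ 𝔔)) :=
    Ideal.quotientMap_injective
  have f1 : FaithfulSMul (P ⧸ 𝔔.comap ρ) (T ⧸ 𝔔) :=
    (faithfulSMul_iff_algebraMap_injective _ _).mpr hinj
  have f2 : FaithfulSMul (MvPolynomial I F) (P ⧸ 𝔔.comap ρ) := by
    refine (faithfulSMul_iff_algebraMap_injective _ _).mpr ?_
    intro x y hxy
    have h2 := congrArg (algebraMap (P ⧸ 𝔔.comap ρ) (T ⧸ 𝔔)) hxy
    rw [← IsScalarTower.algebraMap_apply, ← IsScalarTower.algebraMap_apply] at h2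
    have h3 : ((Ideal.Quotient.mk 𝔔).comp κ) (MvPolynomial.aeval a x) =
      ((Ideal.Quotient.mk 𝔔).comp κ) (MvPolynomial.aeval a y) := h2
    exact ha (((Ideal.Quotient.mk 𝔔).comp κ).injective h3)
  have s4 : Algebra.FiniteType F (P ⧸ 𝔔.comap ρ) := by
    have : ((Ideal.Quotient.mk (𝔔.comap ρ)).comp (L.comp MvPolynomial.C)).FiniteType :=
      RingHom.FiniteType.comp (RingHom.FiniteType.of_surjective _ Ideal.Quotient.mk_surjective) hL
    exact this
  have hgen' : Algebra.adjoin K (Set.range (algebraMap (P ⧸ 𝔔.comap ρ) (T ⧸ 𝔔))) = ⊤ := by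
    rw [eq_top_iff]
    rintro y -
    obtain ⟨t, rfl⟩ := Ideal.Quotient.mk_surjective y
    have ht : t ∈ Subring.closure (Set.range ρ ∪ Set.range κ) := by rw [hgen]; trivial
    refine Subring.closure_induction (p := fun t _ => Ideal.Quotient.mk 𝔔 t ∈
      Algebra.adjoin K (Set.range (algebraMap (P ⧸ 𝔔.comap ρ) (T ⧸ 𝔔)))) ?_ ?_ ?_ ?_ ?_ ?_ ht
    · rintro _ (⟨p, rfl⟩ | ⟨x, rfl⟩)
      · refine Algebra.subset_adjoin ⟨Ideal.Quotient.mk (𝔔.comap ρ) p, ?_⟩
        change Ideal.quotientMap 𝔔 ρ le_rfl _ = _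
        rw [Ideal.quotientMap_mk]
      · exact Subalgebra.algebraMap_mem _ x
    · rw [map_zero]; exact Subalgebra.zero_mem _
    · rw [map_one]; exact Subalgebra.one_mem _
    · intro x y _ _ hx hy
      rw [map_add]; exact Subalgebra.add_mem _ hx hy
    · intro x _ hx
      rw [map_neg]; exact Subalgebra.neg_mem _ hx
    · intro x y _ _ hx hy
      rw [map_mul]; exact Subalgebra.mul_mem _ hx hy
  have h1 : Algebra.trdeg K (T ⧸ 𝔔) ≤ Algebra.trdeg (MvPolynomial I F) (P ⧸ 𝔔.comap ρ) :=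
    trdeg_le_g2 hgen'
  have h2 : Algebra.trdeg F (MvPolynomial I F) +
      Algebra.trdeg (MvPolynomial I F) (P ⧸ 𝔔.comap ρ) = Algebra.trdeg F (P ⧸ 𝔔.comap ρ) :=
    trdeg_add_eq F (MvPolynomial I F)
  have h3 : Algebra.trdeg F (MvPolynomial I F) = (Fintype.card I : Cardinal) := by
    rw [MvPolynomial.trdeg_of_isDomain, Cardinal.mk_fintype]
    simp
  have h4 : Algebra.trdeg F (P ⧸ 𝔔.comap ρ) < Cardinal.aleph0 :=
    trdeg_lt_aleph0_of_finiteType
  change Cardinal.toNat (Algebra.trdeg K (T ⧸ 𝔔)) + Fintype.card I ≤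
    Cardinal.toNat (Algebra.trdeg F (P ⧸ 𝔔.comap ρ))
  have h5 : Algebra.trdeg (MvPolynomial I F) (P ⧸ 𝔔.comap ρ) < Cardinal.aleph0 := by
    refine lt_of_le_of_lt ?_ h4
    rw [← h2]
    exact le_add_self
  have h6 : Cardinal.toNat (Algebra.trdeg F (P ⧸ 𝔔.comap ρ)) = Fintype.card I +
      Cardinal.toNat (Algebra.trdeg (MvPolynomial I F) (P ⧸ 𝔔.comap ρ)) := by
    rw [← h2, h3, Cardinal.toNat_add Cardinal.natCast_lt_aleph0 h5, Cardinal.toNat_natCast]
  have h7 := Cardinal.toNat_le_toNat h1 h5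
  omega

end

end Pool.Agent.Helper47.Spread
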