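import Mathlib
import Pool.Agent.Helper47.Spread.A1
import Pool.Agent.Helper47.Spread.A6
import Pool.Agent.Helper47.Spread.B1
import Pool.Agent.Helper47.Spread.B5

/-!
# Existence of generic points over a prime
-/

universe u v w

open CategoryTheory AlgebraicGeometry Limits

namespace Pool.Agent.Helper47.Spread

open Pool.Agent.Helper10 Pool.Agent.Helper10.SmProjVar Pool.Agent.Helper47.Chow
open Pool.Agent.Helper47.Desc

noncomputable section

lemma g3_core {R E K P PE T : Type u} [CommRing R] [IsDomain R] [Field E] [Field K]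
    [CommRing P] [CommRing PE] [CommRing T] [Algebra R E] [IsFractionRing R E] [Algebra E K]
    [Algebra R P] [Algebra R PE] [Algebra P PE] [Algebra E PE] [Algebra K T] [Algebra P T]
    [Algebra PE T] [Algebra E T] [IsScalarTower R P PE] [IsScalarTower R E PE]
    [IsScalarTower E K T] [IsScalarTower E PE T] [IsScalarTower P PE T]
    [IsLocalization (Algebra.algebraMapSubmonoid P (nonZeroDivisors R)) PE]
    [Algebra.IsPushout E K PE T] [Algebra.FiniteType E PE]
    (𝔭 : Ideal P) (h𝔭 : 𝔭.IsPrime) (𝔔 : Ideal T) (h𝔔 : 𝔔.IsPrime)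
    (h : 𝔭 ≤ 𝔔.comap (algebraMap P T)) :
    ∃ 𝔔' : Ideal T, 𝔔'.IsPrime ∧ 𝔔' ≤ 𝔔 ∧
      (𝔔'.comap (algebraMap PE T)).comap (algebraMap P PE) = 𝔭 ∧
      dimOf (algebraMap K T) 𝔔' = dimOf (algebraMap E PE) (𝔔'.comap (algebraMap PE T)) := by
  have hdisj : Disjoint (Algebra.algebraMapSubmonoid P (nonZeroDivisors R) : Set P)
      (𝔭 : Set P) := by
    rw [Set.disjoint_left]
    rintro _ ⟨r, hr, rfl⟩ hm
    have h1 : algebraMap P T (algebraMap R P r) ∈ 𝔔 := h hm
    have h2 : algebraMap P T (algebraMap R P r) =
        algebraMap PE T (algebraMap E PE (algebraMap R E r)) := by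
      rw [IsScalarTower.algebraMap_apply P PE T, ← IsScalarTower.algebraMap_apply R P PE,
        ← IsScalarTower.algebraMap_apply R E PE]
    have h3 : algebraMap R E r ≠ 0 := by
      intro h0
      exact nonZeroDivisors.ne_zero hr ((IsFractionRing.injective R E) (by rw [h0, map_zero]))
    rw [h2] at h1
    exact h𝔔.ne_top (Ideal.eq_top_of_isUnit_mem _ h1
      (((IsUnit.mk0 _ h3).map (algebraMap E PE)).map (algebraMap PE T)))
  have hP : (𝔭.map (algebraMap P PE)).IsPrime :=
    IsLocalization.isPrime_of_isPrime_disjoint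
      (Algebra.algebraMapSubmonoid P (nonZeroDivisors R)) PE 𝔭 h𝔭 hdisj
  have hc : (𝔭.map (algebraMap P PE)).comap (algebraMap P PE) = 𝔭 :=
    IsLocalization.comap_map_of_isPrime_disjoint
      (Algebra.algebraMapSubmonoid P (nonZeroDivisors R)) PE h𝔭 hdisj
  have hle : (𝔭.map (algebraMap P PE)).map (algebraMap PE T) ≤ 𝔔 := by
    rw [Ideal.map_map, ← IsScalarTower.algebraMap_eq P PE T, Ideal.map_le_iff_le_comap]
    exact h
  obtain ⟨𝔔', h1, h2⟩ := Ideal.exists_minimalPrimes_le hle
  obtain ⟨h3, h4⟩ := dimOf_minimal (F := E) (K := K) (A := PE) (T := T)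
    (𝔭.map (algebraMap P PE)) hP 𝔔' h1
  refine ⟨𝔔', h1.1.1, h2, ?_, ?_⟩
  · rw [h3, hc]
  · rw [h3, h4]

open TensorProduct in
theorem exists_generic_le {F K P T : Type u} [Field F] [Field K] [Algebra F K] [CommRing P]
    [CommRing T] {I : Type} [Fintype I] (a : I → K) (ha : AlgebraicIndependent F a)
    (L : MvPolynomial I F →+* P) (hL : (L.comp MvPolynomial.C).FiniteType)
    (ρ : P →+* T) (κ : K →+* T)
    (hp : IsPushout
      (CommRingCat.ofHom (MvPolynomial.aeval a : MvPolynomial I F →ₐ[F] K).toRingHom)
      (CommRingCat.ofHom L) (CommRingCat.ofHom κ) (CommRingCat.ofHom ρ))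
    (𝔭 : Ideal P) (h𝔭 : 𝔭.IsPrime) (𝔔 : Ideal T) (h𝔔 : 𝔔.IsPrime) (h : 𝔭 ≤ 𝔔.comap ρ) :
    ∃ 𝔔' : Ideal T, 𝔔'.IsPrime ∧ 𝔔' ≤ 𝔔 ∧ 𝔔'.comap ρ = 𝔭 ∧
      dimOf κ 𝔔' + Fintype.card I = dimOf (L.comp MvPolynomial.C) 𝔭 := by
  let _ : Algebra (MvPolynomial I F) P := L.toAlgebra
  let _ : Algebra (MvPolynomial I F) K :=
    (MvPolynomial.aeval a : MvPolynomial I F →ₐ[F] K).toRingHom.toAlgebra
  let _ : Algebra K T := κ.toAlgebra
  let _ : Algebra P T := ρ.toAlgebra
  let _ : Algebra (MvPolynomial I F) T := (κ.comp (algebraMap (MvPolynomial I F) K)).toAlgebra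
  have hcomm : ∀ r : MvPolynomial I F, κ (algebraMap (MvPolynomial I F) K r) = ρ (L r) := by
    intro r
    have := congrArg (fun f => f.hom r) hp.w
    exact this
  have : IsScalarTower (MvPolynomial I F) K T := IsScalarTower.of_algebraMap_eq fun r => rfl
  have : IsScalarTower (MvPolynomial I F) P T := IsScalarTower.of_algebraMap_eq fun r => hcomm r
  have hpo : Algebra.IsPushout (MvPolynomial I F) K P T :=
    CommRingCat.isPushout_iff_isPushout.mp hp
  have : FaithfulSMul (MvPolynomial I F) K := (faithfulSMul_iff_algebraMap_injective _ _).2 ha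
  let _ : Algebra (FractionRing (MvPolynomial I F)) K := FractionRing.liftAlgebra _ _
  have : IsScalarTower (MvPolynomial I F) (FractionRing (MvPolynomial I F)) K :=
    FractionRing.isScalarTower_liftAlgebra _ _
  let _ : Algebra P (FractionRing (MvPolynomial I F) ⊗[MvPolynomial I F] P) :=
    Algebra.TensorProduct.rightAlgebra
  let _ : Algebra (FractionRing (MvPolynomial I F)) T :=
    ((algebraMap K T).comp (algebraMap (FractionRing (MvPolynomial I F)) K)).toAlgebra
  have : IsScalarTower (FractionRing (MvPolynomial I F)) K T :=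
    IsScalarTower.of_algebraMap_eq fun r => rfl
  have : IsScalarTower (MvPolynomial I F) (FractionRing (MvPolynomial I F)) T := by
    refine IsScalarTower.of_algebraMap_eq fun r => ?_
    change κ (algebraMap (MvPolynomial I F) K r) = κ (algebraMap (FractionRing (MvPolynomial I F)) K
      (algebraMap (MvPolynomial I F) (FractionRing (MvPolynomial I F)) r))
    rw [← IsScalarTower.algebraMap_apply]
  let g : FractionRing (MvPolynomial I F) ⊗[MvPolynomial I F] P →ₐ[MvPolynomial I F] T :=
    Algebra.TensorProduct.productMap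
      (IsScalarTower.toAlgHom (MvPolynomial I F) (FractionRing (MvPolynomial I F)) T)
      (IsScalarTower.toAlgHom (MvPolynomial I F) P T)
  let _ : Algebra (FractionRing (MvPolynomial I F) ⊗[MvPolynomial I F] P) T :=
    g.toRingHom.toAlgebra
  have : IsScalarTower (FractionRing (MvPolynomial I F))
      (FractionRing (MvPolynomial I F) ⊗[MvPolynomial I F] P) T := by
    refine IsScalarTower.of_algebraMap_eq (R := FractionRing (MvPolynomial I F))
      (S := FractionRing (MvPolynomial I F) ⊗[MvPolynomial I F] P) (A := T) fun r => ?_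
    change algebraMap (FractionRing (MvPolynomial I F)) T r = g (r ⊗ₜ[MvPolynomial I F] (1 : P))
    simp [g]
  have : IsScalarTower P
      (FractionRing (MvPolynomial I F) ⊗[MvPolynomial I F] P) T := by
    refine IsScalarTower.of_algebraMap_eq (R := P)
      (S := FractionRing (MvPolynomial I F) ⊗[MvPolynomial I F] P) (A := T) fun r => ?_
    change algebraMap P T r =
      g ((1 : FractionRing (MvPolynomial I F)) ⊗ₜ[MvPolynomial I F] r)
    simp [g]
  have hpo1 : Algebra.IsPushout (MvPolynomial I F) (FractionRing (MvPolynomial I F)) P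
      (FractionRing (MvPolynomial I F) ⊗[MvPolynomial I F] P) := inferInstance
  have hpo2 : Algebra.IsPushout (FractionRing (MvPolynomial I F)) K
      (FractionRing (MvPolynomial I F) ⊗[MvPolynomial I F] P) T := by
    exact (Algebra.IsPushout.comp_iff (MvPolynomial I F) (FractionRing (MvPolynomial I F)) P
      (FractionRing (MvPolynomial I F) ⊗[MvPolynomial I F] P)).1 hpo
  have hloc : IsLocalization (Algebra.algebraMapSubmonoid P (nonZeroDivisors (MvPolynomial I F)))
      (FractionRing (MvPolynomial I F) ⊗[MvPolynomial I F] P) := by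
    rw [Algebra.isLocalization_iff_isPushout (nonZeroDivisors (MvPolynomial I F))
      (FractionRing (MvPolynomial I F))]
    infer_instance
  have hft0 : Algebra.FiniteType (MvPolynomial I F) P := by
    have h1 : L.FiniteType := RingHom.FiniteType.of_comp_finiteType hL
    exact h1
  have hft : Algebra.FiniteType (FractionRing (MvPolynomial I F))
      (FractionRing (MvPolynomial I F) ⊗[MvPolynomial I F] P) := inferInstance
  obtain ⟨𝔔', h1, h2, h3, h4⟩ := g3_core (R := MvPolynomial I F)
    (E := FractionRing (MvPolynomial I F)) (K := K) (P := P)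
    (PE := FractionRing (MvPolynomial I F) ⊗[MvPolynomial I F] P) (T := T) 𝔭 h𝔭 𝔔 h𝔔 h
  refine ⟨𝔔', h1, h2, ?_, ?_⟩
  · rw [Ideal.comap_comap, ← IsScalarTower.algebraMap_eq] at h3
    exact h3
  · have h5 : 𝔭 = (𝔔'.comap (algebraMap (FractionRing (MvPolynomial I F) ⊗[MvPolynomial I F] P)
        T)).comap (algebraMap P (FractionRing (MvPolynomial I F) ⊗[MvPolynomial I F] P)) :=
      h3.symm
    have h6 : dimOf κ 𝔔' = _ := h4
    rw [h6, h5]
    have ha' : AlgebraicIndependent F (fun i => algebraMap (MvPolynomial I F)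
        (FractionRing (MvPolynomial I F)) (MvPolynomial.X i)) := by
      have := (MvPolynomial.algebraicIndependent_X I F).map'
        (f := IsScalarTower.toAlgHom F (MvPolynomial I F) (FractionRing (MvPolynomial I F)))
        (IsFractionRing.injective _ _)
      exact this
    have hae : ∀ r : MvPolynomial I F, MvPolynomial.aeval (fun i => algebraMap (MvPolynomial I F)
        (FractionRing (MvPolynomial I F)) (MvPolynomial.X i)) r =
        algebraMap (MvPolynomial I F) (FractionRing (MvPolynomial I F)) r := by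
      intro r
      have := MvPolynomial.aeval_unique
        (IsScalarTower.toAlgHom F (MvPolynomial I F) (FractionRing (MvPolynomial I F)))
      exact (congrArg (fun f => f r) this).symm
    refine dimOf_pushout (F := F) (K := FractionRing (MvPolynomial I F)) (P := P)
      (T := FractionRing (MvPolynomial I F) ⊗[MvPolynomial I F] P) _ ha' ?_ L hL
      (algebraMap P (FractionRing (MvPolynomial I F) ⊗[MvPolynomial I F] P))
      (algebraMap (FractionRing (MvPolynomial I F))
        (FractionRing (MvPolynomial I F) ⊗[MvPolynomial I F] P)) ?_ ?_ _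
      (Ideal.comap_isPrime _ _)
    · constructor
      intro z
      obtain ⟨x, y, hy, rfl⟩ := IsFractionRing.div_surjective (A := MvPolynomial I F) z
      have hm : ∀ r : MvPolynomial I F, algebraMap (MvPolynomial I F)
          (FractionRing (MvPolynomial I F)) r ∈
          IntermediateField.adjoin F (Set.range fun i => algebraMap (MvPolynomial I F)
            (FractionRing (MvPolynomial I F)) (MvPolynomial.X i)) := by
        intro r
        apply IntermediateField.algebra_adjoin_le_adjoin
        rw [Algebra.adjoin_range_eq_range_aeval, ← hae r]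
        exact ⟨r, rfl⟩
      exact isAlgebraic_algebraMap (⟨_, div_mem (hm x) (hm y)⟩ :
        IntermediateField.adjoin F (Set.range fun i => algebraMap (MvPolynomial I F)
            (FractionRing (MvPolynomial I F)) (MvPolynomial.X i)))
    · apply RingHom.ext
      intro r
      change (1 : FractionRing (MvPolynomial I F)) ⊗ₜ[MvPolynomial I F] (L r) =
        (MvPolynomial.aeval (fun i => algebraMap (MvPolynomial I F)
        (FractionRing (MvPolynomial I F)) (MvPolynomial.X i)) r) ⊗ₜ[MvPolynomial I F] (1 : P)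
      rw [hae, Algebra.algebraMap_eq_smul_one, TensorProduct.smul_tmul, Algebra.smul_def, mul_one]
      rfl
    · rw [eq_top_iff]
      intro z _
      induction z using TensorProduct.induction_on with
      | zero => exact zero_mem _
      | tmul x y =>
        have : x ⊗ₜ[MvPolynomial I F] y = (x ⊗ₜ 1) * (1 ⊗ₜ y) := by
          rw [Algebra.TensorProduct.tmul_mul_tmul, mul_one, one_mul]
        rw [this]
        exact mul_mem (Subring.subset_closure (Or.inr ⟨x, rfl⟩))
          (Subring.subset_closure (Or.inl ⟨y, rfl⟩))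
      | add x y hx hy => exact add_mem (hx trivial) (hy trivial)

end

end Pool.Agent.Helper47.Spread
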