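import Mathlib
import Pool.Agent.Helper47.Spread.A1
import Pool.Agent.Helper47.Spread.B3
import Pool.Agent.Helper47.Spread.B4
import Pool.Agent.Helper47.Spread2.G2

/-!
# Conjugacy of the generic points over a prime
-/

universe u v w

open CategoryTheory AlgebraicGeometry Limits

namespace Pool.Agent.Helper47.Spread

open Pool.Agent.Helper10 Pool.Agent.Helper10.SmProjVar Pool.Agent.Helper47.Chow
open Pool.Agent.Helper47.Desc

noncomputable section

/-- An element algebraic over `A'` is algebraic over `B'` when `A' → B'` is injective. -/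
theorem g4_algebraic_map {A' B' A D : Type u} [CommRing A'] [CommRing B'] [CommRing A]
    [CommRing D] [Algebra A' A] [Algebra B' D] (ψ : A' →+* B') (f : A →+* D)
    (hψ : Function.Injective ψ) (hc : ∀ z, algebraMap B' D (ψ z) = f (algebraMap A' A z))
    (x : A) (hx : IsAlgebraic A' x) : IsAlgebraic B' (f x) := by
  obtain ⟨p, hp0, hp⟩ := hx
  refine ⟨p.map ψ, ?_, ?_⟩
  · rwa [Ne, Polynomial.map_eq_zero_iff hψ]
  · rw [Polynomial.aeval_def, Polynomial.eval₂_map]
    have h1 : (algebraMap B' D).comp ψ = f.comp (algebraMap A' A) := by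
      ext z
      exact hc z
    rw [h1, ← Polynomial.hom_eval₂, ← Polynomial.aeval_def, hp, map_zero]

/-- Freeness: a family of `K` algebraically independent over `R` stays algebraically independent
over `A` in `D`, if `D` is generated by `A` and `K` and the transcendence degree does not drop. -/
theorem g4_indep {R K A D J : Type u} [CommRing R] [IsDomain R] [Field K] [CommRing A] [IsDomain A]
    [CommRing D] [IsDomain D] [Algebra R K] [Algebra R A] [Algebra R D] [Algebra K D] [Algebra A D]
    [IsScalarTower R K D] [IsScalarTower R A D] (hRK : Function.Injective (algebraMap R K))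
    (hAD : Function.Injective (algebraMap A D))
    (hgen : Algebra.adjoin K (Set.range (algebraMap A D)) = ⊤)
    (hd : Algebra.trdeg R A ≤ Algebra.trdeg K D) (hfin : Algebra.trdeg R A < Cardinal.aleph0)
    (B : J → K) (hB : AlgebraicIndependent R B) :
    AlgebraicIndependent A (algebraMap K D ∘ B) := by
  have hKD : Function.Injective (algebraMap K D) := (algebraMap K D).injective
  have hRA : Function.Injective (algebraMap R A) := by
    intro x y hxy
    apply hRK
    apply hKD
    rw [← IsScalarTower.algebraMap_apply, ← IsScalarTower.algebraMap_apply,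
      IsScalarTower.algebraMap_apply R A D, IsScalarTower.algebraMap_apply R A D, hxy]
  have : FaithfulSMul R A := (faithfulSMul_iff_algebraMap_injective R A).2 hRA
  have : FaithfulSMul K D := (faithfulSMul_iff_algebraMap_injective K D).2 hKD
  obtain ⟨ι, s, hs⟩ := exists_isTranscendenceBasis' R A
  have hcard : Cardinal.mk ι = Algebra.trdeg R A := hs.cardinalMk_eq_trdeg
  have : Finite ι := by
    rw [← Cardinal.lt_aleph0_iff_finite, hcard]
    exact hfin
  have halgA : Algebra.IsAlgebraic (Algebra.adjoin R (Set.range s)) A := hs.isAlgebraic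
  -- the family `s` in `D`
  have hmem : ∀ z : A, z ∈ Algebra.adjoin R (Set.range s) →
      algebraMap A D z ∈ Algebra.adjoin K (Set.range (algebraMap A D ∘ s)) := by
    intro z hz
    induction hz using Algebra.adjoin_induction with
    | mem x hx =>
      obtain ⟨i, rfl⟩ := hx
      exact Algebra.subset_adjoin ⟨i, rfl⟩
    | algebraMap r =>
      rw [← IsScalarTower.algebraMap_apply, IsScalarTower.algebraMap_apply R K D]
      exact Subalgebra.algebraMap_mem _ _
    | add x y _ _ hx hy => rw [map_add]; exact Subalgebra.add_mem _ hx hy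
    | mul x y _ _ hx hy => rw [map_mul]; exact Subalgebra.mul_mem _ hx hy
  have halgD : Algebra.IsAlgebraic (Algebra.adjoin K (Set.range (algebraMap A D ∘ s))) D := by
    let ψ : Algebra.adjoin R (Set.range s) →+* Algebra.adjoin K (Set.range (algebraMap A D ∘ s)) :=
      { toFun := fun z => ⟨algebraMap A D z, hmem z z.2⟩
        map_one' := by ext; simp
        map_mul' := fun x y => by ext; simp
        map_zero' := by ext; simp
        map_add' := fun x y => by ext; simp }
    have hψ : Function.Injective ψ := by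
      intro x y hxy
      have h1 := congrArg Subtype.val hxy
      exact Subtype.ext (hAD h1)
    have key : ∀ x : A, IsAlgebraic (Algebra.adjoin K (Set.range (algebraMap A D ∘ s)))
        (algebraMap A D x) := fun x =>
      g4_algebraic_map ψ (algebraMap A D) hψ (fun z => rfl) x (halgA.isAlgebraic x)
    refine ⟨fun y => ?_⟩
    have hy : y ∈ Algebra.adjoin K (Set.range (algebraMap A D)) := by rw [hgen]; trivial
    induction hy using Algebra.adjoin_induction with
    | mem x hx =>
      obtain ⟨i, rfl⟩ := hx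
      exact key i
    | algebraMap r =>
      exact isAlgebraic_algebraMap
        (⟨algebraMap K D r, Subalgebra.algebraMap_mem _ _⟩ :
          Algebra.adjoin K (Set.range (algebraMap A D ∘ s)))
    | add x y _ _ hx hy => exact hx.add hy
    | mul x y _ _ hx hy => exact hx.mul hy
  have hs' : IsTranscendenceBasis K (algebraMap A D ∘ s) :=
    Algebra.IsAlgebraic.isTranscendenceBasis_of_le_trdeg_of_finite K _ (hcard.le.trans hd)
  have h1 : AlgebraicIndependent R (Sum.elim (algebraMap A D ∘ s) (algebraMap K D ∘ B)) :=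
    AlgebraicIndependent.sumElim_comp hB hs'.1
  have h2 : AlgebraicIndependent R (Sum.elim (algebraMap K D ∘ B) (algebraMap A D ∘ s)) := by
    have h3 := (algebraicIndependent_equiv' (R := R) (Equiv.sumComm ι J)
      (f := Sum.elim (algebraMap K D ∘ B) (algebraMap A D ∘ s))
      (g := Sum.elim (algebraMap A D ∘ s) (algebraMap K D ∘ B)) (by
        funext x
        rcases x with x | x <;> rfl)).1 h1
    exact h3
  have h3 : AlgebraicIndependent (Algebra.adjoin R (Set.range (algebraMap A D ∘ s)))
      (algebraMap K D ∘ B) := (AlgebraicIndependent.sumElim_iff.1 h2).2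
  have hmem2 : ∀ z : A, z ∈ Algebra.adjoin R (Set.range s) →
      algebraMap A D z ∈ Algebra.adjoin R (Set.range (algebraMap A D ∘ s)) := by
    intro z hz
    induction hz using Algebra.adjoin_induction with
    | mem x hx =>
      obtain ⟨i, rfl⟩ := hx
      exact Algebra.subset_adjoin ⟨i, rfl⟩
    | algebraMap r =>
      rw [← IsScalarTower.algebraMap_apply]
      exact Subalgebra.algebraMap_mem _ _
    | add x y _ _ hx hy => rw [map_add]; exact Subalgebra.add_mem _ hx hy
    | mul x y _ _ hx hy => rw [map_mul]; exact Subalgebra.mul_mem _ hx hy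
  let ψ2 : Algebra.adjoin R (Set.range s) →+* Algebra.adjoin R (Set.range (algebraMap A D ∘ s)) :=
    { toFun := fun z => ⟨algebraMap A D z, hmem2 z z.2⟩
      map_one' := by ext; simp
      map_mul' := fun x y => by ext; simp
      map_zero' := by ext; simp
      map_add' := fun x y => by ext; simp }
  have hψ2 : Function.Injective ψ2 := by
    intro x y hxy
    have h1 := congrArg Subtype.val hxy
    exact Subtype.ext (hAD h1)
  let : Algebra (Algebra.adjoin R (Set.range s))
    (Algebra.adjoin R (Set.range (algebraMap A D ∘ s))) := ψ2.toAlgebra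
  have : IsScalarTower (Algebra.adjoin R (Set.range s))
      (Algebra.adjoin R (Set.range (algebraMap A D ∘ s))) D :=
    IsScalarTower.of_algebraMap_eq fun x => rfl
  have h4 : AlgebraicIndependent (Algebra.adjoin R (Set.range s)) (algebraMap K D ∘ B) :=
    h3.restrictScalars hψ2
  exact h4.extendScalars A

/-- Embeddings of an algebraically closed field which agree on a subring over which it is
algebraic. -/
theorem g4_norm {R K : Type u} [CommRing R] [IsDomain R] [Field K] [IsAlgClosed K] [Algebra R K]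
    (hinj : Function.Injective (algebraMap R K)) (halg : Algebra.IsAlgebraic R K) (Ω : Type u)
    [Field Ω] (i₁ i₂ : K →+* Ω) (h : ∀ c : R, i₁ (algebraMap R K c) = i₂ (algebraMap R K c)) :
    ∃ σ : K ≃+* K, (∀ c : R, σ (algebraMap R K c) = algebraMap R K c) ∧ ∀ x, i₁ x = i₂ (σ x) := by
  have key : ∀ (j₁ j₂ : K →+* Ω), (∀ c : R, j₁ (algebraMap R K c) = j₂ (algebraMap R K c)) →
      ∀ x, ∃ y, j₂ y = j₁ x := by
    intro j₁ j₂ hj x
    obtain ⟨p, hp0, hp⟩ := halg.isAlgebraic x
    have hq0 : p.map (algebraMap R K) ≠ 0 := by rwa [Ne, Polynomial.map_eq_zero_iff hinj]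
    have hroot : ((p.map (algebraMap R K)).map j₂).IsRoot (j₁ x) := by
      have e1 : (p.map (algebraMap R K)).map j₂ = (p.map (algebraMap R K)).map j₁ := by
        rw [Polynomial.map_map, Polynomial.map_map]
        congr 1
        ext c
        exact (hj c).symm
      rw [e1, Polynomial.IsRoot, Polynomial.eval_map, Polynomial.eval₂_hom,
        Polynomial.eval_map, ← Polynomial.aeval_def, hp, map_zero]
    obtain ⟨y, hy⟩ := (IsAlgClosed.splits (p.map (algebraMap R K))).mem_range_of_isRoot hq0 hroot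
    exact ⟨y, hy⟩
  choose s hs using key i₁ i₂ h
  have hs1 : Function.Injective s := by
    intro x y hxy
    apply i₁.injective
    rw [← hs x, ← hs y, hxy]
  have hs2 : Function.Surjective s := by
    intro y
    obtain ⟨x, hx⟩ := key i₂ i₁ (fun c => (h c).symm) y
    refine ⟨x, i₂.injective ?_⟩
    rw [hs x, hx]
  let σ₀ : K →+* K :=
    { toFun := s
      map_one' := i₂.injective (by rw [hs, map_one, map_one])
      map_mul' := fun x y => i₂.injective (by rw [hs, map_mul, map_mul, hs, hs])
      map_zero' := i₂.injective (by rw [hs, map_zero, map_zero])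
      map_add' := fun x y => i₂.injective (by rw [hs, map_add, map_add, hs, hs]) }
  refine ⟨RingEquiv.ofBijective σ₀ ⟨hs1, hs2⟩, ?_, ?_⟩
  · intro c
    apply i₂.injective
    change i₂ (s _) = _
    rw [hs, h]
  · intro x
    exact (hs x).symm

attribute [local instance] MvPolynomial.algebraMvPolynomial

/-- The polynomials over `P` which become zero modulo `𝔔` are those with coefficients in the
contraction of `𝔔`. -/
theorem g4_mem_iff {R K P T J : Type u} [CommRing R] [IsDomain R] [Field K] [CommRing P]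
    [CommRing T] [Algebra R K] [Algebra R P] [Algebra R T] [Algebra K T] [Algebra P T]
    [IsScalarTower R K T] [IsScalarTower R P T] [Algebra.IsPushout R K P T]
    (hRK : Function.Injective (algebraMap R K))
    (B : J → K) (hB : AlgebraicIndependent R B)
    (𝔔 : Ideal T) (h𝔔 : 𝔔.IsPrime)
    (hd : Algebra.trdeg R (P ⧸ 𝔔.comap (algebraMap P T)) ≤ Algebra.trdeg K (T ⧸ 𝔔))
    (hfin : Algebra.trdeg R (P ⧸ 𝔔.comap (algebraMap P T)) < Cardinal.aleph0)
    (p : MvPolynomial J P) :
    MvPolynomial.eval₂Hom (algebraMap P T) (algebraMap K T ∘ B) p ∈ 𝔔 ↔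
      ∀ m, MvPolynomial.coeff m p ∈ 𝔔.comap (algebraMap P T) := by
  have hprime : (𝔔.comap (algebraMap P T)).IsPrime := Ideal.comap_isPrime _ _
  have : IsDomain (P ⧸ 𝔔.comap (algebraMap P T)) := Ideal.Quotient.isDomain _
  have : IsDomain (T ⧸ 𝔔) := Ideal.Quotient.isDomain _
  have hAD : Function.Injective (algebraMap (P ⧸ 𝔔.comap (algebraMap P T)) (T ⧸ 𝔔)) := by
    rw [injective_iff_map_eq_zero]
    intro a ha
    obtain ⟨p, rfl⟩ := Ideal.Quotient.mk_surjective a
    have h1 : (Ideal.Quotient.mk 𝔔) (algebraMap P T p) = 0 := ha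
    rw [Ideal.Quotient.eq_zero_iff_mem] at h1
    rw [Ideal.Quotient.eq_zero_iff_mem]
    exact h1
  have : IsScalarTower R (P ⧸ 𝔔.comap (algebraMap P T)) (T ⧸ 𝔔) := by
    refine IsScalarTower.of_algebraMap_eq fun r => ?_
    change Ideal.Quotient.mk 𝔔 (algebraMap R T r) =
      Ideal.Quotient.mk 𝔔 (algebraMap P T (algebraMap R P r))
    rw [← IsScalarTower.algebraMap_apply]
  have : IsScalarTower R K (T ⧸ 𝔔) := by
    refine IsScalarTower.of_algebraMap_eq fun r => ?_
    change Ideal.Quotient.mk 𝔔 (algebraMap R T r) =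
      Ideal.Quotient.mk 𝔔 (algebraMap K T (algebraMap R K r))
    rw [← IsScalarTower.algebraMap_apply]
  have hgen : Algebra.adjoin K
      (Set.range (algebraMap (P ⧸ 𝔔.comap (algebraMap P T)) (T ⧸ 𝔔))) = ⊤ := by
    rw [eq_top_iff]
    rintro y -
    obtain ⟨t, rfl⟩ := Ideal.Quotient.mk_surjective y
    refine b3_pushout_induction (P := P) (T := T) R K
      (fun t => Ideal.Quotient.mk 𝔔 t ∈ Algebra.adjoin K
      (Set.range (algebraMap (P ⧸ 𝔔.comap (algebraMap P T)) (T ⧸ 𝔔)))) ?_ ?_ ?_ t
    · intro q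
      exact Algebra.subset_adjoin ⟨Ideal.Quotient.mk _ q, rfl⟩
    · intro x t ht
      rw [map_mul]
      exact Subalgebra.mul_mem _ (Subalgebra.algebraMap_mem _ x) ht
    · intro s t hs ht
      rw [map_add]
      exact Subalgebra.add_mem _ hs ht
  have hind := g4_indep (R := R) (K := K) (A := P ⧸ 𝔔.comap (algebraMap P T)) (D := T ⧸ 𝔔) hRK hAD
    hgen hd hfin B hB
  have e1 : Ideal.Quotient.mk 𝔔
      (MvPolynomial.eval₂Hom (algebraMap P T) (algebraMap K T ∘ B) p) =
      MvPolynomial.aeval (algebraMap K (T ⧸ 𝔔) ∘ B)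
        (MvPolynomial.map (Ideal.Quotient.mk (𝔔.comap (algebraMap P T))) p) := by
    rw [MvPolynomial.aeval_def, MvPolynomial.eval₂_map, MvPolynomial.coe_eval₂Hom,
      MvPolynomial.hom_eval₂]
    rfl
  rw [← Ideal.Quotient.eq_zero_iff_mem, e1]
  constructor
  · intro h m
    have h1 := hind.eq_zero_of_aeval_eq_zero _ h
    have h2 := congrArg (MvPolynomial.coeff m) h1
    rw [MvPolynomial.coeff_map, MvPolynomial.coeff_zero, Ideal.Quotient.eq_zero_iff_mem] at h2
    exact h2
  · intro h
    have h1 : MvPolynomial.map (Ideal.Quotient.mk (𝔔.comap (algebraMap P T))) p = 0 := by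
      ext m
      rw [MvPolynomial.coeff_map, MvPolynomial.coeff_zero, Ideal.Quotient.eq_zero_iff_mem]
      exact h m
    rw [h1, map_zero]

theorem g4_main {R K P T : Type u} [CommRing R] [IsDomain R] [Field K] [IsAlgClosed K]
    [CommRing P] [CommRing T] [Algebra R K] [Algebra R P] [Algebra R T] [Algebra K T] [Algebra P T]
    [IsScalarTower R K T] [IsScalarTower R P T] [Algebra.IsPushout R K P T]
    (hRK : Function.Injective (algebraMap R K))
    (𝔔 𝔔' : Ideal T) (h𝔔 : 𝔔.IsPrime) (h𝔔' : 𝔔'.IsPrime)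
    (h : 𝔔.comap (algebraMap P T) = 𝔔'.comap (algebraMap P T))
    (hd : Algebra.trdeg R (P ⧸ 𝔔.comap (algebraMap P T)) ≤ Algebra.trdeg K (T ⧸ 𝔔))
    (hfin : Algebra.trdeg R (P ⧸ 𝔔.comap (algebraMap P T)) < Cardinal.aleph0)
    (hd' : Algebra.trdeg R (P ⧸ 𝔔'.comap (algebraMap P T)) ≤ Algebra.trdeg K (T ⧸ 𝔔'))
    (hfin' : Algebra.trdeg R (P ⧸ 𝔔'.comap (algebraMap P T)) < Cardinal.aleph0) :
    ∃ σ : K ≃+* K, (∀ c : R, σ (algebraMap R K c) = algebraMap R K c) ∧
      ∀ τ : T →+* T, (∀ p, τ (algebraMap P T p) = algebraMap P T p) →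
        (∀ x, τ (algebraMap K T x) = algebraMap K T (σ x)) → 𝔔.comap τ = 𝔔' := by
  have : FaithfulSMul R K := (faithfulSMul_iff_algebraMap_injective R K).2 hRK
  obtain ⟨J, B, hB⟩ := exists_isTranscendenceBasis' R K
  let a1 : Algebra (MvPolynomial J R) K := (MvPolynomial.aeval B).toRingHom.toAlgebra
  let a2 : Algebra (MvPolynomial J P) T :=
    (MvPolynomial.eval₂Hom (algebraMap P T) (algebraMap K T ∘ B)).toAlgebra
  let a3 : Algebra (MvPolynomial J R) T :=
    ((algebraMap K T).comp (MvPolynomial.aeval B).toRingHom).toAlgebra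
  have t1 : IsScalarTower (MvPolynomial J R) K T := IsScalarTower.of_algebraMap_eq fun _ => rfl
  have t2 : IsScalarTower (MvPolynomial J R) (MvPolynomial J P) T := by
    refine IsScalarTower.of_algebraMap_eq' ?_
    apply MvPolynomial.ringHom_ext
    · intro r
      change algebraMap K T (MvPolynomial.aeval B (MvPolynomial.C r)) =
        MvPolynomial.eval₂Hom (algebraMap P T) (algebraMap K T ∘ B)
          (MvPolynomial.map (algebraMap R P) (MvPolynomial.C r))
      rw [MvPolynomial.aeval_C, MvPolynomial.map_C, MvPolynomial.eval₂Hom_C,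
        ← IsScalarTower.algebraMap_apply, ← IsScalarTower.algebraMap_apply]
    · intro j
      change algebraMap K T (MvPolynomial.aeval B (MvPolynomial.X j)) =
        MvPolynomial.eval₂Hom (algebraMap P T) (algebraMap K T ∘ B)
          (MvPolynomial.map (algebraMap R P) (MvPolynomial.X j))
      rw [MvPolynomial.aeval_X, MvPolynomial.map_X, MvPolynomial.eval₂Hom_X']
      rfl
  have t3 : IsScalarTower R (MvPolynomial J R) K := by
    refine IsScalarTower.of_algebraMap_eq fun r => ?_
    change _ = MvPolynomial.aeval B (MvPolynomial.C r)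
    rw [MvPolynomial.aeval_C]
  have t4 : IsScalarTower P (MvPolynomial J P) T := by
    refine IsScalarTower.of_algebraMap_eq fun r => ?_
    change _ = MvPolynomial.eval₂Hom (algebraMap P T) (algebraMap K T ∘ B) (MvPolynomial.C r)
    rw [MvPolynomial.eval₂Hom_C]
  have t5 : IsScalarTower R (MvPolynomial J P) T := by
    refine IsScalarTower.of_algebraMap_eq fun r => ?_
    rw [IsScalarTower.algebraMap_apply R P (MvPolynomial J P),
      ← IsScalarTower.algebraMap_apply P (MvPolynomial J P) T, ← IsScalarTower.algebraMap_apply]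
  have hpo : Algebra.IsPushout (MvPolynomial J R) K (MvPolynomial J P) T :=
    (Algebra.IsPushout.comp_iff (R := R) (S := MvPolynomial J R) (R' := P)
      (S' := MvPolynomial J P) (T := K) (T' := T)).1 inferInstance
  have hinj : Function.Injective (algebraMap (MvPolynomial J R) K) := hB.1
  have halg : Algebra.IsAlgebraic (MvPolynomial J R) K := by
    refine ⟨fun x => ?_⟩
    have h1 := hB.isAlgebraic.isAlgebraic x
    have h2 := g4_algebraic_map (B' := MvPolynomial J R) (D := K)
      (hB.1.aevalEquiv.symm.toRingEquiv : _ →+* MvPolynomial J R) (RingHom.id K)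
      hB.1.aevalEquiv.symm.injective (fun z => ?_) x h1
    · exact h2
    · change MvPolynomial.aeval B (hB.1.aevalEquiv.symm z) = (z : K)
      exact hB.1.aeval_repr z
  have hcom : 𝔔.comap (algebraMap (MvPolynomial J P) T) =
      𝔔'.comap (algebraMap (MvPolynomial J P) T) := by
    ext p
    have h1 := g4_mem_iff (R := R) (K := K) (P := P) (T := T) hRK B hB.1 𝔔 h𝔔 hd hfin p
    have h2 := g4_mem_iff (R := R) (K := K) (P := P) (T := T) hRK B hB.1 𝔔' h𝔔' hd' hfin' p
    rw [← h] at h2
    exact h1.trans h2.symm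
  obtain ⟨σ, hσ, hσ'⟩ := exists_aut (P := MvPolynomial J P) (T := T) (MvPolynomial J R) K hinj halg
    (fun Ω _ i₁ i₂ hi => g4_norm hinj halg Ω i₁ i₂ hi) 𝔔 𝔔' h𝔔 h𝔔' hcom
  refine ⟨σ, fun c => ?_, fun τ hτP hτK => hσ' τ ?_ hτK⟩
  · rw [IsScalarTower.algebraMap_apply R (MvPolynomial J R) K, hσ]
  · have e1 : τ.comp (MvPolynomial.eval₂Hom (algebraMap P T) (algebraMap K T ∘ B)) =
        MvPolynomial.eval₂Hom (algebraMap P T) (algebraMap K T ∘ B) := by
      apply MvPolynomial.ringHom_ext
      · intro p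
        rw [RingHom.comp_apply, MvPolynomial.eval₂Hom_C, hτP]
      · intro j
        rw [RingHom.comp_apply, MvPolynomial.eval₂Hom_X']
        change τ (algebraMap K T (B j)) = algebraMap K T (B j)
        have h3 : σ (B j) = B j := by
          have h4 := hσ (MvPolynomial.X j)
          have h5 : algebraMap (MvPolynomial J R) K (MvPolynomial.X j) = B j :=
            MvPolynomial.aeval_X B j
          rwa [h5] at h4
        rw [hτK, h3]
    intro p
    exact congrArg (fun f => f p) e1

/-- Comparison of the dimensions. -/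
theorem g4_count {F R K A D : Type u} [Field F] [CommRing R] [IsDomain R] [Field K] [CommRing A]
    [IsDomain A] [CommRing D] [Algebra F R] [Algebra F A] [Algebra R A] [Algebra K D]
    [IsScalarTower F R A] (hRA : Function.Injective (algebraMap R A)) [Algebra.FiniteType F A]
    (n : ℕ) (hn : Algebra.trdeg F R = n)
    (hd : Cardinal.toNat (Algebra.trdeg K D) + n = Cardinal.toNat (Algebra.trdeg F A)) :
    Algebra.trdeg R A ≤ Algebra.trdeg K D ∧ Algebra.trdeg R A < Cardinal.aleph0 := by
  have : FaithfulSMul R A := (faithfulSMul_iff_algebraMap_injective R A).2 hRA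
  have : FaithfulSMul F R := (faithfulSMul_iff_algebraMap_injective F R).2
    (algebraMap F R).injective
  have h1 : Algebra.trdeg F R + Algebra.trdeg R A = Algebra.trdeg F A := trdeg_add_eq F R
  have h2 : Algebra.trdeg F A < Cardinal.aleph0 := trdeg_lt_aleph0_of_finiteType
  have h3 : Algebra.trdeg R A < Cardinal.aleph0 := lt_of_le_of_lt (by rw [← h1]; simp) h2
  refine ⟨?_, h3⟩
  rw [← h1, hn, Cardinal.toNat_add Cardinal.natCast_lt_aleph0 h3, Cardinal.toNat_natCast] at hd
  have h4 : Cardinal.toNat (Algebra.trdeg K D) = Cardinal.toNat (Algebra.trdeg R A) := by omega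
  calc Algebra.trdeg R A = ((Cardinal.toNat (Algebra.trdeg R A) : ℕ) : Cardinal) :=
        (Cardinal.cast_toNat_of_lt_aleph0 h3).symm
    _ = ((Cardinal.toNat (Algebra.trdeg K D) : ℕ) : Cardinal) := by rw [h4]
    _ ≤ Algebra.trdeg K D := Cardinal.natCast_toNat_le _

theorem exists_aut_of_isAlgClosed {F K P T : Type u} [Field F] [Field K] [IsAlgClosed K] [Algebra F K] [CommRing P]
    [CommRing T] {I : Type} [Fintype I] (a : I → K) (ha : AlgebraicIndependent F a)
    (L : MvPolynomial I F →+* P) (hL : (L.comp MvPolynomial.C).FiniteType)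
    (ρ : P →+* T) (κ : K →+* T)
    (hp : IsPushout
      (CommRingCat.ofHom (MvPolynomial.aeval a : MvPolynomial I F →ₐ[F] K).toRingHom)
      (CommRingCat.ofHom L) (CommRingCat.ofHom κ) (CommRingCat.ofHom ρ))
    (𝔔 𝔔' : Ideal T) (h𝔔 : 𝔔.IsPrime) (h𝔔' : 𝔔'.IsPrime) (h : 𝔔.comap ρ = 𝔔'.comap ρ)
    (hd : dimOf κ 𝔔 + Fintype.card I = dimOf (L.comp MvPolynomial.C) (𝔔.comap ρ))
    (hd' : dimOf κ 𝔔' + Fintype.card I = dimOf (L.comp MvPolynomial.C) (𝔔'.comap ρ)) :
    ∃ σ : K ≃+* K, (∀ c : F, σ (algebraMap F K c) = algebraMap F K c) ∧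
      (∀ l, σ (a l) = a l) ∧ ∀ τ : T →+* T, (∀ p, τ (ρ p) = ρ p) →
        (∀ x, τ (κ x) = κ (σ x)) → 𝔔.comap τ = 𝔔' := by
  let a1 : Algebra (MvPolynomial I F) K :=
    (MvPolynomial.aeval a : MvPolynomial I F →ₐ[F] K).toRingHom.toAlgebra
  let a2 : Algebra (MvPolynomial I F) P := L.toAlgebra
  let a3 : Algebra P T := ρ.toAlgebra
  let a4 : Algebra K T := κ.toAlgebra
  let a5 : Algebra (MvPolynomial I F) T := (ρ.comp L).toAlgebra
  have t1 : IsScalarTower (MvPolynomial I F) P T := IsScalarTower.of_algebraMap_eq fun _ => rfl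
  have hw : κ.comp (MvPolynomial.aeval a : MvPolynomial I F →ₐ[F] K).toRingHom = ρ.comp L := by
    have := congrArg CommRingCat.Hom.hom hp.w
    exact this
  have t2 : IsScalarTower (MvPolynomial I F) K T :=
    IsScalarTower.of_algebraMap_eq' hw.symm
  have hpo : Algebra.IsPushout (MvPolynomial I F) K P T :=
    CommRingCat.isPushout_iff_isPushout.1 hp
  have hRK : Function.Injective (algebraMap (MvPolynomial I F) K) := ha
  have key : ∀ 𝔮 : Ideal T, 𝔮.IsPrime →
      dimOf κ 𝔮 + Fintype.card I = dimOf (L.comp MvPolynomial.C) (𝔮.comap ρ) →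
      Algebra.trdeg (MvPolynomial I F) (P ⧸ 𝔮.comap (algebraMap P T)) ≤
        Algebra.trdeg K (T ⧸ 𝔮) ∧
      Algebra.trdeg (MvPolynomial I F) (P ⧸ 𝔮.comap (algebraMap P T)) < Cardinal.aleph0 := by
    intro 𝔮 h𝔮 hdim
    have hprime : (𝔮.comap ρ).IsPrime := Ideal.comap_isPrime _ _
    have : IsDomain (P ⧸ 𝔮.comap ρ) := Ideal.Quotient.isDomain _
    have : Nontrivial (T ⧸ 𝔮) := Ideal.Quotient.nontrivial_iff.2 h𝔮.ne_top
    let b1 : Algebra F (P ⧸ 𝔮.comap ρ) :=
      ((Ideal.Quotient.mk (𝔮.comap ρ)).comp (L.comp MvPolynomial.C)).toAlgebra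
    have : Algebra.FiniteType F (P ⧸ 𝔮.comap ρ) := by
      have : ((Ideal.Quotient.mk (𝔮.comap ρ)).comp (L.comp MvPolynomial.C)).FiniteType :=
        RingHom.FiniteType.comp
          (RingHom.FiniteType.of_surjective _ Ideal.Quotient.mk_surjective) hL
      exact this
    have : IsScalarTower F (MvPolynomial I F) (P ⧸ 𝔮.comap ρ) :=
      IsScalarTower.of_algebraMap_eq fun _ => rfl
    have hRA : Function.Injective (algebraMap (MvPolynomial I F) (P ⧸ 𝔮.comap ρ)) := by
      intro x y hxy
      apply hRK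
      apply ((Ideal.Quotient.mk 𝔮).comp κ).injective
      have h1 : ∀ z : MvPolynomial I F, (Ideal.Quotient.mk 𝔮).comp κ
          (algebraMap (MvPolynomial I F) K z) = Ideal.quotientMap 𝔮 ρ le_rfl
          (algebraMap (MvPolynomial I F) (P ⧸ 𝔮.comap ρ) z) := by
        intro z
        change Ideal.Quotient.mk 𝔮 (κ (MvPolynomial.aeval a z)) =
          Ideal.quotientMap 𝔮 ρ le_rfl (Ideal.Quotient.mk (𝔮.comap ρ) (L z))
        rw [Ideal.quotientMap_mk]
        exact congrArg (fun f => Ideal.Quotient.mk 𝔮 (f z)) hw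
      rw [h1, h1, hxy]
    exact g4_count (F := F) (R := MvPolynomial I F) (K := K) (A := P ⧸ 𝔮.comap ρ) (D := T ⧸ 𝔮)
      hRA (Fintype.card I) (by
        rw [MvPolynomial.trdeg_of_isDomain, Cardinal.mk_fintype]
        simp) hdim
  obtain ⟨σ, hσ, hσ'⟩ := g4_main (R := MvPolynomial I F) (K := K) (P := P) (T := T) hRK 𝔔 𝔔' h𝔔 h𝔔'
    h (key 𝔔 h𝔔 hd).1 (key 𝔔 h𝔔 hd).2 (key 𝔔' h𝔔' hd').1 (key 𝔔' h𝔔' hd').2
  refine ⟨σ, fun c => ?_, fun l => ?_, fun τ hτ hτ' => hσ' τ hτ hτ'⟩
  · have h1 := hσ (MvPolynomial.C c)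
    have h2 : algebraMap (MvPolynomial I F) K (MvPolynomial.C c) = algebraMap F K c :=
      MvPolynomial.aeval_C a c
    rwa [h2] at h1
  · have h1 := hσ (MvPolynomial.X l)
    have h2 : algebraMap (MvPolynomial I F) K (MvPolynomial.X l) = a l :=
      MvPolynomial.aeval_X a l
    rwa [h2] at h1

end

end Pool.Agent.Helper47.Spread
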