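import Mathlib
import Pool.Agent.Helper47.Spread.A1
import Pool.Agent.Helper47.Spread2.G2

/-!
# Finiteness of the generic points over a prime
-/

universe u v w

open CategoryTheory AlgebraicGeometry Limits

namespace Pool.Agent.Helper47.Spread

open Pool.Agent.Helper10 Pool.Agent.Helper10.SmProjVar Pool.Agent.Helper47.Chow
open Pool.Agent.Helper47.Desc

noncomputable section

/-- Auxiliary form of `eq_of_le_generic`, used for `finite_generic`. -/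
theorem eq_of_le_generic_g5 {F K P T : Type u} [Field F] [Field K] [Algebra F K] [CommRing P]
    [CommRing T] {I : Type} [Fintype I] (a : I → K) (ha : AlgebraicIndependent F a)
    (L : MvPolynomial I F →+* P) (hL : (L.comp MvPolynomial.C).FiniteType)
    (ρ : P →+* T) (κ : K →+* T)
    (hκ : κ.FiniteType)
    (hsq : ρ.comp L = κ.comp (MvPolynomial.aeval a : MvPolynomial I F →ₐ[F] K).toRingHom)
    (hgen : Subring.closure (Set.range ρ ∪ Set.range κ) = ⊤) (𝔔 𝔔' : Ideal T)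
    (h𝔔 : 𝔔.IsPrime) (h𝔔' : 𝔔'.IsPrime) (h : 𝔔' ≤ 𝔔) (h' : 𝔔'.comap ρ = 𝔔.comap ρ)
    (hd : dimOf κ 𝔔 + Fintype.card I = dimOf (L.comp MvPolynomial.C) (𝔔.comap ρ)) :
    𝔔' = 𝔔 := by
  by_contra hne
  have hlt : 𝔔' < 𝔔 := lt_of_le_of_ne h hne
  have h1 : dimOf κ 𝔔 < dimOf κ 𝔔' := dimOf_lt κ hκ 𝔔' 𝔔 h𝔔' h𝔔 hlt
  have h2 : dimOf κ 𝔔' + Fintype.card I ≤ dimOf (L.comp MvPolynomial.C) (𝔔'.comap ρ) :=
    dimOf_add_le a ha L hL ρ κ hsq hgen 𝔔' h𝔔'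
  rw [h', ← hd] at h2
  omega

theorem finite_generic {F K P T : Type u} [Field F] [Field K] [Algebra F K] [CommRing P]
    [CommRing T] {I : Type} [Fintype I] (a : I → K) (ha : AlgebraicIndependent F a)
    (L : MvPolynomial I F →+* P) (hL : (L.comp MvPolynomial.C).FiniteType)
    (ρ : P →+* T) (κ : K →+* T)
    (hκ : κ.FiniteType)
    (hsq : ρ.comp L = κ.comp (MvPolynomial.aeval a : MvPolynomial I F →ₐ[F] K).toRingHom)
    (hgen : Subring.closure (Set.range ρ ∪ Set.range κ) = ⊤) (𝔭 : Ideal P) :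
    {𝔔 : Ideal T | 𝔔.IsPrime ∧ 𝔔.comap ρ = 𝔭 ∧
      dimOf κ 𝔔 + Fintype.card I = dimOf (L.comp MvPolynomial.C) 𝔭}.Finite := by
  letI : Algebra K T := κ.toAlgebra
  have hft : Algebra.FiniteType K T := hκ
  have hN : IsNoetherianRing T := Algebra.FiniteType.isNoetherianRing K T
  have hfin : ((𝔭.map ρ).minimalPrimes).Finite := Ideal.finite_minimalPrimes_of_isNoetherianRing T _
  refine hfin.subset ?_
  rintro 𝔔 ⟨h𝔔, hc, hd⟩
  have hle : 𝔭.map ρ ≤ 𝔔 := Ideal.map_le_iff_le_comap.2 hc.ge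
  obtain ⟨𝔔', hmin, h'⟩ := Ideal.exists_minimalPrimes_le hle
  have h𝔔' : 𝔔'.IsPrime := hmin.1.1
  have hp : 𝔭 ≤ 𝔔'.comap ρ := Ideal.map_le_iff_le_comap.1 hmin.1.2
  have hq : 𝔔'.comap ρ ≤ 𝔔.comap ρ := Ideal.comap_mono h'
  have hcc : 𝔔'.comap ρ = 𝔔.comap ρ := le_antisymm hq (hc.le.trans hp)
  have he : 𝔔' = 𝔔 := eq_of_le_generic_g5 a ha L hL ρ κ hκ hsq hgen 𝔔 𝔔' h𝔔 h𝔔' h' hcc
    (by rw [hc]; exact hd)
  rw [← he]
  exact hmin

/-- A generic point over a prime is minimal over it. -/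
theorem eq_of_le_generic {F K P T : Type u} [Field F] [Field K] [Algebra F K] [CommRing P]
    [CommRing T] {I : Type} [Fintype I] (a : I → K) (ha : AlgebraicIndependent F a)
    (L : MvPolynomial I F →+* P) (hL : (L.comp MvPolynomial.C).FiniteType)
    (ρ : P →+* T) (κ : K →+* T)
    (hκ : κ.FiniteType)
    (hsq : ρ.comp L = κ.comp (MvPolynomial.aeval a : MvPolynomial I F →ₐ[F] K).toRingHom)
    (hgen : Subring.closure (Set.range ρ ∪ Set.range κ) = ⊤) (𝔔 𝔔' : Ideal T)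
    (h𝔔 : 𝔔.IsPrime) (h𝔔' : 𝔔'.IsPrime) (h : 𝔔' ≤ 𝔔) (h' : 𝔔'.comap ρ = 𝔔.comap ρ)
    (hd : dimOf κ 𝔔 + Fintype.card I = dimOf (L.comp MvPolynomial.C) (𝔔.comap ρ)) :
    𝔔' = 𝔔 :=
  eq_of_le_generic_g5 a ha L hL ρ κ hκ hsq hgen 𝔔 𝔔' h𝔔 h𝔔' h h' hd

end

end Pool.Agent.Helper47.Spread
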