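import Mathlib
import Pool.Agent.Helper47.Spread.AlgPack
import Pool.Agent.Helper47.Spread2.G2
import Pool.Agent.Helper47.Spread2.G3
import Pool.Agent.Helper47.Spread2.G4
import Pool.Agent.Helper47.Spread2.G5

/-!
# The push-out square of a chart over an algebraically closed field
-/

universe u v w

open CategoryTheory AlgebraicGeometry Limits

namespace Pool.Agent.Helper47.Spread

noncomputable section

variable {F K A T : Type u} [Field F] [Field K] [IsAlgClosed K] [Algebra F K] [CommRing A]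
  [CommRing T] {I : Type} [Fintype I]

theorem alg_package2 (φ : F →+* A) (hφ : φ.FiniteType) (a : I → K)
    (ha : AlgebraicIndependent F a) (α : A →+* T) (κ : K →+* T) (hκ : κ.FiniteType) {n : ℕ}
    (e : Fin n → I)
    (L : MvPolynomial I F →+* MvPolynomial (Fin n) A) (ρ : MvPolynomial (Fin n) A →+* T)
    (hρC : ρ.comp MvPolynomial.C = α) (hρX : ∀ i, ρ (MvPolynomial.X i) = κ (a (e i)))
    (hLC : L.comp MvPolynomial.C = MvPolynomial.C.comp φ)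
    (hp : IsPushout
      (CommRingCat.ofHom (MvPolynomial.aeval a : MvPolynomial I F →ₐ[F] K).toRingHom)
      (CommRingCat.ofHom L) (CommRingCat.ofHom κ) (CommRingCat.ofHom ρ)) :
    (∀ l, ∃ p, ρ p = κ (a l)) ∧
    (∀ 𝔔 : Ideal T, 𝔔.IsPrime →
      dimOf κ 𝔔 + Fintype.card I ≤ dimOf ((MvPolynomial.C).comp φ) (𝔔.comap ρ)) ∧
    (∀ (𝔭 : Ideal (MvPolynomial (Fin n) A)) (𝔔 : Ideal T), 𝔭.IsPrime → 𝔔.IsPrime →
      𝔭 ≤ 𝔔.comap ρ → ∃ 𝔔' : Ideal T, 𝔔'.IsPrime ∧ 𝔔' ≤ 𝔔 ∧ 𝔔'.comap ρ = 𝔭 ∧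
        dimOf κ 𝔔' + Fintype.card I = dimOf ((MvPolynomial.C).comp φ) 𝔭) ∧
    (∀ 𝔔 𝔔' : Ideal T, 𝔔.IsPrime → 𝔔'.IsPrime → 𝔔' ≤ 𝔔 → 𝔔'.comap ρ = 𝔔.comap ρ →
      dimOf κ 𝔔 + Fintype.card I = dimOf ((MvPolynomial.C).comp φ) (𝔔.comap ρ) → 𝔔' = 𝔔) ∧
    (∀ 𝔔 𝔔' : Ideal T, 𝔔.IsPrime → 𝔔'.IsPrime → 𝔔.comap ρ = 𝔔'.comap ρ →
      dimOf κ 𝔔 + Fintype.card I = dimOf ((MvPolynomial.C).comp φ) (𝔔.comap ρ) →
      dimOf κ 𝔔' + Fintype.card I = dimOf ((MvPolynomial.C).comp φ) (𝔔'.comap ρ) →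
      ∃ σ : K ≃+* K, (∀ c : F, σ (algebraMap F K c) = algebraMap F K c) ∧
        (∀ l, σ (a l) = a l) ∧ ∀ τ : T →+* T, (∀ x, τ (α x) = α x) →
          (∀ x, τ (κ x) = κ (σ x)) → 𝔔.comap τ = 𝔔') ∧
    (∀ 𝔭 : Ideal (MvPolynomial (Fin n) A), {𝔔 : Ideal T | 𝔔.IsPrime ∧ 𝔔.comap ρ = 𝔭 ∧
      dimOf κ 𝔔 + Fintype.card I = dimOf ((MvPolynomial.C).comp φ) 𝔭}.Finite) := by
  have hft : (L.comp MvPolynomial.C).FiniteType := by
    rw [hLC]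
    refine RingHom.FiniteType.comp ?_ hφ
    rw [← MvPolynomial.algebraMap_eq, RingHom.finiteType_algebraMap]
    infer_instance
  have hsq : ρ.comp L = κ.comp (MvPolynomial.aeval a : MvPolynomial I F →ₐ[F] K).toRingHom :=
    (congrArg CommRingCat.Hom.hom hp.w).symm
  have hgen := closure_of_isPushout _ _ _ _ hp
  rw [← hLC]
  refine ⟨fun l => ⟨L (MvPolynomial.X l), ?_⟩, fun 𝔔 h𝔔 => dimOf_add_le a ha L hft ρ κ hsq hgen 𝔔 h𝔔,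
    fun 𝔭 𝔔 h𝔭 h𝔔 h => exists_generic_le a ha L hft ρ κ hp 𝔭 h𝔭 𝔔 h𝔔 h,
    fun 𝔔 𝔔' h𝔔 h𝔔' h h' hd =>
      eq_of_le_generic a ha L hft ρ κ hκ hsq hgen 𝔔 𝔔' h𝔔 h𝔔' h h' hd, ?_,
    fun 𝔭 => finite_generic a ha L hft ρ κ hκ hsq hgen 𝔭⟩
  · have h1 := congrArg (fun f => f (MvPolynomial.X l)) hsq
    change ρ (L (MvPolynomial.X l)) = κ (MvPolynomial.aeval a (MvPolynomial.X l)) at h1
    rw [h1, MvPolynomial.aeval_X]
  · intro 𝔔 𝔔' h𝔔 h𝔔' h hd hd'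
    obtain ⟨σ, h1, h2, h3⟩ := exists_aut_of_isAlgClosed a ha L hft ρ κ hp 𝔔 𝔔' h𝔔 h𝔔' h hd hd'
    refine ⟨σ, h1, h2, fun τ hα hκ' => h3 τ ?_ hκ'⟩
    have : τ.comp ρ = ρ := by
      apply MvPolynomial.ringHom_ext
      · intro x
        change τ (ρ (MvPolynomial.C x)) = ρ (MvPolynomial.C x)
        have e1 : ρ (MvPolynomial.C x) = α x := congrArg (fun f : A →+* T => f x) hρC
        rw [e1, hα]
      · intro i
        change τ (ρ (MvPolynomial.X i)) = ρ (MvPolynomial.X i)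
        rw [hρX, hκ', h2]
    exact fun p => congrArg (fun f : MvPolynomial (Fin n) A →+* T => f p) this

end

end Pool.Agent.Helper47.Spread
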