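import Mathlib
import Pool.Agent.Helper47.Spread.Defs

/-!
# Fields of definition of prime ideals
-/

universe u v w

open CategoryTheory AlgebraicGeometry Limits

namespace Pool.Agent.Helper47.Spread

open Pool.Agent.Helper10 Pool.Agent.Helper10.SmProjVar Pool.Agent.Helper47.Chow
open Pool.Agent.Helper47.Desc

noncomputable section

/-- Every element of a generated ring lies in the ring generated by finitely many generators of the
second kind. -/
private theorem g7_fin {K A T : Type u} [Field K] [CommRing A] [CommRing T] (α : A →+* T)
    (κ : K →+* T) (x : T) (hx : x ∈ Subring.closure (Set.range α ∪ Set.range κ)) :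
    ∃ s : Finset K, x ∈ Subring.closure (Set.range α ∪ κ '' (s : Set K)) := by
  classical
  have mono : ∀ s t : Finset K, s ⊆ t → Subring.closure (Set.range α ∪ κ '' (s : Set K)) ≤
      Subring.closure (Set.range α ∪ κ '' (t : Set K)) := fun s t h =>
    Subring.closure_mono (Set.union_subset_union_right _ (Set.image_mono (by exact_mod_cast h)))
  induction hx using Subring.closure_induction with
  | mem x hx =>
    rcases hx with hx | ⟨k, rfl⟩
    · exact ⟨∅, Subring.subset_closure (Or.inl hx)⟩
    · exact ⟨{k}, Subring.subset_closure (Or.inr ⟨k, by simp, rfl⟩)⟩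
  | zero => exact ⟨∅, zero_mem _⟩
  | one => exact ⟨∅, one_mem _⟩
  | add x y _ _ hx hy =>
    obtain ⟨s, hs⟩ := hx
    obtain ⟨t, ht⟩ := hy
    exact ⟨s ∪ t, add_mem (mono _ _ Finset.subset_union_left hs)
      (mono _ _ Finset.subset_union_right ht)⟩
  | neg x _ hx =>
    obtain ⟨s, hs⟩ := hx
    exact ⟨s, neg_mem hs⟩
  | mul x y _ _ hx hy =>
    obtain ⟨s, hs⟩ := hx
    obtain ⟨t, ht⟩ := hy
    exact ⟨s ∪ t, mul_mem (mono _ _ Finset.subset_union_left hs)
      (mono _ _ Finset.subset_union_right ht)⟩

/-- Elements generated by `A` and elements of `K` algebraic over `F(b)` are algebraic over the image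
of `A[b]` in a domain. -/
private theorem g7_alg {F K A S : Type u} [Field F] [Field K] [Algebra F K] [CommRing A]
    [CommRing S] [IsDomain S] (φ : F →+* A) (α : A →+* S) (κ : K →+* S)
    (hF : α.comp φ = κ.comp (algebraMap F K)) {J : Type} (b : J → K) (R : Subring S)
    (hRα : ∀ a, α a ∈ R) (hRb : ∀ l, κ (b l) ∈ R) (E : Set K)
    (hE : ∀ x ∈ E, IsAlgebraic (IntermediateField.adjoin F (Set.range b)) x) (x : S)
    (hx : x ∈ Subring.closure (Set.range α ∪ κ '' E)) : IsAlgebraic R x := by
  have hκ : Function.Injective κ := κ.injective
  -- elements of `F[b]` go to `R`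
  have hmem : ∀ y ∈ Algebra.adjoin F (Set.range b), κ y ∈ R := by
    intro y hy
    induction hy using Algebra.adjoin_induction with
    | mem x hx =>
      obtain ⟨l, rfl⟩ := hx
      exact hRb l
    | algebraMap r =>
      have h := congrArg (fun f => f r) (congrArg DFunLike.coe hF)
      simp only [RingHom.comp_apply] at h
      rw [← h]
      exact hRα _
    | add x y _ _ hx hy => rw [map_add]; exact add_mem hx hy
    | mul x y _ _ hx hy => rw [map_mul]; exact mul_mem hx hy
  induction hx using Subring.closure_induction with
  | mem x hx =>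
    rcases hx with ⟨a, rfl⟩ | ⟨k, hk, rfl⟩
    · exact isAlgebraic_algebraMap (⟨α a, hRα a⟩ : R)
    · have h1 := hE k hk
      open scoped IntermediateField.algebraAdjoinAdjoin in
      have h2 : IsAlgebraic (Algebra.adjoin F (Set.range b)) k :=
        (IsFractionRing.isAlgebraic_iff (Algebra.adjoin F (Set.range b))
          (IntermediateField.adjoin F (Set.range b)) K).2 h1
      let ρ : Algebra.adjoin F (Set.range b) →+* R :=
        (κ.comp (Algebra.adjoin F (Set.range b)).val.toRingHom).codRestrict R
          (fun y => hmem y y.2)
      refine h2.ringHom_of_comp_eq ρ κ ?_ ?_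
      · intro y z hyz
        have h3 : κ (y : K) = κ (z : K) := congrArg Subtype.val hyz
        exact Subtype.ext (hκ h3)
      · ext y
        rfl
  | zero => exact isAlgebraic_zero
  | one => exact isAlgebraic_one
  | add x y _ _ hx hy => exact hx.add hy
  | neg x _ hx => exact hx.neg
  | mul x y _ _ hx hy => exact hx.mul hy

/-- A prime ideal of a Noetherian ring `T` generated by the images of `A` and `K` is minimal over its
contraction to `A[b]` as soon as finitely many elements of `K` are algebraic over `F(b)`. -/
theorem exists_finset {F K A T : Type u} [Field F] [Field K] [Algebra F K] [CommRing A]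
    [CommRing T] [IsNoetherianRing T] (φ : F →+* A) (α : A →+* T) (κ : K →+* T)
    (hF : α.comp φ = κ.comp (algebraMap F K))
    (hgen : Subring.closure (Set.range α ∪ Set.range κ) = ⊤) (𝔔 : Ideal T) (h𝔔 : 𝔔.IsPrime) :
    ∃ s : Finset K, ∀ (J : Type) [Fintype J] (b : J → K),
      (∀ x ∈ s, IsAlgebraic (IntermediateField.adjoin F (Set.range b)) x) →
        ∀ 𝔔' : Ideal T, 𝔔'.IsPrime → 𝔔' ≤ 𝔔 →
          𝔔'.comap (MvPolynomial.eval₂Hom α fun l => κ (b l)) =
            𝔔.comap (MvPolynomial.eval₂Hom α fun l => κ (b l)) → 𝔔' = 𝔔 := by
  classical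
  obtain ⟨X, hX⟩ := (isNoetherianRing_iff_ideal_fg T).1 inferInstance 𝔔
  have hfin : ∀ x : T, ∃ s : Finset K, x ∈ Subring.closure (Set.range α ∪ κ '' (s : Set K)) :=
    fun x => g7_fin α κ x (by rw [hgen]; exact Subring.mem_top x)
  choose s hs using hfin
  refine ⟨X.biUnion s, ?_⟩
  intro J _ b hb 𝔔' h𝔔' hle hcom
  refine le_antisymm hle ?_
  rw [← hX, Ideal.span_le]
  intro x hx
  by_contra hx'
  have hx' : x ∉ 𝔔' := hx'
  have hxs : x ∈ Subring.closure (Set.range α ∪ κ '' ((X.biUnion s : Finset K) : Set K)) := by
    refine Subring.closure_mono (Set.union_subset_union_right _ (Set.image_mono ?_)) (hs x)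
    exact_mod_cast Finset.subset_biUnion_of_mem s hx
  have hxQ : x ∈ 𝔔 := by
    rw [← hX]
    exact Ideal.subset_span hx
  let π : T →+* T ⧸ 𝔔' := Ideal.Quotient.mk 𝔔'
  let R : Subring (T ⧸ 𝔔') := (π.comp (MvPolynomial.eval₂Hom α fun l => κ (b l))).range
  have halg : IsAlgebraic R (π x) := by
    refine g7_alg φ (π.comp α) (π.comp κ) (by rw [RingHom.comp_assoc, hF, RingHom.comp_assoc]) b R
      ?_ ?_ (X.biUnion s : Finset K) (fun y hy => hb y (by exact_mod_cast hy)) (π x) ?_
    · intro a
      exact ⟨MvPolynomial.C a, by simp⟩
    · intro l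
      exact ⟨MvPolynomial.X l, by simp⟩
    · have h1 : π x ∈ (Subring.closure (Set.range α ∪ κ '' ((X.biUnion s : Finset K) :
          Set K))).map π := ⟨x, hxs, rfl⟩
      rw [RingHom.map_closure] at h1
      rw [Set.image_union, ← Set.range_comp, Set.image_image] at h1
      exact h1
  have hx0 : π x ≠ 0 := by
    intro h
    exact hx' (Ideal.Quotient.eq_zero_iff_mem.1 h)
  have hne := Ideal.comap_ne_bot_of_algebraic_mem (I := 𝔔.map π) hx0
    (Ideal.mem_map_of_mem π hxQ) halg
  apply hne
  rw [eq_bot_iff]
  rintro ⟨_, p, rfl⟩ hp
  rw [Ideal.mem_comap] at hp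
  have hp1 : π (MvPolynomial.eval₂Hom α (fun l => κ (b l)) p) ∈ 𝔔.map π := hp
  have hp2 : MvPolynomial.eval₂Hom α (fun l => κ (b l)) p ∈ 𝔔 :=
    (Ideal.mem_quotient_iff_mem hle).1 hp1
  have hp3 : p ∈ 𝔔'.comap (MvPolynomial.eval₂Hom α fun l => κ (b l)) := by
    rw [hcom]
    exact hp2
  rw [Ideal.mem_bot]
  apply Subtype.ext
  exact Ideal.Quotient.eq_zero_iff_mem.2 hp3

/-- Passing to a larger family. -/
private theorem g7_mono {F K : Type u} [Field F] [Field K] [Algebra F K] {S T : Set K}
    (h : S ⊆ T) (x : K) (hx : IsAlgebraic (IntermediateField.adjoin F S) x) :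
    IsAlgebraic (IntermediateField.adjoin F T) x := by
  have hle : IntermediateField.adjoin F S ≤ IntermediateField.adjoin F T :=
    IntermediateField.adjoin.mono F S T h
  refine hx.ringHom_of_comp_eq (IntermediateField.inclusion hle).toRingHom (RingHom.id K) ?_ ?_
  · exact (IntermediateField.inclusion hle).toRingHom.injective
  · ext y
    rfl

/-- An algebraically independent family can be enlarged such that given elements become
algebraic. -/
theorem exists_extension {F K : Type u} [Field F] [Field K] [Algebra F K] {I : Type} [Fintype I]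
    (a : I → K) (ha : AlgebraicIndependent F a) (s : Finset K) :
    ∃ (m : ℕ) (b : I ⊕ Fin m → K), AlgebraicIndependent F b ∧ (∀ l, b (Sum.inl l) = a l) ∧
      ∀ x ∈ s, IsAlgebraic (IntermediateField.adjoin F (Set.range b)) x := by
  classical
  induction s using Finset.induction_on with
  | empty =>
    refine ⟨0, Sum.elim a (fun i => i.elim0), ?_, fun l => rfl, by simp⟩
    have h := ha.comp (Equiv.sumEmpty I (Fin 0)) (Equiv.injective _)
    have he : (a ∘ (Equiv.sumEmpty I (Fin 0)) : I ⊕ Fin 0 → K) =
        Sum.elim a (fun i => i.elim0) := by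
      funext i
      rcases i with i | i
      · rfl
      · exact i.elim0
    rw [← he]
    exact h
  | insert x s _ ih =>
    obtain ⟨m, b, hb, hba, hs⟩ := ih
    by_cases hx : IsAlgebraic (IntermediateField.adjoin F (Set.range b)) x
    · refine ⟨m, b, hb, hba, ?_⟩
      intro y hy
      rcases Finset.mem_insert.1 hy with rfl | hy
      · exact hx
      · exact hs y hy
    · have htr : Transcendental (Algebra.adjoin F (Set.range b)) x := by
        intro h
        apply hx
        open scoped IntermediateField.algebraAdjoinAdjoin in
        exact (IsFractionRing.isAlgebraic_iff (Algebra.adjoin F (Set.range b))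
          (IntermediateField.adjoin F (Set.range b)) K).1 h
      have hopt := (hb.option_iff_transcendental x).2 htr
      let e : I ⊕ Fin (m + 1) → Option (I ⊕ Fin m) :=
        Sum.elim (fun i => some (Sum.inl i))
          (Fin.lastCases none (fun j => some (Sum.inr j)))
      have he1 : ∀ i, e (Sum.inl i) = some (Sum.inl i) := fun _ => rfl
      have he2 : ∀ j : Fin m, e (Sum.inr j.castSucc) = some (Sum.inr j) := fun j => by
        simp [e]
      have he3 : e (Sum.inr (Fin.last m)) = none := by
        simp [e]
      have hinj : Function.Injective e := by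
        rintro (i | i) (j | j) hij
        · rw [he1, he1] at hij
          simpa using hij
        · exfalso
          induction j using Fin.lastCases with
          | last => rw [he1, he3] at hij; simp at hij
          | cast j => rw [he1, he2] at hij; simp at hij
        · exfalso
          induction i using Fin.lastCases with
          | last => rw [he1, he3] at hij; simp at hij
          | cast i => rw [he1, he2] at hij; simp at hij
        · induction i using Fin.lastCases with
          | last =>
            induction j using Fin.lastCases with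
            | last => rfl
            | cast j => rw [he3, he2] at hij; simp at hij
          | cast i =>
            induction j using Fin.lastCases with
            | last => rw [he3, he2] at hij; simp at hij
            | cast j =>
              rw [he2, he2] at hij
              simp only [Option.some.injEq, Sum.inr.injEq] at hij
              rw [hij]
      refine ⟨m + 1, (fun o : Option (I ⊕ Fin m) => o.elim x b) ∘ e, hopt.comp e hinj, ?_, ?_⟩
      · intro l
        simp only [Function.comp_apply, he1]
        exact hba l
      · have hsub : Set.range b ⊆ Set.range ((fun o : Option (I ⊕ Fin m) => o.elim x b) ∘ e) := by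
          rintro _ ⟨i | j, rfl⟩
          · exact ⟨Sum.inl i, by simp only [Function.comp_apply, he1]; rfl⟩
          · exact ⟨Sum.inr j.castSucc, by simp only [Function.comp_apply, he2]; rfl⟩
        intro y hy
        rcases Finset.mem_insert.1 hy with rfl | hy
        · have hmem : y ∈ IntermediateField.adjoin F
              (Set.range ((fun o : Option (I ⊕ Fin m) => o.elim y b) ∘ e)) := by
            apply IntermediateField.subset_adjoin
            exact ⟨Sum.inr (Fin.last m), by simp only [Function.comp_apply, he3]; rfl⟩
          exact isAlgebraic_algebraMap (⟨y, hmem⟩ : IntermediateField.adjoin F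
              (Set.range ((fun o : Option (I ⊕ Fin m) => o.elim y b) ∘ e)))
        · exact g7_mono hsub y (hs y hy)

end

end Pool.Agent.Helper47.Spread
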