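import Mathlib
import Pool.Agent.Helper47.Spread.Defs

/-!
# Adding zero sections
-/

universe u v w

open CategoryTheory AlgebraicGeometry Limits

namespace Pool.Agent.Helper47.Spread

open Pool.Agent.Helper10 Pool.Agent.Helper10.SmProjVar Pool.Agent.Helper47.Chow
open Pool.Agent.Helper47.Desc

noncomputable section

variable {F K : Type u} [Field F] [Field K] [Algebra F K] {M₀ : SmProjVar F} {r : ℕ} {I : Type}

/-- The sections `s_l` together with `m` times the zero section. -/
def Sections.extend (S : Sections M₀ r I) (m : ℕ) : Sections M₀ r (I ⊕ Fin m) where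
  ι := S.ι
  U := S.U
  affine := S.affine
  cover := S.cover
  f i q := Sum.elim (S.f i q) (fun _ => 0)
  glue := by
    intro i i'
    obtain ⟨G, hG⟩ := S.glue i i'
    refine ⟨G, fun q l => ?_⟩
    rcases l with l | l
    · exact hG q l
    · simp only [Sum.elim_inr, map_zero, mul_zero, Finset.sum_const_zero]

theorem separates_extend [Fintype I] {S : Sections M₀ r I} (hS : Separates S) (m : ℕ) :
    Separates (S.extend m) := by
  intro x hx
  obtain ⟨i, i', J, hJ⟩ := hS x hx
  refine ⟨i, i', fun c => Sum.inl (J c), ?_⟩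
  have hc : ∀ c c', coef (S.extend m) i i' c (Sum.inl (J c')) = coef S i i' c (J c') := by
    intro c c'
    rcases c with q | q <;> rfl
  have hdet : Matrix.det (Matrix.of fun c c' => coef (S.extend m) i i' c (Sum.inl (J c'))) =
      Matrix.det (Matrix.of fun c c' => coef S i i' c (J c')) := by
    congr 1
    funext c c'
    exact hc c c'
  exact hdet ▸ hJ

theorem eqn_extend_g8 [Fintype I] (S : Sections M₀ r I) (a : I → K) (m : ℕ)
    (b : I ⊕ Fin m → K) (hb : ∀ l, b (Sum.inl l) = a l) {Z : Scheme.{u}}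
    (p : Z ⟶ M₀.toOver.left) (s : Z ⟶ Spec (CommRingCat.of K)) (i : S.ι) (q : Fin r) :
    eqn (S.extend m) b p s i q = eqn S a p s i q := by
  have h1 : eqn (S.extend m) b p s i q =
      (∑ l : I, const s (p ⁻¹ᵁ S.U i) (b (Sum.inl l)) * pb p (S.U i) (S.f i q l)) +
        ∑ l : Fin m, const s (p ⁻¹ᵁ S.U i) (b (Sum.inr l)) * pb p (S.U i) 0 :=
    Fintype.sum_sum_type _
  rw [h1]
  unfold eqn
  simp only [map_zero, mul_zero, Finset.sum_const_zero, add_zero, hb]

theorem isZeroLocus_extend [Fintype I] {S : Sections M₀ r I} {a : I → K} {X : SmProjVar K}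
    {π : X.toOver.left ⟶ M₀.toOver.left} (hX : IsZeroLocus S a X π) (m : ℕ)
    (b : I ⊕ Fin m → K) (hb : ∀ l, b (Sum.inl l) = a l) :
    IsZeroLocus (S.extend m) b X π where
  w := hX.w
  zero := fun i q => (eqn_extend_g8 S a m b hb π X.toOver.hom i q).trans (hX.zero i q)
  exists_lift := fun Z p s h0 hz => hX.exists_lift Z p s h0 fun i q =>
    (eqn_extend_g8 S a m b hb p s i q).symm.trans (hz i q)
  unique := hX.unique

/-- No sections of the zero bundle. -/
def trivialSections (M₀ : SmProjVar F) (I : Type) : Sections M₀ 0 I where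
  ι := {U : M₀.toOver.left.Opens // IsAffineOpen U}
  U := fun U => U.1
  affine := fun U => U.2
  cover := by
    intro x
    obtain ⟨U, hU, hx, -⟩ := exists_isAffineOpen_mem_and_subset (x := x)
      (U := (⊤ : M₀.toOver.left.Opens)) trivial
    exact ⟨⟨U, hU⟩, hx⟩
  f _ q := Fin.elim0 q
  glue := by
    intro i i'
    exact ⟨0, fun q => Fin.elim0 q⟩

theorem isZeroLocus_trivial [Fintype I] {M : SmProjVar K}
    (pM : M.toOver.left ⟶ M₀.toOver.left)
    (hM : IsPullback pM M.toOver.hom M₀.toOver.hom (specMap F K)) (a : I → K) :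
    IsZeroLocus (trivialSections M₀ I) a M pM where
  w := hM.w
  zero := fun _ q => Fin.elim0 q
  exists_lift := fun Z p s h0 _ => ⟨hM.lift p s h0, hM.lift_fst _ _ _, hM.lift_snd _ _ _⟩
  unique := fun Z h h' h1 h2 => hM.hom_ext h1 h2

end

end Pool.Agent.Helper47.Spread
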