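import Mathlib
import Pool.Agent.Helper47.Spread.Defs

/-!
# The generic dimension of a point
-/

universe u v w

open CategoryTheory AlgebraicGeometry Limits

namespace Pool.Agent.Helper47.Spread

open Pool.Agent.Helper10 Pool.Agent.Helper10.SmProjVar Pool.Agent.Helper47.Chow
open Pool.Agent.Helper47.Desc

noncomputable section

variable {F K : Type u} [Field F] [Field K] [Algebra F K] {I : Type}

/-- The evaluation `κ(θ y)[X_l] → κ(y)` which maps `X_l` to `b l`. -/
def evRes (b : I → K) {Y : SmProjVar K} {N : SmProjVar F}
    (θ : Y.toOver.left ⟶ N.toOver.left) (y : Y.toOver.left) :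
    MvPolynomial I (N.toOver.left.residueField (θ y)) →+* Y.toOver.left.residueField y :=
  MvPolynomial.eval₂Hom (θ.residueFieldMap y).hom (fun l => (resHom Y y).hom (b l))

/-- The transcendence degree over `F` of the subfield of `κ(y)` generated by `κ(θ y)` and the
`b l`. -/
def gdim (b : I → K) {Y : SmProjVar K} {N : SmProjVar F}
    (θ : Y.toOver.left ⟶ N.toOver.left) (y : Y.toOver.left) : ℕ :=
  dimOf ((MvPolynomial.C).comp (resHom N (θ y)).hom) (RingHom.ker (evRes b θ y))

/-- The point `y` is defined over an algebraic extension of `F(b)`. -/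
def IsGen [Fintype I] (b : I → K) {Y : SmProjVar K} {N : SmProjVar F}
    (θ : Y.toOver.left ⟶ N.toOver.left) (y : Y.toOver.left) : Prop :=
  Y.pointDim y + Fintype.card I = gdim b θ y

end

end Pool.Agent.Helper47.Spread
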