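import Mathlib
import Pool.Agent.Helper47.Spread2.Defs2
import Pool.Agent.Helper47.Spread.D2
import Pool.Agent.Helper47.Spread.D4

/-!
# The generic dimension on charts
-/

universe u v w

open CategoryTheory AlgebraicGeometry Limits

namespace Pool.Agent.Helper47.Spread

open Pool.Agent.Helper10 Pool.Agent.Helper10.SmProjVar Pool.Agent.Helper47.Chow
open Pool.Agent.Helper47.Desc

noncomputable section

private lemma trdeg_fraction_g1 {k B L : Type u} [Field k] [CommRing B] [IsDomain B] [Field L]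
    [Algebra k B] [Algebra k L] [Algebra B L] [IsScalarTower k B L]
    (hinj : Function.Injective (algebraMap B L))
    (hs : ∀ z : L, ∃ a s : B, s ≠ 0 ∧ z * algebraMap B L s = algebraMap B L a) :
    Algebra.trdeg k B = Algebra.trdeg k L := by
  have : FaithfulSMul B L := (faithfulSMul_iff_algebraMap_injective B L).2 hinj
  have : FaithfulSMul k B := (faithfulSMul_iff_algebraMap_injective k B).2
    (algebraMap k B).injective
  have halg : Algebra.IsAlgebraic B L := by
    refine ⟨fun z => ?_⟩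
    obtain ⟨a, s, hs0, h⟩ := hs z
    refine ⟨Polynomial.C s * Polynomial.X - Polynomial.C a, ?_, ?_⟩
    · intro h0
      have := congrArg (fun q => Polynomial.coeff q 1) h0
      simp at this
      exact hs0 this
    · simp only [map_sub, map_mul, Polynomial.aeval_C, Polynomial.aeval_X]
      rw [← h]
      ring
  rw [← _root_.trdeg_add_eq k B (A := L), _root_.trdeg_eq_zero (R := B) (A := L), add_zero]

private lemma trdeg_quot_g1 {k R L : Type u} [Field k] [CommRing R] [Field L] (φ : k →+* R)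
    (ev : R →+* L) (ψ : k →+* L) (h : ev.comp φ = ψ)
    (hs : ∀ z : L, ∃ a s : R, ev s ≠ 0 ∧ z * ev s = ev a) (𝔭 : Ideal R)
    (hp : RingHom.ker ev = 𝔭) :
    @Algebra.trdeg k L _ _ ψ.toAlgebra =
      @Algebra.trdeg k (R ⧸ 𝔭) _ _ ((Ideal.Quotient.mk 𝔭).comp φ).toAlgebra := by
  subst hp
  subst h
  let _ : Algebra k (R ⧸ RingHom.ker ev) :=
    ((Ideal.Quotient.mk (RingHom.ker ev)).comp φ).toAlgebra
  let _ : Algebra k L := (ev.comp φ).toAlgebra
  let _ : Algebra (R ⧸ RingHom.ker ev) L := (RingHom.kerLift ev).toAlgebra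
  have : IsScalarTower k (R ⧸ RingHom.ker ev) L := IsScalarTower.of_algebraMap_eq (fun x => rfl)
  have : (RingHom.ker ev).IsPrime := RingHom.ker_isPrime ev
  refine (trdeg_fraction_g1 (k := k) (B := R ⧸ RingHom.ker ev) (L := L)
    (RingHom.kerLift_injective ev) (fun z => ?_)).symm
  obtain ⟨a, s, hs0, h⟩ := hs z
  refine ⟨Ideal.Quotient.mk _ a, Ideal.Quotient.mk _ s, fun h0 => hs0 ?_, h⟩
  rw [Ideal.Quotient.eq_zero_iff_mem, RingHom.mem_ker] at h0
  exact h0

/-- Two rings with the same images up to fractions in a field have the same dimension. -/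
lemma dimOf_ker_eq_g1 {k R₁ R₂ L : Type u} [Field k] [CommRing R₁] [CommRing R₂] [Field L]
    (φ₁ : k →+* R₁) (φ₂ : k →+* R₂) (ev₁ : R₁ →+* L) (ev₂ : R₂ →+* L)
    (h : ev₁.comp φ₁ = ev₂.comp φ₂) (h12 : ∀ r, ∃ r', ev₂ r' = ev₁ r)
    (h21 : ∀ r', ∃ a s, ev₁ s ≠ 0 ∧ ev₂ r' * ev₁ s = ev₁ a) :
    dimOf φ₁ (RingHom.ker ev₁) = dimOf φ₂ (RingHom.ker ev₂) := by
  let L' : Subfield L := Subfield.closure (Set.range ev₁)
  have hsub : Subring.closure (Set.range ev₁) = ev₁.range := by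
    rw [← RingHom.coe_range, Subring.closure_eq]
  have hfrac : ∀ z ∈ L', ∃ a s, ev₁ s ≠ 0 ∧ z * ev₁ s = ev₁ a := by
    intro z hz
    obtain ⟨y, hy, w, hw, hyw⟩ := Subfield.mem_closure_iff.1 hz
    rw [hsub] at hy hw
    obtain ⟨a, rfl⟩ := hy
    obtain ⟨s, rfl⟩ := hw
    by_cases hs : ev₁ s = 0
    · refine ⟨0, 1, ?_, ?_⟩
      · rw [map_one]; exact one_ne_zero
      · rw [← hyw, hs, div_zero, zero_mul, map_zero]
    · exact ⟨a, s, hs, by rw [← hyw, div_mul_cancel₀ _ hs]⟩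
  have m1 : ∀ r, ev₁ r ∈ L' := fun r => Subfield.subset_closure ⟨r, rfl⟩
  have m2 : ∀ r, ev₂ r ∈ L' := by
    intro r
    obtain ⟨a, s, hs, h⟩ := h21 r
    rw [(eq_div_iff hs).2 h]
    exact L'.div_mem (m1 a) (m1 s)
  let e1 : R₁ →+* L' := ev₁.codRestrict L' m1
  let e2 : R₂ →+* L' := ev₂.codRestrict L' m2
  have k1 : RingHom.ker e1 = RingHom.ker ev₁ := by
    ext r
    rw [RingHom.mem_ker, RingHom.mem_ker, ← Subtype.coe_inj]
    rfl
  have k2 : RingHom.ker e2 = RingHom.ker ev₂ := by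
    ext r
    rw [RingHom.mem_ker, RingHom.mem_ker, ← Subtype.coe_inj]
    rfl
  have q1 := trdeg_quot_g1 φ₁ e1 (e1.comp φ₁) rfl (fun z => by
    obtain ⟨a, s, hs, h⟩ := hfrac z.1 z.2
    refine ⟨a, s, fun h0 => hs ?_, Subtype.ext h⟩
    exact congrArg Subtype.val h0) _ k1
  have q2 := trdeg_quot_g1 φ₂ e2 (e1.comp φ₁) (by
    ext x
    exact (RingHom.congr_fun h x).symm) (fun z => by
    obtain ⟨a, s, hs, h⟩ := hfrac z.1 z.2
    obtain ⟨a', ha'⟩ := h12 a
    obtain ⟨s', hs'⟩ := h12 s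
    refine ⟨a', s', fun h0 => hs ?_, Subtype.ext ?_⟩
    · rw [← hs']
      exact congrArg Subtype.val h0
    · change z.1 * ev₂ s' = ev₂ a'
      rw [ha', hs', h]) _ k2
  unfold dimOf
  rw [← q1, ← q2]

lemma const_evaluation_g1 {K : Type u} [Field K] (Y : SmProjVar K) {U : Y.toOver.left.Opens}
    {y : Y.toOver.left} (hy : y ∈ U) :
    (Y.toOver.left.evaluation U y hy).hom.comp (const Y.toOver.hom U) =
      (resHom Y y).hom := by
  have key : ((Scheme.ΓSpecIso (CommRingCat.of K)).inv ≫ Y.toOver.hom.appTop ≫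
      Y.toOver.left.presheaf.map (homOfLE (le_top : U ≤ ⊤)).op) ≫
        Y.toOver.left.evaluation U y hy =
      Spec.preimage (Y.toOver.left.fromSpecResidueField y ≫ Y.toOver.hom) := by
    have h1 := Scheme.ΓSpecIso_inv_naturality
      (Spec.preimage (Y.toOver.left.fromSpecResidueField y ≫ Y.toOver.hom))
    have h3 : (Y.toOver.left.fromSpecResidueField y ≫ Y.toOver.hom).appTop =
        Y.toOver.hom.appTop ≫ (Y.toOver.left.presheaf.germ ⊤ y trivial ≫
          (Scheme.ΓSpecIso (Y.toOver.left.presheaf.stalk y)).inv ≫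
            (Spec (Y.toOver.left.presheaf.stalk y)).presheaf.map (homOfLE le_top).op) ≫
              (Spec.map (Y.toOver.left.residue y)).appTop := by
      rw [Scheme.Hom.comp_appTop, Scheme.fromSpecResidueField, Scheme.Hom.comp_appTop,
        Scheme.fromSpecStalk_appTop]
    rw [Spec.map_preimage, h3] at h1
    have h2 := Scheme.ΓSpecIso_inv_naturality (Y.toOver.left.residue y)
    rw [← cancel_mono (Scheme.ΓSpecIso (Y.toOver.left.residueField y)).inv, h1,
      ← Scheme.germ_residue]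
    simp only [Category.assoc]
    rw [h2, TopCat.Presheaf.germ_res_assoc]
    simp
  exact congrArg CommRingCat.Hom.hom key

lemma evaluation_frac_g1 {Z : Scheme.{u}} {U : Z.Opens} (hU : IsAffineOpen U) {y : Z}
    (hy : y ∈ U) (z : Z.residueField y) :
    ∃ a s, (Z.evaluation U y hy).hom s ≠ 0 ∧
      z * (Z.evaluation U y hy).hom s = (Z.evaluation U y hy).hom a := by
  let _ := TopCat.Presheaf.algebra_section_stalk Z.presheaf (⟨y, hy⟩ : U)
  have hloc := hU.isLocalization_stalk ⟨y, hy⟩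
  obtain ⟨w, rfl⟩ := Z.residue_surjective y z
  obtain ⟨⟨a, s⟩, hw⟩ := IsLocalization.surj
    (hU.primeIdealOf ⟨y, hy⟩).asIdeal.primeCompl w
  refine ⟨a, s, ?_, ?_⟩
  · have hu := IsLocalization.map_units (Z.presheaf.stalk y) s
    exact (hu.map (Z.residue y).hom).ne_zero
  · have := congrArg (Z.residue y).hom hw
    rw [map_mul] at this
    exact this

lemma ker_evaluation_g1 {Z : Scheme.{u}} {U : Z.Opens} (hU : IsAffineOpen U) {y : Z}
    (hy : y ∈ U) : RingHom.ker (Z.evaluation U y hy).hom = (hU.primeIdealOf ⟨y, hy⟩).asIdeal := by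
  rw [hU.primeIdealOf_eq_map_closedPoint]
  ext r
  rw [RingHom.mem_ker]
  change (IsLocalRing.residue (Z.presheaf.stalk y))
    (Z.presheaf.germ U y hy r) = 0 ↔ _
  rw [IsLocalRing.residue_eq_zero_iff]
  rfl

variable {F K : Type u} [Field F] [Field K] [Algebra F K] {I : Type}

theorem dimOf_comap_eq_gdim (b : I → K) {Y : SmProjVar K} {N : SmProjVar F}
    (θ : Y.toOver.left ⟶ N.toOver.left) (w : θ ≫ N.toOver.hom = Y.toOver.hom ≫ specMap F K)
    {V : N.toOver.left.Opens} (hV : IsAffineOpen V) (hU : IsAffineOpen (θ ⁻¹ᵁ V)) {n : ℕ}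
    (e : Fin n → I)
    (ρ : MvPolynomial (Fin n) Γ(N.toOver.left, V) →+* Γ(Y.toOver.left, θ ⁻¹ᵁ V))
    (hρC : ρ.comp MvPolynomial.C = pb θ V)
    (hρX : ∀ i, ρ (MvPolynomial.X i) = const Y.toOver.hom (θ ⁻¹ᵁ V) (b (e i)))
    (hgen : ∀ l, ∃ p, ρ p = const Y.toOver.hom (θ ⁻¹ᵁ V) (b l))
    (y : Y.toOver.left) (hy : y ∈ θ ⁻¹ᵁ V) :
    dimOf ((MvPolynomial.C).comp (const N.toOver.hom V))
      ((hU.primeIdealOf ⟨y, hy⟩).asIdeal.comap ρ) = gdim b θ y := by
  have hy' : θ y ∈ V := hy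
  let evY := (Y.toOver.left.evaluation (θ ⁻¹ᵁ V) y hy).hom
  let evN := (N.toOver.left.evaluation V (θ y) hy').hom
  let rf := (θ.residueFieldMap y).hom
  have hnat : ∀ g, rf (evN g) = evY (pb θ V g) := fun g =>
    Scheme.evaluation_naturality_apply θ y hy' g
  have hcY : ∀ c, evY (const Y.toOver.hom (θ ⁻¹ᵁ V) c) = (resHom Y y).hom c := fun c =>
    RingHom.congr_fun (const_evaluation_g1 Y hy) c
  have hcN : ∀ c, evN (const N.toOver.hom V c) = (resHom N (θ y)).hom c := fun c =>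
    RingHom.congr_fun (const_evaluation_g1 N hy') c
  have hρC' : ∀ g, ρ (MvPolynomial.C g) = pb θ V g := fun g => RingHom.congr_fun hρC g
  have e2C : ∀ g, evRes b θ y (MvPolynomial.C g) = rf g := fun g => by
    unfold evRes
    rw [MvPolynomial.coe_eval₂Hom, MvPolynomial.eval₂_C]
  have e2X : ∀ l, evRes b θ y (MvPolynomial.X l) = (resHom Y y).hom (b l) := fun l => by
    unfold evRes
    rw [MvPolynomial.coe_eval₂Hom, MvPolynomial.eval₂_X]
  have hker : (hU.primeIdealOf ⟨y, hy⟩).asIdeal.comap ρ = RingHom.ker (evY.comp ρ) := by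
    rw [← ker_evaluation_g1 hU hy, RingHom.comap_ker]
  rw [hker]
  unfold gdim
  refine dimOf_ker_eq_g1 _ _ _ _ ?_ ?_ ?_
  · ext c
    change evY (ρ (MvPolynomial.C (const N.toOver.hom V c))) =
      evRes b θ y (MvPolynomial.C ((resHom N (θ y)).hom c))
    rw [hρC', ← hnat, hcN, e2C]
  · intro r
    induction r using MvPolynomial.induction_on with
    | C g => exact ⟨MvPolynomial.C (evN g), by
        rw [e2C, hnat]
        change _ = evY (ρ (MvPolynomial.C g))
        rw [hρC']⟩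
    | add p q hp hq =>
      obtain ⟨p', hp'⟩ := hp
      obtain ⟨q', hq'⟩ := hq
      exact ⟨p' + q', by rw [map_add, map_add, hp', hq']⟩
    | mul_X p i hp =>
      obtain ⟨p', hp'⟩ := hp
      refine ⟨p' * MvPolynomial.X (e i), ?_⟩
      rw [map_mul, map_mul, hp', e2X, ← hcY]
      change _ = _ * evY (ρ (MvPolynomial.X i))
      rw [hρX]
  · intro r
    induction r using MvPolynomial.induction_on with
    | C g =>
      obtain ⟨a, s, hs, h⟩ := evaluation_frac_g1 hV hy' g
      refine ⟨MvPolynomial.C a, MvPolynomial.C s, ?_, ?_⟩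
      · change evY (ρ (MvPolynomial.C s)) ≠ 0
        rw [hρC', ← hnat]
        exact fun h0 => hs ((map_eq_zero rf).1 h0)
      · change _ * evY (ρ (MvPolynomial.C s)) = evY (ρ (MvPolynomial.C a))
        rw [hρC', hρC', ← hnat, ← hnat, e2C, ← map_mul]
        exact congrArg rf h
    | add p q hp hq =>
      obtain ⟨a, s, hs, h⟩ := hp
      obtain ⟨a', s', hs', h'⟩ := hq
      refine ⟨a * s' + a' * s, s * s', ?_, ?_⟩
      · rw [map_mul]; exact mul_ne_zero hs hs'
      · rw [map_add, map_add, map_mul, map_mul, map_mul, ← h, ← h']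
        ring
    | mul_X p i hp =>
      obtain ⟨a, s, hs, h⟩ := hp
      obtain ⟨p', hp'⟩ := hgen i
      refine ⟨a * p', s, hs, ?_⟩
      rw [map_mul, map_mul, ← h, e2X, ← hcY, ← hp']
      change _ * evY (ρ p') * _ = _ * evY (ρ p')
      ring

end

end Pool.Agent.Helper47.Spread
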