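import Mathlib
import Pool.Agent.Helper47.Spread.Local
import Pool.Agent.Helper47.Spread2.AlgPack2
import Pool.Agent.Helper47.Spread2.G1

/-!
# The fibres of `X × X ⟶ M₀ × M₀` over an algebraically closed field
-/

universe u v w

open CategoryTheory AlgebraicGeometry Limits

namespace Pool.Agent.Helper47.Spread

open Pool.Agent.Helper10 Pool.Agent.Helper10.SmProjVar Pool.Agent.Helper47.Chow
open Pool.Agent.Helper47.Desc

noncomputable section

variable {F K : Type u} [Field F] [Field K] [Algebra F K] {M₀ : SmProjVar F} {I : Type}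
  [Fintype I]

/-- Around `x` the morphism `X × X ⟶ M₀ × M₀` is a vector bundle with generic coefficients. -/
def HasChart (a : I → K) {X : SmProjVar K} (π : X.toOver.left ⟶ M₀.toOver.left)
    (w : π ≫ M₀.toOver.hom = X.toOver.hom ≫ specMap F K) (r : ℕ)
    (x : (M₀.prod M₀).toOver.left) : Prop :=
  ∃ (V : (M₀.prod M₀).toOver.left.Opens) (_ : IsAffineOpen V) (_ : x ∈ V)
    (_ : IsAffineOpen (theta π w ⁻¹ᵁ V)) (n : ℕ) (e : Fin n → I)
    (L : MvPolynomial I F →+* MvPolynomial (Fin n) Γ((M₀.prod M₀).toOver.left, V))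
    (ρ : MvPolynomial (Fin n) Γ((M₀.prod M₀).toOver.left, V) →+*
      Γ((X.prod X).toOver.left, theta π w ⁻¹ᵁ V)),
    n + 2 * r = Fintype.card I ∧ ρ.comp MvPolynomial.C = pb (theta π w) V ∧
    (∀ i, ρ (MvPolynomial.X i) = const (X.prod X).toOver.hom (theta π w ⁻¹ᵁ V) (a (e i))) ∧
    L.comp MvPolynomial.C = MvPolynomial.C.comp (const (M₀.prod M₀).toOver.hom V) ∧
    IsPushout (CommRingCat.ofHom (MvPolynomial.aeval a : MvPolynomial I F →ₐ[F] K).toRingHom)
      (CommRingCat.ofHom L)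
      (CommRingCat.ofHom (const (X.prod X).toOver.hom (theta π w ⁻¹ᵁ V)))
      (CommRingCat.ofHom ρ)

theorem hasChart_of_separates {r : ℕ} {S : Sections M₀ r I} (hsep : Separates S) {a : I → K}
    {X : SmProjVar K} {π : X.toOver.left ⟶ M₀.toOver.left} [IsAffineHom π]
    (hX : IsZeroLocus S a X π) (x : (M₀.prod M₀).toOver.left)
    (hx : x ∉ Set.range (diag M₀).left) : HasChart a π hX.w r x :=
  exists_chart hsep hX x hx

lemma isPrime_map_mvC {R : Type u} [CommRing R] (𝔭 : Ideal R) (h : 𝔭.IsPrime) (n : ℕ) :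
    (𝔭.map (MvPolynomial.C (σ := Fin n))).IsPrime := by
  have h1 : IsDomain (MvPolynomial (Fin n) (R ⧸ 𝔭)) := inferInstance
  have h2 := MvPolynomial.quotientEquivQuotientMvPolynomial (σ := Fin n) 𝔭
  rw [← Ideal.Quotient.isDomain_iff_prime]
  exact MulEquiv.isDomain _ h2.symm.toMulEquiv

theorem local_package2 [IsAlgClosed K] {r r' : ℕ} {S : Sections M₀ r' I} {a : I → K}
    (ha : AlgebraicIndependent F a) {X : SmProjVar K} {π : X.toOver.left ⟶ M₀.toOver.left}
    (hX : IsZeroLocus S a X π) (x : (M₀.prod M₀).toOver.left) (hx : HasChart a π hX.w r x) :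
    (∀ y : (X.prod X).toOver.left, theta π hX.w y = x →
      (X.prod X).pointDim y + 2 * r ≤ (M₀.prod M₀).pointDim x) ∧
    (∀ y : (X.prod X).toOver.left, theta π hX.w y = x → IsGen a (theta π hX.w) y →
      (Set.range fun g : galGroup (F := F) a π => (Desc.sq g.1).sch y).Finite) ∧
    ∃ lev : (X.prod X).toOver.left → ℕ, ∀ y : (X.prod X).toOver.left,
      theta π hX.w y = x → IsGen a (theta π hX.w) y →
        (lev y = 0 → (X.prod X).pointDim y + 2 * r = (M₀.prod M₀).pointDim x ∧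
          ∀ y' : (X.prod X).toOver.left, theta π hX.w y' = x →
            ((X.prod X).pointDim y' = (X.prod X).pointDim y →
              IsGen a (theta π hX.w) y' ∧
              ∃ g ∈ galGroup (F := F) a π, (Desc.sq g).sch y = y') ∧ (y' ⤳ y → y' = y)) ∧
        (lev y ≠ 0 → ∃ D : QCycles (X.prod X), IsDivisor (X.prod X) D ∧ 0 < D.coeff y ∧
          (∀ g ∈ galGroup (F := F) a π, 0 ≤ D.coeff ((Desc.sq g).sch y)) ∧
          ∀ y' : (X.prod X).toOver.left, D.coeff y' ≠ 0 →
            (X.prod X).pointDim y' = (X.prod X).pointDim y ∧ x ⤳ theta π hX.w y' ∧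
              (HasChart a π hX.w r (theta π hX.w y') → IsGen a (theta π hX.w) y') ∧
              (theta π hX.w y' = x → (∃ g ∈ galGroup (F := F) a π, (Desc.sq g).sch y = y') ∨
                lev y' < lev y)) := by
  obtain ⟨V, hV, hxV, hU, n, e, L, ρ, hn, hρC, hρX, hLC, hp⟩ := id hx
  let θ := theta π hX.w
  let Y := X.prod X
  let N := M₀.prod M₀
  let U : Y.toOver.left.Opens := θ ⁻¹ᵁ V
  have hφ : (const N.toOver.hom V).FiniteType := finiteType_const N hV
  have hκ : (const Y.toOver.hom U).FiniteType := finiteType_const Y hU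
  obtain ⟨hgn, dle, gd, inc, tr, fin⟩ := alg_package2 (const N.toOver.hom V) hφ a ha (pb θ V)
    (const Y.toOver.hom U) hκ e L ρ hρC hρX hLC hp
  obtain ⟨lv, hlv⟩ := exists_level (const N.toOver.hom V) hφ n
  let Q : ∀ y : Y.toOver.left, y ∈ U → Ideal Γ(Y.toOver.left, U) := fun y hy =>
    (hU.primeIdealOf ⟨y, hy⟩).asIdeal
  have hQ : ∀ y hy, (Q y hy).IsPrime := fun y hy => (hU.primeIdealOf ⟨y, hy⟩).isPrime
  have hQρ : ∀ y hy, ((Q y hy).comap ρ).IsPrime := fun y hy => by
    have := hQ y hy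
    exact Ideal.comap_isPrime ρ (Q y hy)
  have hQC : ∀ y hy, ((Q y hy).comap ρ).comap MvPolynomial.C =
      (hV.primeIdealOf ⟨θ y, hy⟩).asIdeal := by
    intro y hy
    rw [Ideal.comap_comap, hρC]
    exact comap_pb θ hV hU hy
  have hft : ((MvPolynomial.C (σ := Fin n)).comp (const N.toOver.hom V)).FiniteType := by
    refine RingHom.FiniteType.comp ?_ hφ
    rw [← MvPolynomial.algebraMap_eq, RingHom.finiteType_algebraMap]
    infer_instance
  -- the dimension inequality and the generic points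
  have hdle : ∀ y hy, Y.pointDim y + Fintype.card I ≤
      dimOf ((MvPolynomial.C (σ := Fin n)).comp (const N.toOver.hom V)) ((Q y hy).comap ρ) := by
    intro y hy
    rw [pointDim_eq_dimOf Y hU hy]
    exact dle (Q y hy) (hQ y hy)
  have hgd : ∀ y (hy : y ∈ U),
      dimOf ((MvPolynomial.C (σ := Fin n)).comp (const N.toOver.hom V)) ((Q y hy).comap ρ) =
        gdim a θ y := fun y hy =>
    dimOf_comap_eq_gdim a θ (theta_hom π hX.w) hV hU e ρ hρC hρX hgn y hy
  have hgen : ∀ y (hy : y ∈ U), IsGen a θ y → dimOf (const Y.toOver.hom U) (Q y hy) +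
      Fintype.card I =
      dimOf ((MvPolynomial.C (σ := Fin n)).comp (const N.toOver.hom V)) ((Q y hy).comap ρ) := by
    intro y hy h
    rw [hgd, ← pointDim_eq_dimOf Y hU hy]
    exact h
  -- points with the same prime ideal of the polynomial ring are conjugate
  have hconj : ∀ y y' (hy : y ∈ U) (hy' : y' ∈ U), IsGen a θ y → IsGen a θ y' →
      (Q y hy).comap ρ = (Q y' hy').comap ρ →
      ∃ g ∈ galGroup (F := F) a π, (Desc.sq g).sch y = y' := by
    intro y y' hy hy' hg1 hg2 h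
    obtain ⟨σ, hσ1, hσ2, hσ3⟩ := tr (Q y hy) (Q y' hy') (hQ _ _) (hQ _ _) h (hgen y hy hg1)
      (hgen y' hy' hg2)
    obtain ⟨g, hg, hgσ⟩ := exists_semiAut hX σ hσ1 hσ2
    refine ⟨g, hg, ?_⟩
    obtain ⟨τ, hτ1, hτ2, hτ3⟩ := comap_sq a π hX.w g hg V hU
    obtain ⟨hgy, hτ4⟩ := hτ3 y hy
    have h5 := hσ3 (τ : _ →+* _) hτ1 (fun z => by
      have := hτ2 z
      rw [hgσ] at this
      exact this)
    exact eq_of_prime_eq hU hgy hy' (hτ4.symm.trans h5)
  have hxU : ∀ y', θ y' = x → y' ∈ U := by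
    intro y' h
    change θ y' ∈ V
    rw [h]
    exact hxV
  have hQx : ∀ y' (hy' : y' ∈ U), θ y' = x → ((Q y' hy').comap ρ).comap MvPolynomial.C =
      (hV.primeIdealOf ⟨x, hxV⟩).asIdeal := by
    intro y' hy' h
    rw [hQC]
    subst h
    rfl
  have hprime : (hV.primeIdealOf ⟨x, hxV⟩).asIdeal.IsPrime := (hV.primeIdealOf ⟨x, hxV⟩).isPrime
  have hle : ∀ y' (hy' : y' ∈ U), θ y' = x →
      (hV.primeIdealOf ⟨x, hxV⟩).asIdeal.map MvPolynomial.C ≤ (Q y' hy').comap ρ := by
    intro y' hy' h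
    rw [Ideal.map_le_iff_le_comap, hQx y' hy' h]
  have hdx : dimOf ((MvPolynomial.C (σ := Fin n)).comp (const N.toOver.hom V))
      ((hV.primeIdealOf ⟨x, hxV⟩).asIdeal.map MvPolynomial.C) = N.pointDim x + n := by
    rw [dimOf_map_mvC _ hφ n _ hprime, ← pointDim_eq_dimOf N hV hxV]
  have hmono : ∀ 𝔭 𝔮 : Ideal (MvPolynomial (Fin n) Γ(N.toOver.left, V)), 𝔭.IsPrime → 𝔮.IsPrime →
      𝔭 ≤ 𝔮 → dimOf ((MvPolynomial.C (σ := Fin n)).comp (const N.toOver.hom V)) 𝔮 ≤
        dimOf ((MvPolynomial.C (σ := Fin n)).comp (const N.toOver.hom V)) 𝔭 := by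
    intro 𝔭 𝔮 h𝔭 h𝔮 h
    rcases h.eq_or_lt with rfl | h
    · exact le_rfl
    · exact (dimOf_lt _ hft _ _ h𝔭 h𝔮 h).le
  have hmapprime : ((hV.primeIdealOf ⟨x, hxV⟩).asIdeal.map
      (MvPolynomial.C (σ := Fin n))).IsPrime := isPrime_map_mvC _ hprime n
  refine ⟨fun y hyx => ?_, fun y hyx hg => ?_, ?_⟩
  · have hy := hxU y hyx
    have h1 := hdle y hy
    have h2 := hmono _ _ hmapprime (hQρ y hy) (hle y hy hyx)
    rw [hdx] at h2
    change Y.pointDim y + 2 * r ≤ N.pointDim x
    omega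
  · have hy := hxU y hyx
    have h1 := fin ((Q y hy).comap ρ)
    classical
    refine Set.Finite.of_injOn (f := fun y' => if h : y' ∈ U then Q y' h else ⊤) ?_ ?_ h1
    · rintro _ ⟨g, rfl⟩
      obtain ⟨τ, hτ1, hτ2, hτ3⟩ := comap_sq a π hX.w g.1 g.2 V hU
      obtain ⟨hgy, hτ4⟩ := hτ3 y hy
      have hτρ : (τ : _ →+* _).comp ρ = ρ := by
        apply MvPolynomial.ringHom_ext
        · intro z
          change τ (ρ (MvPolynomial.C z)) = ρ (MvPolynomial.C z)
          have e1 : ρ (MvPolynomial.C z) = pb θ V z := congrArg (fun f : _ →+* _ => f z) hρC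
          rw [e1]
          exact hτ1 z
        · intro i
          change τ (ρ (MvPolynomial.X i)) = ρ (MvPolynomial.X i)
          rw [hρX]
          exact (hτ2 _).trans (congrArg _ (g.2.2.2 (e i)))
      have h3 : (Q _ hgy).comap ρ = (Q y hy).comap ρ := by
        change ((hU.primeIdealOf ⟨_, hgy⟩).asIdeal).comap ρ = _
        rw [← hτ4, Ideal.comap_comap, hτρ]
      simp only
      rw [dif_pos hgy]
      refine ⟨hQ _ _, h3, ?_⟩
      have h4 : Y.pointDim ((Desc.sq g.1).sch y) = Y.pointDim y := pointDim_pt (Desc.sq g.1) y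
      change dimOf (const Y.toOver.hom U) (hU.primeIdealOf ⟨_, hgy⟩).asIdeal + _ = _
      rw [← pointDim_eq_dimOf Y hU hgy, h4, pointDim_eq_dimOf Y hU hy]
      exact hgen y hy hg
    · have h2 : ∀ z ∈ Set.range (fun g : galGroup (F := F) a π => (Desc.sq g.1).sch y), z ∈ U := by
        rintro _ ⟨g, rfl⟩
        obtain ⟨τ, hτ1, hτ2, hτ3⟩ := comap_sq a π hX.w g.1 g.2 V hU
        exact (hτ3 y hy).1
      intro z hz z' hz' hzz
      simp only [dif_pos (h2 z hz), dif_pos (h2 z' hz')] at hzz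
      exact eq_of_prime_eq hU (h2 z hz) (h2 z' hz') hzz
  classical
  refine ⟨fun y => if h : y ∈ U then lv ((Q y h).comap ρ) else 0, fun y hyx hgy => ?_⟩
  have hy : y ∈ U := hxU y hyx
  simp only [dif_pos hy]
  obtain ⟨h0, h1⟩ := hlv ((Q y hy).comap ρ) (hQρ y hy)
  have hdy : Y.pointDim y + Fintype.card I =
      dimOf ((MvPolynomial.C (σ := Fin n)).comp (const N.toOver.hom V)) ((Q y hy).comap ρ) := by
    rw [pointDim_eq_dimOf Y hU hy]
    exact hgen y hy hgy
  refine ⟨fun hl => ?_, fun hl => ?_⟩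
  · -- generic points of the fibre
    have h2 := h0 hl
    rw [hQx y hy hyx] at h2
    refine ⟨?_, fun y' hy'x => ?_⟩
    · have h3 := hdy
      rw [h2, hdx] at h3
      change Y.pointDim y + 2 * r = N.pointDim x
      omega
    · have hy' := hxU y' hy'x
      have h4 : (Q y hy).comap ρ ≤ (Q y' hy').comap ρ := by
        rw [h2]
        exact hle y' hy' hy'x
      refine ⟨fun hd => ?_, fun hs => ?_⟩
      · have h5 : (Q y hy).comap ρ = (Q y' hy').comap ρ := by
          by_contra hne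
          have h5 := dimOf_lt _ hft _ _ (hQρ y hy) (hQρ y' hy') (lt_of_le_of_ne h4 hne)
          have h6 := hdle y' hy'
          change Y.pointDim y' = Y.pointDim y at hd
          omega
        have h6 : IsGen a θ y' := by
          change Y.pointDim y' + Fintype.card I = gdim a θ y'
          rw [← hgd y' hy', ← h5, ← hdy]
          exact congrArg (· + Fintype.card I) hd
        exact ⟨h6, hconj y y' hy hy' hgy h6 h5⟩
      · have h6 : Q y' hy' ≤ Q y hy := (specializes_iff hU hy' hy).mp hs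
        have h7 : (Q y' hy').comap ρ = (Q y hy).comap ρ := le_antisymm (Ideal.comap_mono h6) h4
        exact eq_of_prime_eq hU hy' hy (inc _ _ (hQ _ _) (hQ _ _) h6 h7 (hgen y hy hgy))
  · -- the other points
    obtain ⟨𝔭', hp1, hp2, hp3, hp4, b, hb1, hb2, hb3⟩ := h1 hl
    obtain ⟨𝔔', hq1, hq2, hq3, hq6⟩ := gd 𝔭' (Q y hy) hp1 (hQ y hy) hp2
    obtain ⟨y₀, hy₀, hq4⟩ := exists_pt hU 𝔔' hq1
    have hq5 : Q y₀ hy₀ = 𝔔' := hq4
    have hθy₀ : θ y₀ = x := by
      refine eq_of_prime_eq hV hy₀ hxV ?_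
      rw [← hQx y hy hyx, ← hp3, ← hq3, ← hq5]
      exact (hQC y₀ hy₀).symm
    have hd00 : Y.pointDim y₀ + Fintype.card I =
        dimOf ((MvPolynomial.C (σ := Fin n)).comp (const N.toOver.hom V)) 𝔭' := by
      rw [pointDim_eq_dimOf Y hU hy₀, ← hq6, ← hq5]
    have hg0 : Y.pointDim y₀ + Fintype.card I = gdim a θ y₀ := by
      rw [hd00, ← hgd y₀ hy₀, hq5, hq3]
    have hd0 : Y.pointDim y₀ = Y.pointDim y + 1 := by
      rw [hp4] at hd00
      omega
    have hsp : y₀ ⤳ y := (specializes_iff hU hy₀ hy).mpr (by rw [hq4]; exact hq2)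
    have hne : y ≠ y₀ := by
      intro h
      rw [h] at hd0
      omega
    have hbtw : ∀ t : Y.toOver.left, y₀ ⤳ t → t ⤳ y → t = y₀ ∨ t = y := by
      intro t ht1 ht2
      by_contra! hcon
      have h2 := pointDim_lt Y ht1 hcon.1
      have h3 := pointDim_lt Y ht2 (Ne.symm hcon.2)
      omega
    have hbas : y₀ ∈ Y.toOver.left.basicOpen (ρ b) := by
      by_contra h
      rw [← mem_primeIdealOf_iff hU hy₀, hq4, ← Ideal.mem_comap, hq3] at h
      exact hb2 h
    have hbasy : y ∉ Y.toOver.left.basicOpen (ρ b) := by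
      rw [← mem_primeIdealOf_iff hU hy]
      exact hb1
    obtain ⟨D, hD1, hD2, hD3, hD4⟩ := exists_divisor Y U hU y₀ (ρ b) hbas
    refine ⟨D, hD1, hD4 y hy hsp hne hbtw hbasy, fun g hg => ?_, fun y' hy'D => ?_⟩
    · refine (hD3 _ ?_).1
      change θ ((Desc.sq g).sch y) ∈ V
      have h2 : θ ((Desc.sq g).sch y) = θ y := by
        rw [← Scheme.Hom.comp_apply]
        rw [theta_sq a π hX.w g hg]
      rw [h2, show θ y = x from hyx]
      exact hxV
    · obtain ⟨h2, h3, h4⟩ := hD2 y' hy'D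
      have h5 := pointDim_add_one Y h2 h3 h4
      have hpd : Y.pointDim y' = Y.pointDim y := by omega
      -- `y'` lies over `x` with `b` in its prime ideal, or not over `x`
      have hover : ∀ hy'x : θ y' = x, ∃ hy' : y' ∈ U, b ∈ (Q y' hy').comap ρ ∧
          𝔭' ≤ (Q y' hy').comap ρ := by
        intro hy'x
        have hy' := hxU y' hy'x
        have h6 : y' ∉ Y.toOver.left.basicOpen (ρ b) := (hD3 y' hy').2 hy'D
        rw [← mem_primeIdealOf_iff hU hy'] at h6
        refine ⟨hy', h6, ?_⟩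
        rw [← hq3, ← hq5]
        exact Ideal.comap_mono ((specializes_iff hU hy₀ hy').mp h2)
      refine ⟨hpd, ?_, fun hch => ?_, fun hy'x => ?_⟩
      · rw [← hθy₀]
        exact h2.map θ.continuous
      · -- `y'` is generic
        obtain ⟨V', hV', hxV', hU', n', e', L', ρ', hn', hρC', hρX', hLC', hp'⟩ := hch
        have hφ' : (const N.toOver.hom V').FiniteType := finiteType_const N hV'
        have hκ' : (const Y.toOver.hom (θ ⁻¹ᵁ V')).FiniteType := finiteType_const Y hU'
        obtain ⟨hgn', dle', -⟩ := alg_package2 (const N.toOver.hom V') hφ' a ha (pb θ V')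
          (const Y.toOver.hom (θ ⁻¹ᵁ V')) hκ' e' L' ρ' hρC' hρX' hLC' hp'
        have hft' : ((MvPolynomial.C (σ := Fin n')).comp
            (const N.toOver.hom V')).FiniteType := by
          refine RingHom.FiniteType.comp ?_ hφ'
          rw [← MvPolynomial.algebraMap_eq, RingHom.finiteType_algebraMap]
          infer_instance
        have hy'V : y' ∈ θ ⁻¹ᵁ V' := hxV'
        have hy₀V : y₀ ∈ θ ⁻¹ᵁ V' := mem_of_specializes h2 hy'V
        have e1 := dimOf_comap_eq_gdim a θ (theta_hom π hX.w) hV' hU' e' ρ' hρC' hρX' hgn' y' hy'V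
        have e2 := dimOf_comap_eq_gdim a θ (theta_hom π hX.w) hV' hU' e' ρ' hρC' hρX' hgn' y₀ hy₀V
        have e3 := dle' (hU'.primeIdealOf ⟨y', hy'V⟩).asIdeal (hU'.primeIdealOf ⟨y', hy'V⟩).isPrime
        have e4 : (hU'.primeIdealOf ⟨y₀, hy₀V⟩).asIdeal ≤ (hU'.primeIdealOf ⟨y', hy'V⟩).asIdeal :=
          (specializes_iff hU' hy₀V hy'V).mp h2
        have e5 : (hU'.primeIdealOf ⟨y₀, hy₀V⟩).asIdeal.comap ρ' ≠
            (hU'.primeIdealOf ⟨y', hy'V⟩).asIdeal.comap ρ' := by
          intro heq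
          have e6 := congrArg (fun J => J.comap (MvPolynomial.C (σ := Fin n'))) heq
          simp only [Ideal.comap_comap, hρC'] at e6
          rw [comap_pb θ hV' hU' hy₀V, comap_pb θ hV' hU' hy'V] at e6
          have e7 : θ y₀ = θ y' := eq_of_prime_eq hV' hy₀V hy'V e6
          obtain ⟨hy', hb4, hb5⟩ := hover (e7.symm.trans hθy₀)
          have h9 : 𝔭' ≠ (Q y' hy').comap ρ := fun h => hb2 (h ▸ hb4)
          have h10 := dimOf_lt _ hft _ _ hp1 (hQρ y' hy') (lt_of_le_of_ne hb5 h9)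
          rw [hgd y' hy', ← hd00, hg0, ← e1, ← e2, heq] at h10
          exact lt_irrefl _ h10
        have e8 := dimOf_lt _ hft' _ _ (Ideal.comap_isPrime ρ' _) (Ideal.comap_isPrime ρ' _)
          (lt_of_le_of_ne (Ideal.comap_mono e4) e5)
        rw [e1, e2] at e8
        rw [e1, ← pointDim_eq_dimOf Y hU' hy'V] at e3
        change Y.pointDim y' + Fintype.card I = gdim a θ y'
        omega
      · obtain ⟨hy', h6, h8⟩ := hover hy'x
        have h9 : 𝔭' ≠ (Q y' hy').comap ρ := fun h => hb2 (h ▸ h6)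
        have h10 := dimOf_lt _ hft _ _ hp1 (hQρ y' hy') (lt_of_le_of_ne h8 h9)
        have h11 := hdle y' hy'
        have h12 : IsGen a θ y' := by
          change Y.pointDim y' + Fintype.card I = gdim a θ y'
          rw [← hgd y' hy']
          omega
        have h13 : dimOf ((MvPolynomial.C (σ := Fin n)).comp (const N.toOver.hom V))
            ((Q y' hy').comap ρ) + 1 =
            dimOf ((MvPolynomial.C (σ := Fin n)).comp (const N.toOver.hom V)) 𝔭' := by
          omega
        rcases hb3 ((Q y' hy').comap ρ) (hQρ y' hy') h8 h6 h13 with h7 | h7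
        · exact Or.inl (hconj y y' hy hy' hgy h12 h7.symm)
        · right
          rw [dif_pos hy']
          exact h7

end

end Pool.Agent.Helper47.Spread
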