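import Mathlib
import Pool.Agent.Helper47.Spread2.Local2
import Pool.Agent.Helper47.Spread2.G7
import Pool.Agent.Helper47.Spread2.G8

/-!
# Points are generic over an enlarged family of parameters
-/

universe u v w

open CategoryTheory AlgebraicGeometry Limits

namespace Pool.Agent.Helper47.Spread

open Pool.Agent.Helper10 Pool.Agent.Helper10.SmProjVar Pool.Agent.Helper47.Chow
open Pool.Agent.Helper47.Desc

noncomputable section

variable {F K : Type u} [Field F] [Field K] [Algebra F K] {M₀ : SmProjVar F} {r : ℕ} {I : Type}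
  [Fintype I]

/-- Over `V` the morphism `X × X ⟶ M₀ × M₀` is a vector bundle with generic coefficients. -/
def ChartOn (a : I → K) {X : SmProjVar K} (π : X.toOver.left ⟶ M₀.toOver.left)
    (w : π ≫ M₀.toOver.hom = X.toOver.hom ≫ specMap F K) (r : ℕ)
    (V : (M₀.prod M₀).toOver.left.Opens) : Prop :=
  ∃ (n : ℕ) (e : Fin n → I)
    (L : MvPolynomial I F →+* MvPolynomial (Fin n) Γ((M₀.prod M₀).toOver.left, V))
    (ρ : MvPolynomial (Fin n) Γ((M₀.prod M₀).toOver.left, V) →+*
      Γ((X.prod X).toOver.left, theta π w ⁻¹ᵁ V)),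
    n + 2 * r = Fintype.card I ∧ ρ.comp MvPolynomial.C = pb (theta π w) V ∧
    (∀ i, ρ (MvPolynomial.X i) = const (X.prod X).toOver.hom (theta π w ⁻¹ᵁ V) (a (e i))) ∧
    L.comp MvPolynomial.C = MvPolynomial.C.comp (const (M₀.prod M₀).toOver.hom V) ∧
    IsPushout (CommRingCat.ofHom (MvPolynomial.aeval a : MvPolynomial I F →ₐ[F] K).toRingHom)
      (CommRingCat.ofHom L)
      (CommRingCat.ofHom (const (X.prod X).toOver.hom (theta π w ⁻¹ᵁ V)))
      (CommRingCat.ofHom ρ)

/-- The minor of the matrix of coordinates with the columns `J`. -/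
def minorAt (S : Sections M₀ r I) (i i' : S.ι) (J : Fin r ⊕ Fin r → I) :
    Γ((M₀.prod M₀).toOver.left, box S i i') :=
  Matrix.det (Matrix.of fun c c' => coef S i i' c (J c'))

/-- Some minor does not vanish at `x`. -/
def SepAt (S : Sections M₀ r I) (x : (M₀.prod M₀).toOver.left) : Prop :=
  ∃ (i i' : S.ι) (J : Fin r ⊕ Fin r → I),
    x ∈ (M₀.prod M₀).toOver.left.basicOpen (minorAt S i i' J)

theorem chartOn_basicOpen {S : Sections M₀ r I} {a : I → K} {X : SmProjVar K}
    {π : X.toOver.left ⟶ M₀.toOver.left} [IsAffineHom π] (hX : IsZeroLocus S a X π)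
    (i i' : S.ι) (J : Fin r ⊕ Fin r → I) (x : (M₀.prod M₀).toOver.left)
    (hJ : x ∈ (M₀.prod M₀).toOver.left.basicOpen (minorAt S i i' J)) :
    ChartOn a π hX.w r ((M₀.prod M₀).toOver.left.basicOpen (minorAt S i i' J)) := by
  let N := (M₀.prod M₀).toOver.left
  let det : Γ(N, box S i i') := Matrix.det (Matrix.of fun c c' => coef S i i' c (J c'))
  let V : N.Opens := N.basicOpen det
  have hVb : V ≤ box S i i' := N.basicOpen_le det
  have hV : IsAffineOpen V := (isAffineOpen_box S i i').basicOpen det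
  have hθ : IsAffineHom (theta π hX.w) := isAffineHom_theta π hX.w
  have hU : IsAffineOpen (theta π hX.w ⁻¹ᵁ V) := hV.preimage (theta π hX.w)
  have hnt : Nontrivial Γ(N, V) := by
    have : Nonempty V := ⟨⟨x, hJ⟩⟩
    exact Scheme.component_nontrivial N V
  have hunit : IsUnit (Matrix.det (Matrix.of fun c c' : Fin r ⊕ Fin r =>
      (fun c l => res hVb (coef S i i' c l)) c (J c'))) := by
    have h1 : IsUnit (res hVb det) := RingedSpace.isUnit_res_basicOpen _ det
    have h2 : res hVb det = Matrix.det (Matrix.of fun c c' : Fin r ⊕ Fin r =>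
      (fun c l => res hVb (coef S i i' c l)) c (J c')) := by
      rw [RingHom.map_det]
      rfl
    rwa [← h2]
  obtain ⟨n, e, L, ρ, h1, h2, h3, h4, h5⟩ := exists_isPushout
    (const (M₀.prod M₀).toOver.hom V) (pb (theta π hX.w) V)
    (const (X.prod X).toOver.hom (theta π hX.w ⁻¹ᵁ V))
    (const_comp_theta π hX.w V) a (fun c l => res hVb (coef S i i' c l))
    (fun c => chart_zero hX i i' V hVb c)
    (fun B _ α' κ' h h' => chart_lift hX i i' V hVb hV hU B α' κ' h h')
    (fun B _ γ γ' h h' => chart_unique hX V hV hU B γ γ' h h') J hunit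
  refine ⟨n, e, L, ρ, ?_, h2, h3, h4, h5⟩
  rw [← h1, Fintype.card_sum, Fintype.card_fin]
  ring

lemma isAffineOpen_basicOpen (S : Sections M₀ r I) (i i' : S.ι) (J : Fin r ⊕ Fin r → I) :
    IsAffineOpen ((M₀.prod M₀).toOver.left.basicOpen (minorAt S i i' J)) :=
  (isAffineOpen_box S i i').basicOpen _

theorem hasChart_of_sepAt {S : Sections M₀ r I} {a : I → K} {X : SmProjVar K}
    {π : X.toOver.left ⟶ M₀.toOver.left} [IsAffineHom π] (hX : IsZeroLocus S a X π)
    (x : (M₀.prod M₀).toOver.left) (hx : SepAt S x) : HasChart a π hX.w r x := by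
  obtain ⟨i, i', J, hJ⟩ := hx
  have hV := isAffineOpen_basicOpen S i i' J
  have hθ : IsAffineHom (theta π hX.w) := isAffineHom_theta π hX.w
  obtain ⟨n, e, L, ρ, h⟩ := chartOn_basicOpen hX i i' J x hJ
  exact ⟨_, hV, hJ, hV.preimage (theta π hX.w), n, e, L, ρ, h⟩

lemma minorAt_extend (S : Sections M₀ r I) (m : ℕ) (i i' : S.ι) (J : Fin r ⊕ Fin r → I) :
    minorAt (S.extend m) i i' (fun c => Sum.inl (J c)) = minorAt S i i' J := by
  have hc : ∀ c c', coef (S.extend m) i i' c (Sum.inl (J c')) = coef S i i' c (J c') := by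
    intro c c'
    rcases c with q | q <;> rfl
  change Matrix.det (Matrix.of fun c c' => coef (S.extend m) i i' c (Sum.inl (J c'))) =
      Matrix.det (Matrix.of fun c c' => coef S i i' c (J c'))
  congr 1
  funext c c'
  exact hc c c'

lemma sepAt_extend {S : Sections M₀ r I} {x : (M₀.prod M₀).toOver.left} (h : SepAt S x) (m : ℕ) :
    SepAt (S.extend m) x := by
  obtain ⟨i, i', J, hJ⟩ := h
  refine ⟨i, i', fun c => Sum.inl (J c), ?_⟩
  exact (minorAt_extend S m i i' J).symm ▸ hJ

theorem chartOn_extend [DecidableEq I] {S : Sections M₀ r I} {a : I → K} {X : SmProjVar K}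
    {π : X.toOver.left ⟶ M₀.toOver.left} [IsAffineHom π] (hX : IsZeroLocus S a X π)
    (i i' : S.ι) (J : Fin r ⊕ Fin r → I) (x : (M₀.prod M₀).toOver.left)
    (hJ : x ∈ (M₀.prod M₀).toOver.left.basicOpen (minorAt S i i' J)) (m : ℕ) (b : I ⊕ Fin m → K)
    (hb : ∀ l, b (Sum.inl l) = a l) :
    ChartOn b π hX.w r ((M₀.prod M₀).toOver.left.basicOpen (minorAt S i i' J)) := by
  have h1 := isZeroLocus_extend hX m b hb
  have h2 : x ∈ (M₀.prod M₀).toOver.left.basicOpen
      (minorAt (S.extend m) i i' (fun c => Sum.inl (J c))) :=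
    (minorAt_extend S m i i' J).symm ▸ hJ
  have h3 := chartOn_basicOpen h1 i i' (fun c => Sum.inl (J c)) x h2
  exact (minorAt_extend S m i i' J) ▸ h3

/-- Every point with a chart is generic over a suitable enlarged family. -/
theorem exists_finset_isGen [IsAlgClosed K] {S : Sections M₀ r I} {a : I → K}
    {X : SmProjVar K} {π : X.toOver.left ⟶ M₀.toOver.left} [IsAffineHom π]
    (hX : IsZeroLocus S a X π) (y : (X.prod X).toOver.left) (hy : SepAt S (theta π hX.w y)) :
    ∃ s : Finset K, ∀ (m : ℕ) (b : I ⊕ Fin m → K), AlgebraicIndependent F b →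
      (∀ l, b (Sum.inl l) = a l) →
      (∀ x ∈ s, IsAlgebraic (IntermediateField.adjoin F (Set.range b)) x) →
        IsGen b (theta π hX.w) y := by
  classical
  obtain ⟨i, i', J, hJ⟩ := hy
  let V : (M₀.prod M₀).toOver.left.Opens :=
    (M₀.prod M₀).toOver.left.basicOpen (minorAt S i i' J)
  have hV : IsAffineOpen V := isAffineOpen_basicOpen S i i' J
  have hθ : IsAffineHom (theta π hX.w) := isAffineHom_theta π hX.w
  have hU : IsAffineOpen (theta π hX.w ⁻¹ᵁ V) := hV.preimage (theta π hX.w)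
  have hyU : y ∈ theta π hX.w ⁻¹ᵁ V := hJ
  let Y := X.prod X
  let N := M₀.prod M₀
  let θ := theta π hX.w
  let α := pb θ V
  let κ := const Y.toOver.hom (θ ⁻¹ᵁ V)
  have hφ : (const N.toOver.hom V).FiniteType := finiteType_const N hV
  have hκ : κ.FiniteType := finiteType_const Y hU
  have hN : IsNoetherianRing Γ(Y.toOver.left, θ ⁻¹ᵁ V) := by
    letI : Algebra K Γ(Y.toOver.left, θ ⁻¹ᵁ V) := κ.toAlgebra
    have hft : Algebra.FiniteType K Γ(Y.toOver.left, θ ⁻¹ᵁ V) := hκ
    exact Algebra.FiniteType.isNoetherianRing K _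
  have hF : α.comp (const N.toOver.hom V) = κ.comp (algebraMap F K) := const_comp_theta π hX.w V
  have hgen : Subring.closure (Set.range α ∪ Set.range κ) = ⊤ := by
    obtain ⟨n, e, L, ρ, -, hρC, hρX, hLC, hp⟩ := chartOn_basicOpen hX i i' J _ hJ
    have h1 := closure_of_isPushout _ _ _ _ hp
    rw [eq_top_iff, ← h1, Subring.closure_le]
    rintro z (⟨p, rfl⟩ | hz)
    · induction p using MvPolynomial.induction_on with
      | C c =>
        have e1 : ρ (MvPolynomial.C c) = α c := congrArg (fun f : _ →+* _ => f c) hρC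
        rw [SetLike.mem_coe, e1]
        exact Subring.subset_closure (Or.inl ⟨c, rfl⟩)
      | add p q hp' hq' =>
        rw [SetLike.mem_coe] at hp' hq' ⊢
        rw [map_add]
        exact add_mem hp' hq'
      | mul_X p l hp' =>
        rw [SetLike.mem_coe] at hp' ⊢
        rw [map_mul, hρX]
        exact mul_mem hp' (Subring.subset_closure (Or.inr ⟨_, rfl⟩))
    · exact Subring.subset_closure (Or.inr hz)
  obtain ⟨s, hs⟩ := exists_finset (const N.toOver.hom V) α κ hF hgen
    (hU.primeIdealOf ⟨y, hyU⟩).asIdeal (hU.primeIdealOf ⟨y, hyU⟩).isPrime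
  refine ⟨s, fun m b hb hba hsb => ?_⟩
  obtain ⟨n, e, L, ρ, -, hρC, hρX, hLC, hp⟩ := chartOn_extend hX i i' J _ hJ m b hba
  obtain ⟨hgn, dle, gd, -⟩ := alg_package2 (const N.toOver.hom V) hφ b hb α κ hκ e L ρ hρC hρX
    hLC hp
  have hQ : (hU.primeIdealOf ⟨y, hyU⟩).asIdeal.IsPrime := (hU.primeIdealOf ⟨y, hyU⟩).isPrime
  obtain ⟨𝔔', hq1, hq2, hq3, hq4⟩ := gd _ _ (Ideal.comap_isPrime ρ _) hQ le_rfl
  have hfac : MvPolynomial.eval₂Hom α (fun l => κ (b l)) =
      ρ.comp (MvPolynomial.eval₂Hom MvPolynomial.C fun l => L (MvPolynomial.X l)) := by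
    apply MvPolynomial.ringHom_ext
    · intro c
      have e1 : ρ (MvPolynomial.C c) = α c := congrArg (fun f : _ →+* _ => f c) hρC
      rw [RingHom.comp_apply, MvPolynomial.eval₂Hom_C, MvPolynomial.eval₂Hom_C, e1]
    · intro l
      have hsq : ρ.comp L = κ.comp (MvPolynomial.aeval b : MvPolynomial _ F →ₐ[F] K).toRingHom :=
        (congrArg CommRingCat.Hom.hom hp.w).symm
      have h1 := congrArg (fun f : _ →+* _ => f (MvPolynomial.X l)) hsq
      change ρ (L (MvPolynomial.X l)) = κ (MvPolynomial.aeval b (MvPolynomial.X l)) at h1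
      rw [RingHom.comp_apply, MvPolynomial.eval₂Hom_X', MvPolynomial.eval₂Hom_X', h1,
        MvPolynomial.aeval_X]
  have hq5 : 𝔔' = (hU.primeIdealOf ⟨y, hyU⟩).asIdeal := by
    refine hs _ b hsb 𝔔' hq1 hq2 ?_
    rw [hfac, ← Ideal.comap_comap, ← Ideal.comap_comap, hq3]
  change Y.pointDim y + Fintype.card (I ⊕ Fin m) = gdim b θ y
  rw [← dimOf_comap_eq_gdim b θ (theta_hom π hX.w) hV hU e ρ hρC hρX hgn y hyU, ← hq4, hq5,
    pointDim_eq_dimOf Y hU hyU]

end

end Pool.Agent.Helper47.Spread
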