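import Mathlib
import Pool.Agent.Helper47.Desc.Nil

/-!
# Elements with finite orbits
-/

universe u v w

open CategoryTheory AlgebraicGeometry Limits

namespace Pool.Agent.Helper47.Spread

open Pool.Agent.Helper10 Pool.Agent.Helper10.SmProjVar Pool.Agent.Helper47.Chow
open Pool.Agent.Helper47.Desc

noncomputable section

/-- the stabilizer of `r` -/
private def stab {G A : Type*} [Group G] [Ring A] (ρ : G →* (A ≃+* A)) (r : A) : Subgroup G where
  carrier := {g | ρ g r = r}
  one_mem' := by
    show ρ 1 r = r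
    rw [map_one]
    rfl
  mul_mem' := by
    intro g h hg hh
    show ρ (g * h) r = r
    have e : ρ (g * h) r = ρ g (ρ h r) := by
      rw [map_mul]
      rfl
    rw [e]
    have h1 : ρ h r = r := hh
    have h2 : ρ g r = r := hg
    rw [h1, h2]
  inv_mem' := by
    intro g hg
    show ρ g⁻¹ r = r
    have h2 : ρ g r = r := hg
    have e : ρ g⁻¹ (ρ g r) = r := by
      have e1 : ρ g⁻¹ (ρ g r) = (ρ g⁻¹ * ρ g) r := rfl
      rw [e1, ← map_mul, inv_mul_cancel, map_one]
      rfl
    rw [h2] at e
    exact e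

private theorem stab_finiteIndex {G A : Type*} [Group G] [Ring A] (ρ : G →* (A ≃+* A)) (r : A)
    (hfin : (Set.range fun g => ρ g r).Finite) : (stab ρ r).FiniteIndex := by
  have hmul : ∀ g h x, ρ (g * h) x = ρ g (ρ h x) := by
    intro g h x
    rw [map_mul]
    rfl
  have hinv : ∀ g x, ρ g⁻¹ (ρ g x) = x := by
    intro g x
    rw [← hmul, inv_mul_cancel, map_one]
    rfl
  have hwd : ∀ a b : G, (QuotientGroup.leftRel (stab ρ r)) a b → ρ a r = ρ b r := by
    intro a b hab
    rw [QuotientGroup.leftRel_apply] at hab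
    have h1 : ρ (a⁻¹ * b) r = r := hab
    have h2 : ρ a (ρ (a⁻¹ * b) r) = ρ b r := by
      rw [← hmul, mul_inv_cancel_left]
    rw [h1] at h2
    exact h2
  let f : G ⧸ stab ρ r → Set.range (fun g => ρ g r) := fun q =>
    Quotient.liftOn' q (fun g => ⟨ρ g r, g, rfl⟩) (by
      intro a b hab
      exact Subtype.ext (hwd a b hab))
  have hf : Function.Injective f := by
    intro p q
    induction p using QuotientGroup.induction_on with
    | H a =>
      induction q using QuotientGroup.induction_on with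
      | H b =>
        intro h
        have h1 : ρ a r = ρ b r := congrArg Subtype.val h
        rw [QuotientGroup.eq]
        show ρ (a⁻¹ * b) r = r
        rw [hmul, ← h1, hinv]
  have hfs : Finite (Set.range fun g => ρ g r) := hfin.to_subtype
  have hq : Finite (G ⧸ stab ρ r) := Finite.of_injective f hf
  exact Subgroup.finiteIndex_of_finite_quotient

/-- the subalgebra of the elements fixed by `K` -/
private def fixedBy {G A : Type*} [Group G] [Ring A] [Algebra ℚ A] (ρ : G →* (A ≃+* A))
    (K : Subgroup G) : Subalgebra ℚ A where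
  carrier := {x | ∀ g ∈ K, ρ g x = x}
  mul_mem' := by
    intro x y hx hy g hg
    rw [map_mul, hx g hg, hy g hg]
  add_mem' := by
    intro x y hx hy g hg
    rw [map_add, hx g hg, hy g hg]
  algebraMap_mem' := by
    intro q g _
    exact RingHom.map_rat_algebraMap (ρ g : A →+* A) q

private theorem fixedBy_map {G A : Type*} [Group G] [Ring A] [Algebra ℚ A] (ρ : G →* (A ≃+* A))
    (K : Subgroup G) [hK : K.Normal] (g : G) {x : A} (hx : x ∈ fixedBy ρ K) :
    ρ g x ∈ fixedBy ρ K := by
  have hmul : ∀ g h x, ρ (g * h) x = ρ g (ρ h x) := by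
    intro g h x
    rw [map_mul]
    rfl
  intro k hk
  have h1 : g⁻¹ * k * g ∈ K := by
    have h2 := hK.conj_mem k hk g⁻¹
    rwa [inv_inv] at h2
  have h3 : ρ (g⁻¹ * k * g) x = x := hx _ h1
  calc ρ k (ρ g x) = ρ (k * g) x := (hmul _ _ _).symm
    _ = ρ (g * (g⁻¹ * k * g)) x := by
      congr 2
      group
    _ = ρ g (ρ (g⁻¹ * k * g) x) := hmul _ _ _
    _ = ρ g x := by rw [h3]

/-- the action on the subalgebra of the elements fixed by `K` -/
private def restr {G A : Type*} [Group G] [Ring A] [Algebra ℚ A] (ρ : G →* (A ≃+* A))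
    (K : Subgroup G) [hK : K.Normal] : G →* (fixedBy ρ K ≃+* fixedBy ρ K) where
  toFun g :=
    { toFun := fun x => ⟨ρ g x, fixedBy_map ρ K g x.2⟩
      invFun := fun x => ⟨ρ g⁻¹ x, fixedBy_map ρ K g⁻¹ x.2⟩
      left_inv := by
        intro x
        refine Subtype.ext ?_
        show (ρ g⁻¹ * ρ g) (x : A) = x
        rw [← map_mul, inv_mul_cancel, map_one]
        rfl
      right_inv := by
        intro x
        refine Subtype.ext ?_
        show (ρ g * ρ g⁻¹) (x : A) = x
        rw [← map_mul, mul_inv_cancel, map_one]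
        rfl
      map_mul' := by
        intro x y
        refine Subtype.ext ?_
        exact map_mul (ρ g) (x : A) (y : A)
      map_add' := by
        intro x y
        refine Subtype.ext ?_
        exact map_add (ρ g) (x : A) (y : A) }
  map_one' := by
    refine RingEquiv.ext fun x => Subtype.ext ?_
    show ρ 1 (x : A) = x
    rw [map_one]
    rfl
  map_mul' := by
    intro g h
    refine RingEquiv.ext fun x => Subtype.ext ?_
    show ρ (g * h) (x : A) = ρ g (ρ h (x : A))
    rw [map_mul]
    rfl

private theorem bergman_isaacs_elt {G A : Type*} [Group G] [Ring A] [Algebra ℚ A]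
    (ρ : G →* (A ≃+* A)) (R : Ideal A) (hR : StableIdeal ρ R) (N : ℕ)
    (hN : NilInvariants ρ R N) (r : A) (hr : r ∈ R)
    (hfin : (Set.range fun g => ρ g r).Finite) : IsNilpotent r := by
  have hH : (stab ρ r).FiniteIndex := stab_finiteIndex ρ r hfin
  let K : Subgroup G := (stab ρ r).normalCore
  have hKn : K.Normal := Subgroup.normalCore_normal _
  have hKf : K.FiniteIndex := Subgroup.finiteIndex_normalCore _
  have hKr : ∀ g ∈ K, ρ g r = r := by
    intro g hg
    exact Subgroup.normalCore_le _ hg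
  let B : Subalgebra ℚ A := fixedBy ρ K
  let σ : G →* (B ≃+* B) := restr ρ K
  have hσ : ∀ g (x : B), ((σ g x : B) : A) = ρ g (x : A) := fun _ _ => rfl
  have hker : K ≤ σ.ker := by
    intro g hg
    rw [MonoidHom.mem_ker]
    refine RingEquiv.ext fun x => Subtype.ext ?_
    rw [hσ]
    exact x.2 g hg
  have hkf : σ.ker.FiniteIndex := Subgroup.finiteIndex_of_le hker
  have hfq : Finite (G ⧸ σ.ker) := Subgroup.finite_quotient_of_finiteIndex
  have hfr : Finite σ.range :=
    Finite.of_equiv _ (QuotientGroup.quotientKerEquivRange σ).toEquiv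
  let S : Ideal B := Ideal.comap B.toSubring.subtype R
  have hS : ∀ x : B, x ∈ S ↔ (x : A) ∈ R := fun _ => Iff.rfl
  have hst : StableIdeal σ.range.subtype S := by
    refine ⟨?_, ?_⟩
    · intro x hx b
      exact hR.1 _ hx _
    · rintro ⟨_, g, rfl⟩ x hx
      exact hR.2 g _ hx
  have hnil : NilInvariants σ.range.subtype S N := by
    intro l hl hx
    refine Subtype.ext ?_
    have h1 : ((l.prod : B) : A) = (l.map (fun x : B => (x : A))).prod := by
      exact map_list_prod B.toSubring.subtype l
    rw [h1]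
    refine hN _ ?_ ?_
    · rw [List.length_map, hl]
    · intro y hy
      rw [List.mem_map] at hy
      obtain ⟨x, hxl, rfl⟩ := hy
      refine ⟨(hx x hxl).1, ?_⟩
      intro g
      have h2 := (hx x hxl).2 ⟨σ g, g, rfl⟩
      exact congrArg Subtype.val h2
  have hrB : r ∈ B := hKr
  have hn := bergman_isaacs_finite σ.range.subtype S hst N hnil ⟨r, hrB⟩ hr
  obtain ⟨n, hn⟩ := hn
  exact ⟨n, congrArg Subtype.val hn⟩

variable {k : Type u} [Field k] {K : Type v} [Field K] [CharZero K]
  {W : WeilCohomology.{u, v, w} k K} {C : ChowTheory W} {X : SmProjVar k}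

/-- If the invariant homologically trivial correspondences form a nilpotent ring, then the
homologically trivial correspondences with a finite orbit are nilpotent. -/
theorem nil_of_finite_orbit (hC : IsEquivariant C) (Γ : Subgroup (SemiAut X))
    (h : NilInv C X Γ) (γ : CH (X.prod X)) (hγ : γ ∈ CHi (X.prod X) X.dim)
    (h0 : C.ops.cl _ γ = 0)
    (hfin : (Set.range fun g : Γ => (Desc.sq g.1).chow γ).Finite) : ∃ n, C.pow γ n = 0 := by
  obtain ⟨N, hN⟩ := h
  let ρ : Γ →* (Corr C X ≃+* Corr C X) := (corrRho hC X).comp Γ.subtype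
  have hρ : ∀ (g : Γ) (r : Corr C X), (ρ g r).val = (Desc.sq g.1).chow r.val := fun g r => rfl
  have key := bergman_isaacs_elt ρ (homIdeal C X)
    ⟨fun x hx b => (homIdeal C X).mul_mem_right b hx, fun g x hx => ?_⟩ N ?_ ⟨γ, hγ⟩ h0 ?_
  · obtain ⟨n, hn⟩ := key
    exact ⟨n, (ChowTheory.pow_val (⟨γ, hγ⟩ : Corr C X) n).symm.trans (congrArg Corr.val hn)⟩
  · exact hC.cl _ _ _ hx
  · intro l hl hx
    apply Corr.ext
    rw [list_prod_val]
    refine hN _ (by rw [List.length_map, hl]) fun γ hγ => ?_
    obtain ⟨r, hr, rfl⟩ := List.mem_map.1 hγ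
    refine ⟨r.2, (hx r hr).1, fun g hg => ?_⟩
    exact congrArg Corr.val ((hx r hr).2 ⟨g, hg⟩)
  · refine Set.Finite.of_finite_image (f := Corr.val) (hfin.subset ?_) fun a _ b _ => Corr.ext
    rintro _ ⟨_, ⟨g, rfl⟩, rfl⟩
    exact ⟨g, rfl⟩

end

end Pool.Agent.Helper47.Spread
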