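import Mathlib
import Pool.Agent.Helper47.Spread.Main
import Pool.Agent.Helper47.Spread2.Chart2
import Pool.Agent.Helper47.Spread2.G6
import Pool.Agent.Helper47.Spread2.G9

/-!
# Invariant correspondences over an algebraically closed field
-/

universe u v w

open CategoryTheory AlgebraicGeometry Limits

namespace Pool.Agent.Helper47.Spread

open Pool.Agent.Helper10 Pool.Agent.Helper10.SmProjVar Pool.Agent.Helper47.Chow
open Pool.Agent.Helper47.Desc

noncomputable section

variable {F K : Type u} [Field F] [Field K] [Algebra F K] {M₀ : SmProjVar F} {r : ℕ} {I : Type}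
  [Fintype I] {L : Type v} [Field L] [CharZero L] {W : WeilCohomology.{u, v, w} K L}

/-- The induction over the points of `X × X`: `B` is the set of the points of `M₀ × M₀` without
a chart. -/
theorem mem_of_invariant [IsAlgClosed K] {r' : ℕ} {S : Sections M₀ r' I} {a : I → K}
    (ha : AlgebraicIndependent F a) {X : SmProjVar K} {π : X.toOver.left ⟶ M₀.toOver.left}
    (hX : IsZeroLocus S a X π) (B : Set (M₀.prod M₀).toOver.left)
    (hB : ∀ x, x ∉ B → HasChart a π hX.w r x)
    (𝒢 : Submodule ℚ (CH (X.prod X)))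
    (h𝒢 : ∀ g ∈ galGroup (F := F) a π, ∀ γ ∈ 𝒢, (Desc.sq g).chow γ ∈ 𝒢) (e : ℕ)
    (h1 : ∀ y : (X.prod X).toOver.left, (X.prod X).pointDim y = e → theta π hX.w y ∈ B →
      ptCls (X.prod X) y ∈ 𝒢 ∧ ∀ g ∈ galGroup (F := F) a π, (Desc.sq g).sch y = y)
    (h2 : ∀ y : (X.prod X).toOver.left, (X.prod X).pointDim y = e → theta π hX.w y ∉ B →
      (X.prod X).pointDim y + 2 * r = (M₀.prod M₀).pointDim (theta π hX.w y) →
      (Set.range fun g : galGroup (F := F) a π => (Desc.sq g.1).sch y).Finite →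
      (∀ y' : (X.prod X).toOver.left, theta π hX.w y' = theta π hX.w y →
        ((X.prod X).pointDim y' = e → ∃ g ∈ galGroup (F := F) a π, (Desc.sq g).sch y = y') ∧
          (y' ⤳ y → y' = y)) →
      ∃ D : QCycles (X.prod X), cls (X.prod X) D ∈ 𝒢 ∧ 0 < D.coeff y ∧
        (∀ g ∈ galGroup (F := F) a π, 0 ≤ D.coeff ((Desc.sq g).sch y)) ∧
        ∀ y' : (X.prod X).toOver.left, D.coeff y' ≠ 0 →
          (X.prod X).pointDim y' = e ∧ theta π hX.w y ⤳ theta π hX.w y')
    (z : QCycles (X.prod X))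
    (hz : ∀ y, z.coeff y ≠ 0 → (X.prod X).pointDim y = e ∧
      (theta π hX.w y ∉ B → IsGen a (theta π hX.w) y))
    (hinv : ∀ g ∈ galGroup (F := F) a π, (Desc.sq g).chow (cls (X.prod X) z) =
      cls (X.prod X) z) :
    cls (X.prod X) z ∈ 𝒢 := by
  classical
  let G := galGroup (F := F) a π
  let θ := theta π hX.w
  let Y := X.prod X
  let N := M₀.prod M₀
  have hNn : AlgebraicGeometry.IsNoetherian N.toOver.left := isNoetherian_toOver N
  have hpack := fun x (hx : x ∉ B) => local_package2 ha hX x (hB x hx)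
  let lev : N.toOver.left → Y.toOver.left → ℕ := fun x =>
    if hx : x ∉ B then Classical.choose (hpack x hx).2.2 else fun _ => 0
  have hlev : ∀ x (hx : x ∉ B), lev x = Classical.choose (hpack x hx).2.2 :=
    fun x hx => dif_pos hx
  have hwf := wellFounded_rel (fun y : Y.toOver.left => θ y) lev
  refine orbit_induction_on (sqPi G)
    (fun y => Y.pointDim y = e ∧ (θ y ∉ B → IsGen a θ y)) ?_ 𝒢
    (fun g γ hγ => h𝒢 g.1 g.2 γ hγ) _ hwf ?_ z hz (fun g => hinv g.1 g.2)
  · rintro y ⟨hy, hg⟩
    by_cases hx : θ y ∈ B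
    · obtain ⟨-, h4⟩ := h1 y hy hx
      refine (Set.finite_singleton y).subset ?_
      rintro _ ⟨g, rfl⟩
      exact h4 g.1 g.2
    · exact (hpack (θ y) hx).2.1 y rfl (hg hx)
  · rintro y ⟨hy, hg⟩
    by_cases hx : θ y ∈ B
    · obtain ⟨h3, h4⟩ := h1 y hy hx
      refine ⟨QCycles.point y, h3, ?_, fun g => ?_, fun y' hy' => ?_⟩
      · rw [point_coeff_self]
        exact one_pos
      · rcases point_coeff y ((sqPi G g).pt y) with h | h
        · rw [h]
        · rw [h, point_coeff_self]
          exact zero_le_one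
      · rcases point_coeff y y' with h | h
        · exact absurd h hy'
        · rw [h]
          refine ⟨⟨hy, hg⟩, Or.inl ⟨1, ?_⟩⟩
          rw [map_one]
          exact SemiAut.pt_one y
    · have hgy := hg hx
      obtain ⟨-, hfin, -⟩ := hpack (θ y) hx
      have hch := Classical.choose_spec (hpack (θ y) hx).2.2
      rw [← hlev (θ y) hx] at hch
      obtain ⟨h0, h3⟩ := hch y rfl hgy
      by_cases hl : lev (θ y) y = 0
      · obtain ⟨h4, h5⟩ := h0 hl
        have h5' : ∀ y' : Y.toOver.left, θ y' = θ y →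
            (Y.pointDim y' = e → ∃ g ∈ G, (Desc.sq g).sch y = y') ∧ (y' ⤳ y → y' = y) := by
          intro y' hy'
          obtain ⟨h6, h7⟩ := h5 y' hy'
          exact ⟨fun h => (h6 (h.trans hy.symm)).2, h7⟩
        obtain ⟨D, hD1, hD2, hD3, hD4⟩ := h2 y hy hx h4 (hfin y rfl hgy) h5'
        refine ⟨D, hD1, hD2, fun g => hD3 g.1 g.2, fun y' hy' => ?_⟩
        obtain ⟨h6, h7⟩ := hD4 y' hy'
        by_cases h8 : θ y' = θ y
        · obtain ⟨h9, h10⟩ := (h5 y' h8).1 (h6.trans hy.symm)
          obtain ⟨g, hgG, h11⟩ := h10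
          exact ⟨⟨h6, fun _ => h9⟩, Or.inl ⟨⟨g, hgG⟩, h11⟩⟩
        · refine ⟨⟨h6, fun hx' => ?_⟩, Or.inr (Or.inl ⟨h7, h8⟩)⟩
          exfalso
          have h9 := (hpack (θ y') hx').1 y' rfl
          have h10 : N.pointDim (θ y') < N.pointDim (θ y) := pointDim_lt N h7 h8
          change Y.pointDim y + 2 * r = N.pointDim (θ y) at h4
          change Y.pointDim y' + 2 * r ≤ N.pointDim (θ y') at h9
          change Y.pointDim y' = e at h6
          omega
      · obtain ⟨D, hD1, hD2, hD3, hD4⟩ := h3 hl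
        refine ⟨D, ?_, hD2, fun g => hD3 g.1 g.2, fun y' hy' => ?_⟩
        · have : cls (X.prod X) D = 0 :=
            (Submodule.Quotient.mk_eq_zero _).mpr (Submodule.subset_span hD1)
          rw [this]
          exact Submodule.zero_mem _
        · obtain ⟨h4, h5, h6, h7⟩ := hD4 y' hy'
          refine ⟨⟨h4.trans hy, fun hx' => h6 (hB _ hx')⟩, ?_⟩
          by_cases h8 : θ y' = θ y
          · rcases h7 h8 with ⟨g, hgG, h9⟩ | h9
            · exact Or.inl ⟨⟨g, hgG⟩, h9⟩
            · exact Or.inr (Or.inr ⟨h8, h9⟩)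
          · exact Or.inr (Or.inl ⟨h5, h8⟩)

/-- The classes of cycles whose points have finite orbits have finite orbits. -/
lemma finite_orbit_cls {Y : SmProjVar K} {G : Type*} [Group G] (ρ : G →* SemiAut Y)
    (z : QCycles Y) (hz : ∀ y, z.coeff y ≠ 0 → (Set.range fun g => (ρ g).pt y).Finite) :
    (Set.range fun g => (ρ g).chow (cls Y z)).Finite := by
  classical
  let z' : Y.Pt →₀ ℚ := z
  let c : (Y.Pt →₀ ℚ) →ₗ[ℚ] CH Y := (ratZero Y).mkQ
  have h1 : ∀ g, (ρ g).chow (cls Y z) =
      ∑ y : z'.support, z' y.1 • ptCls Y ((ρ g).pt y.1) := by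
    intro g
    have h2 : cls Y z = ∑ y : z'.support, z' y.1 • ptCls Y y.1 := by
      rw [Finset.sum_coe_sort z'.support (fun y => z' y • ptCls Y y)]
      have h3 : z' = ∑ y ∈ z'.support, z' y • (Finsupp.single y (1 : ℚ) : Y.Pt →₀ ℚ) := by
        conv_lhs => rw [← Finsupp.sum_single z']
        unfold Finsupp.sum
        refine Finset.sum_congr rfl fun y _ => ?_
        rw [Finsupp.smul_single, smul_eq_mul, mul_one]
      change c z' = _
      conv_lhs => rw [h3]
      rw [map_sum]
      refine Finset.sum_congr rfl fun y _ => ?_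
      rw [map_smul]
      rfl
    rw [h2, map_sum]
    refine Finset.sum_congr rfl fun y _ => ?_
    rw [map_smul]
    congr 1
    change (ρ g).chow (cls Y (QCycles.point y.1)) = cls Y (QCycles.point ((ρ g).pt y.1))
    rw [SemiAut.chow_cls]
    congr 1
    exact Finsupp.mapDomain_single
  have h4 : (Set.range fun g => fun y : z'.support => (ρ g).pt y.1).Finite := by
    have h5 : (Set.pi Set.univ fun y : z'.support =>
        Set.range fun g => (ρ g).pt y.1).Finite :=
      Set.Finite.pi fun y => hz y.1 (Finsupp.mem_support_iff.mp y.2)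
    refine h5.subset ?_
    rintro _ ⟨g, rfl⟩ y _
    exact ⟨g, rfl⟩
  have h6 : (Set.range fun g => (ρ g).chow (cls Y z)) =
      (fun f : z'.support → Y.Pt => ∑ y : z'.support, z' y.1 • ptCls Y (f y)) ''
        (Set.range fun g => fun y : z'.support => (ρ g).pt y.1) := by
    rw [← Set.range_comp]
    congr 1
    funext g
    exact h1 g
  rw [h6]
  exact h4.image _

end

end Pool.Agent.Helper47.Spread
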