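import Mathlib
import Pool.Agent.Helper47.Spread.Final
import Pool.Agent.Helper47.Spread2.Main2

/-!
# Zero loci of generic sections over an algebraically closed field
-/

universe u v w

open CategoryTheory AlgebraicGeometry Limits

namespace Pool.Agent.Helper47.Spread

open Pool.Agent.Helper10 Pool.Agent.Helper10.SmProjVar Pool.Agent.Helper47.Chow
open Pool.Agent.Helper47.Desc Pool.Agent.Helper11.Murre

noncomputable section

variable {F K : Type u} [Field F] [Field K] [Algebra F K] {M₀ : SmProjVar F} {r : ℕ} {I : Type}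
  [Fintype I] {L : Type v} [Field L] [CharZero L] {W : WeilCohomology.{u, v, w} K L}

lemma eq_diag_genericPt (W : WeilCohomology.{u, v, w} K L) (X : SmProjVar K)
    (y : (X.prod X).toOver.left) (hy : y ∈ Set.range (diag X).left)
    (hd : (X.prod X).pointDim y = X.dim) : y = (diag X).left X.genericPt := by
  obtain ⟨x, rfl⟩ := hy
  have hx : x = X.genericPt := by
    by_contra hne
    have h1 := pointDim_lt_of_ne_genericPt X x hne
    rw [pointDim_genericPt W X, ← pointDim_diag X x, hd] at h1
    exact lt_irrefl _ h1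
  rw [hx]

/-- Finitely many points with charts are generic over a suitable enlarged family. -/
theorem exists_generic_family [IsAlgClosed K] {S : Sections M₀ r I} {a : I → K}
    (ha : AlgebraicIndependent F a) {X : SmProjVar K} {π : X.toOver.left ⟶ M₀.toOver.left}
    [IsAffineHom π] (hX : IsZeroLocus S a X π) (z : QCycles (X.prod X)) :
    ∃ (m : ℕ) (b : I ⊕ Fin m → K), AlgebraicIndependent F b ∧ (∀ l, b (Sum.inl l) = a l) ∧
      ∀ y, z.coeff y ≠ 0 → SepAt S (theta π hX.w y) → IsGen b (theta π hX.w) y := by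
  classical
  let z' : (X.prod X).Pt →₀ ℚ := z
  let s : (X.prod X).Pt → Finset K := fun y =>
    if h : SepAt S (theta π hX.w y) then Classical.choose (exists_finset_isGen hX y h) else ∅
  obtain ⟨m, b, hb, hba, hs⟩ := exists_extension a ha (z'.support.biUnion s)
  refine ⟨m, b, hb, hba, fun y hy h => ?_⟩
  refine Classical.choose_spec (exists_finset_isGen hX y h) m b hb hba fun x hx => hs x ?_
  refine Finset.mem_biUnion.mpr ⟨y, Finsupp.mem_support_iff.mpr hy, ?_⟩
  rw [show s y = Classical.choose (exists_finset_isGen hX y h) from dif_pos h]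
  exact hx

omit [Fintype I] in
lemma galGroup_extend {X : SmProjVar K} {π : X.toOver.left ⟶ M₀.toOver.left} {a : I → K} {m : ℕ}
    {b : I ⊕ Fin m → K} (hb : ∀ l, b (Sum.inl l) = a l) {g : SemiAut X}
    (hg : g ∈ galGroup (F := F) b π) : g ∈ galGroup (F := F) a π := by
  obtain ⟨h1, h2, h3⟩ := hg
  refine ⟨h1, h2, fun l => ?_⟩
  rw [← hb l]
  exact h3 (Sum.inl l)

/-- Classes of cycles with generic points. -/
theorem mem_good_of_generic [IsAlgClosed K] {S : Sections M₀ r I} (hsep : Separates S)
    {a : I → K} (ha : AlgebraicIndependent F a)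
    {M X : SmProjVar K} (pM : M.toOver.left ⟶ M₀.toOver.left)
    (hM : IsPullback pM M.toOver.hom M₀.toOver.hom (specMap F K)) (j : X.toOver ⟶ M.toOver)
    [IsClosedImmersion j.left] (hX : IsZeroLocus S a X (j.left ≫ pM)) (hdim : M.dim = X.dim + r)
    {C : ChowTheory W} (hC : IsEquivariant C) (hS : HasSupport C) (z : QCycles (X.prod X))
    (hz : ∀ y, z.coeff y ≠ 0 → (X.prod X).pointDim y = X.dim ∧
      (theta (j.left ≫ pM) hX.w y ∉ Set.range (diag M₀).left →
        IsGen a (theta (j.left ≫ pM) hX.w) y))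
    (hinv : ∀ g ∈ galGroup (F := F) a (j.left ≫ pM), (Desc.sq g).chow (cls (X.prod X) z) =
      cls (X.prod X) z) :
    cls (X.prod X) z ∈ good C j := by
  classical
  have hA : IsAffineHom (j.left ≫ pM) := isAffineHom_comp pM hM j
  let π := j.left ≫ pM
  let G := galGroup (F := F) a π
  let θ := theta π hX.w
  let Y := X.prod X
  let N := M₀.prod M₀
  refine mem_of_invariant (r := r) ha hX (Set.range (diag M₀).left)
    (fun x hx => hasChart_of_sepAt hX x (hsep x hx)) (good C j)
    (fun g hg γ hγ => good_stable hC pM hM j a g hg γ hγ) X.dim ?_ ?_ z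
    hz hinv
  · intro y hy hx
    have h1 := mem_range_diag hX y hx
    refine ⟨?_, fun g hg => ?_⟩
    · have h2 := ptCls_mem_span_diag C X y h1 hy
      exact Submodule.span_mono Set.subset_union_left h2
    · have h3 : θ ((Desc.sq g).sch y) = θ y := theta_sq_apply a π hX.w g hg y
      have h4 : (Desc.sq g).sch y ∈ Set.range (diag X).left := by
        refine mem_range_diag hX _ ?_
        change θ ((Desc.sq g).sch y) ∈ _
        rw [h3]
        exact hx
      have h5 : (X.prod X).pointDim ((Desc.sq g).sch y) = X.dim :=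
        (pointDim_pt (Desc.sq g) y).trans hy
      rw [eq_diag_genericPt W X _ h4 h5, ← eq_diag_genericPt W X y h1 hy]
  · intro y hy hx h2 hfin h3
    obtain ⟨t, ht1, ht2, ht3⟩ := exists_generization (theta pM hM.w) (isPullback_prod pM hM)
      ((sqHom j).left y)
    have hst : ∀ y' : Y.toOver.left, theta pM hM.w ((sqHom j).left y') = θ y' :=
      fun y' => sqHom_theta_apply pM hM.w j hX.w y'
    replace ht2 : theta pM hM.w t = θ y := ht2.trans (hst y)
    replace ht3 : (M.prod M).pointDim t = N.pointDim (θ y) :=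
      ht3.trans (congrArg N.pointDim (hst y))
    obtain ⟨D, hD1, hD2, hD3⟩ := hS.pull_support (sqHom j) t
    have hdimM : (M.prod M).dim = M.dim + M.dim := rfl
    have hdimX : (X.prod X).dim = X.dim + X.dim := rfl
    have hpt : (M.prod M).pointDim t = X.dim + 2 * r := by
      rw [ht3]
      change (X.prod X).pointDim y + 2 * r = N.pointDim (θ y) at h2
      rw [← h2, hy]
    have hstar : ∀ y' : Y.toOver.left, t ⤳ (sqHom j).left y' → θ y ⤳ θ y' := by
      intro y' h
      have h5 := h.map (theta pM hM.w).continuous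
      rw [ht2, show theta pM hM.w ((sqHom j).left y') = θ y' from hst y'] at h5
      exact h5
    have hmin : ∀ g ∈ G, ∀ x' : Y.toOver.left, x' ⤳ (Desc.sq g).sch y →
        t ⤳ (sqHom j).left x' → x' = (Desc.sq g).sch y := by
      intro g hg x' hx'1 hx'2
      have h5 : θ ((Desc.sq g).sch y) = θ y := theta_sq_apply a π hX.w g hg y
      have h6 : θ x' = θ y := by
        have h7 := hx'1.map θ.continuous
        rw [h5] at h7
        exact (h7.antisymm (hstar x' hx'2)).eq
      have h8 : (Desc.sq g)⁻¹.sch x' ⤳ y := by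
        have h9 := hx'1.map (Desc.sq g)⁻¹.sch.continuous
        rwa [show (Desc.sq g)⁻¹.sch ((Desc.sq g).sch y) = y from
          SemiAut.pt_inv_pt (Desc.sq g) y] at h9
      have h10 : θ ((Desc.sq g)⁻¹.sch x') = θ y := by
        rw [← h6, sq_inv_eq]
        exact theta_sq_apply a π hX.w g⁻¹ (G.inv_mem hg) x'
      have h12 := (h3 _ h10).2 h8
      rw [← h12]
      exact (SemiAut.pt_pt_inv (Desc.sq g) x').symm
    have hpos : ∀ g ∈ G, t ⤳ (sqHom j).left ((Desc.sq g).sch y) →
        0 < D.coeff ((Desc.sq g).sch y) := by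
      intro g hg ht
      refine hD3 _ ht (hmin g hg) ?_
      have h5 : (X.prod X).pointDim ((Desc.sq g).sch y) = (X.prod X).pointDim y :=
        pointDim_pt (Desc.sq g) y
      rw [h5, hy, hpt]
      omega
    refine ⟨D, ?_, ?_, fun g hg => ?_, fun y' hy' => ?_⟩
    · rw [hD1]
      refine Submodule.subset_span (Or.inr ⟨_, ?_, rfl⟩)
      refine ptCls_mem_CHi' t ?_
      omega
    · have h5 := hpos 1 G.one_mem
      rw [sq_one] at h5
      exact h5 ht1
    · by_cases h5 : D.coeff ((Desc.sq g).sch y) = 0
      · exact h5.ge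
      · exact (hpos g hg (hD2 _ h5).1).le
    · obtain ⟨h5, h6⟩ := hD2 y' hy'
      exact ⟨by omega, hstar y' h5⟩

/-- **Spreading** over an algebraically closed field. -/
theorem mem_good2 [IsAlgClosed K] {S : Sections M₀ r I} (hsep : Separates S)
    {a : I → K} (ha : AlgebraicIndependent F a)
    {M X : SmProjVar K} (pM : M.toOver.left ⟶ M₀.toOver.left)
    (hM : IsPullback pM M.toOver.hom M₀.toOver.hom (specMap F K)) (j : X.toOver ⟶ M.toOver)
    [IsClosedImmersion j.left] (hX : IsZeroLocus S a X (j.left ≫ pM)) (hdim : M.dim = X.dim + r)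
    {C : ChowTheory W} (hC : IsEquivariant C) (hS : HasSupport C) (γ : CH (X.prod X))
    (hγ : γ ∈ CHi (X.prod X) X.dim)
    (hinv : ∀ g ∈ galGroup (F := F) a (j.left ≫ pM), (Desc.sq g).chow γ = γ) :
    γ ∈ good C j := by
  have hA : IsAffineHom (j.left ≫ pM) := isAffineHom_comp pM hM j
  obtain ⟨z, hz, rfl⟩ := hγ
  obtain ⟨m, b, hb, hba, hgen⟩ := exists_generic_family ha hX z
  have hX' := isZeroLocus_extend hX m b hba
  refine mem_good_of_generic (separates_extend hsep m) hb pM hM j hX' hdim hC hS z
    (fun y hy => ⟨?_, fun h => hgen y hy (hsep _ h)⟩)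
    (fun g hg => hinv g (galGroup_extend hba hg))
  have h1 := hz y hy
  have h2 : (X.prod X).dim = X.dim + X.dim := rfl
  omega

/-- **Theorem.** The homologically trivial correspondences on the zero locus of a generic section
over an algebraically closed field are nilpotent. -/
theorem nilHom_zeroLocus2 [IsAlgClosed K] {S : Sections M₀ r I} (hsep : Separates S) {a : I → K}
    (ha : AlgebraicIndependent F a)
    {M X : SmProjVar K} (pM : M.toOver.left ⟶ M₀.toOver.left)
    (hM : IsPullback pM M.toOver.hom M₀.toOver.hom (specMap F K)) (j : X.toOver ⟶ M.toOver)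
    [IsClosedImmersion j.left] (hX : IsZeroLocus S a X (j.left ≫ pM)) (hdim : M.dim = X.dim + r)
    {C : ChowTheory W} (hC : IsEquivariant C) (hS : HasSupport C) (hN : NilRing C M)
    (hvan : ∃ x : W.H X, x ∉ Set.range (W.pull j)) : NilHom C X := by
  have hA : IsAffineHom (j.left ≫ pM) := isAffineHom_comp pM hM j
  intro γ hγ h0
  obtain ⟨z, hz, rfl⟩ := id hγ
  obtain ⟨m, b, hb, hba, hgen⟩ := exists_generic_family ha hX z
  have hX' := isZeroLocus_extend hX m b hba
  have hsep' := separates_extend hsep m
  refine nil_of_finite_orbit hC (galGroup (F := F) b (j.left ≫ pM))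
    (nilInv_of_good j _ (fun γ hγ hinv => ?_) hN hvan) _ hγ h0 ?_
  · exact mem_good2 hsep' hb pM hM j hX' hdim hC hS γ hγ hinv
  · refine finite_orbit_cls (sqPi (galGroup (F := F) b (j.left ≫ pM))) z fun y hy => ?_
    have h1 : (X.prod X).pointDim y = X.dim := by
      have h1 := hz y hy
      have h2 : (X.prod X).dim = X.dim + X.dim := rfl
      omega
    by_cases hx : theta (j.left ≫ pM) hX.w y ∈ Set.range (diag M₀).left
    · have h2 := mem_range_diag hX y hx
      refine (Set.finite_singleton y).subset ?_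
      rintro _ ⟨g, rfl⟩
      have h3 : theta (j.left ≫ pM) hX.w ((Desc.sq g.1).sch y) = theta (j.left ≫ pM) hX.w y :=
        theta_sq_apply b (j.left ≫ pM) hX.w g.1 g.2 y
      have h4 : (Desc.sq g.1).sch y ∈ Set.range (diag X).left := by
        refine mem_range_diag hX _ ?_
        rw [h3]
        exact hx
      have h5 : (X.prod X).pointDim ((Desc.sq g.1).sch y) = X.dim :=
        (pointDim_pt (Desc.sq g.1) y).trans h1
      exact (eq_diag_genericPt W X _ h4 h5).trans (eq_diag_genericPt W X y h2 h1).symm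
    · exact (local_package2 hb hX' _ (hasChart_of_sepAt hX' _
        (sepAt_extend (hsep _ hx) m))).2.1 y rfl (hgen y hy (hsep _ hx))

end

end Pool.Agent.Helper47.Spread
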