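import Mathlib
import Pool.Agent.Helper47.Desc.Nil

/-!
# Finite-dimensional rings without idempotents
-/

universe u v w

open CategoryTheory AlgebraicGeometry Limits

namespace Pool.Agent.Helper47.Spread

open Pool.Agent.Helper10 Pool.Agent.Helper10.SmProjVar Pool.Agent.Helper47.Chow
open Pool.Agent.Helper47.Desc

noncomputable section

theorem aeval_mul_mem_g10 {A : Type*} [Ring A] [Algebra ℚ A] (N : Submodule ℚ A)
    (hmul : ∀ x ∈ N, ∀ y ∈ N, x * y ∈ N) {x : A} (hx : x ∈ N) (u : Polynomial ℚ) :
    Polynomial.aeval x u * x ∈ N := by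
  induction u using Polynomial.induction_on' with
  | add p q hp hq => rw [map_add, add_mul]; exact N.add_mem hp hq
  | monomial n a =>
    rw [Polynomial.aeval_monomial, mul_assoc, ← pow_succ, ← Algebra.smul_def]
    refine N.smul_mem _ ?_
    induction n with
    | zero => simpa using hx
    | succ n ih => rw [pow_succ]; exact hmul _ ih _ hx

theorem isNilpotent_g10 {A : Type*} [Ring A] [Algebra ℚ A] (N : Submodule ℚ A)
    (hmul : ∀ x ∈ N, ∀ y ∈ N, x * y ∈ N) [FiniteDimensional ℚ N]
    (hid : ∀ x ∈ N, x * x = x → x = 0) {x : A} (hx : x ∈ N) : IsNilpotent x := by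
  let L : N →ₗ[ℚ] N :=
    { toFun := fun y => ⟨x * y, hmul x hx y y.2⟩
      map_add' := fun y z => Subtype.ext (by simp [mul_add])
      map_smul' := fun r y => Subtype.ext (by simp) }
  have hL : ∀ (P : Polynomial ℚ) (y : N), ((Polynomial.aeval L P y : N) : A) =
      Polynomial.aeval x P * y := by
    intro P y
    induction P using Polynomial.induction_on' with
    | add p q hp hq =>
      rw [map_add, map_add, add_mul, LinearMap.add_apply, Submodule.coe_add, hp, hq]
    | monomial n a =>
      rw [Polynomial.aeval_monomial, Polynomial.aeval_monomial, ← Algebra.smul_def,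
        ← Algebra.smul_def, LinearMap.smul_apply, Submodule.coe_smul, smul_mul_assoc]
      congr 1
      induction n with
      | zero => simp
      | succ n ih =>
        rw [pow_succ', pow_succ', Module.End.mul_apply, mul_assoc, ← ih]
        rfl
  let P : Polynomial ℚ := L.charpoly * Polynomial.X
  have hP0 : P ≠ 0 := mul_ne_zero L.charpoly_monic.ne_zero Polynomial.X_ne_zero
  have hPx : Polynomial.aeval x P = 0 := by
    have h1 := hL L.charpoly ⟨x, hx⟩
    rw [LinearMap.aeval_self_charpoly] at h1
    simp only [P, map_mul, Polynomial.aeval_X]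
    simpa using h1.symm
  obtain ⟨g, hg, hng⟩ := Polynomial.exists_eq_pow_rootMultiplicity_mul_and_not_dvd P hP0 0
  rw [Polynomial.C_0, sub_zero] at hg hng
  set k := Polynomial.rootMultiplicity 0 P with hk
  have hcop : IsCoprime (Polynomial.X ^ (k + 1)) g :=
    IsCoprime.pow_left ((Polynomial.irreducible_X.coprime_iff_not_dvd).2 hng)
  obtain ⟨u, v, huv⟩ := hcop
  have hxg : Polynomial.aeval x (Polynomial.X ^ (k + 1) * g) = 0 := by
    have h1 : (Polynomial.X : Polynomial ℚ) ^ (k + 1) * g = Polynomial.X * P := by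
      rw [hg]
      ring
    rw [h1, map_mul, hPx, mul_zero]
  set e : A := Polynomial.aeval x (u * Polynomial.X ^ (k + 1)) with he
  have heN : e ∈ N := by
    have h1 : u * Polynomial.X ^ (k + 1) = (u * Polynomial.X ^ k) * Polynomial.X := by ring
    rw [he, h1, map_mul, Polynomial.aeval_X]
    exact aeval_mul_mem_g10 N hmul hx _
  have hee : e * e = e := by
    rw [he, ← map_mul]
    have h1 : u * Polynomial.X ^ (k + 1) * (u * Polynomial.X ^ (k + 1)) =
        u * Polynomial.X ^ (k + 1) - u * v * (Polynomial.X ^ (k + 1) * g) := by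
      linear_combination (u * Polynomial.X ^ (k + 1)) * huv
    rw [h1, map_sub, map_mul _ (u * v), hxg, mul_zero, sub_zero]
  have he0 := hid e heN hee
  refine ⟨k + 1, ?_⟩
  have h2 : (Polynomial.X : Polynomial ℚ) ^ (k + 1) =
      Polynomial.X ^ (k + 1) * (u * Polynomial.X ^ (k + 1)) +
        v * (Polynomial.X ^ (k + 1) * g) := by
    linear_combination (-(Polynomial.X : Polynomial ℚ) ^ (k + 1)) * huv
  have h3 := congrArg (Polynomial.aeval x) h2
  rw [map_add, map_mul _ v, hxg, mul_zero, add_zero, map_mul _ (Polynomial.X ^ (k + 1)), ← he,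
    he0, mul_zero, map_pow, Polynomial.aeval_X] at h3
  exact h3

/-- A finite-dimensional two-sided ideal (or subring without unit) of an algebra over a field of
characteristic zero which contains no idempotent except zero is nilpotent. -/
theorem nilpotent_of_no_idempotent {A : Type*} [Ring A] [Algebra ℚ A] (N : Submodule ℚ A)
    (hmul : ∀ x ∈ N, ∀ y ∈ N, x * y ∈ N) [FiniteDimensional ℚ N]
    (hid : ∀ x ∈ N, x * x = x → x = 0) :
    ∃ n : ℕ, ∀ l : List A, l.length = n → (∀ x ∈ l, x ∈ N) → l.prod = 0 := by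
  let S : NonUnitalSubalgebra ℚ A :=
    { N with
      mul_mem' := fun {a b} ha hb => hmul a ha b hb }
  have hfdS : Module.Finite ℚ S := (inferInstance : Module.Finite ℚ N)
  let U := Unitization ℚ S
  have hfd : Module.Finite ℚ U := by
    let f : (ℚ × S) →ₗ[ℚ] U :=
      { toFun := fun p => Unitization.inl p.1 + Unitization.inr p.2
        map_add' := fun p q => by
          rw [Prod.fst_add, Prod.snd_add, Unitization.inl_add, Unitization.inr_add]
          abel
        map_smul' := fun r p => by
          rw [Prod.smul_fst, Prod.smul_snd, Unitization.inl_smul, Unitization.inr_smul,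
            RingHom.id_apply, smul_add] }
    refine Module.Finite.of_surjective f fun y => ⟨(y.fst, y.snd), ?_⟩
    change Unitization.inl y.fst + Unitization.inr y.snd = y
    exact Unitization.inl_fst_add_inr_snd_eq y
  have hart : IsArtinianRing U := IsArtinianRing.of_finite ℚ U
  obtain ⟨n, hn⟩ := IsArtinianRing.isNilpotent_jacobson_bot (R := U)
  have hnil : ∀ s : S, IsNilpotent (Unitization.inr (R := ℚ) s) := by
    intro s
    obtain ⟨m, hm⟩ := isNilpotent_g10 N hmul hid (x := (s : A)) s.2
    refine ⟨m + 1, ?_⟩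
    have h1 : ∀ j : ℕ, ∃ t : S, (t : A) = (s : A) ^ (j + 1) ∧
        (Unitization.inr (R := ℚ) s) ^ (j + 1) = Unitization.inr (R := ℚ) t := by
      intro j
      induction j with
      | zero => exact ⟨s, by simp, by simp⟩
      | succ j ih =>
        obtain ⟨t, ht, ht2⟩ := ih
        refine ⟨t * s, ?_, ?_⟩
        · rw [pow_succ, ← ht]
          rfl
        · rw [pow_succ, ht2, ← Unitization.inr_mul]
    obtain ⟨t, ht, ht2⟩ := h1 m
    rw [ht2]
    have h2 : t = 0 := by
      apply Subtype.ext
      rw [ht, pow_succ, hm, zero_mul]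
      rfl
    rw [h2, Unitization.inr_zero]
  have hmem : ∀ s : S, Unitization.inr (R := ℚ) s ∈ Ideal.jacobson (⊥ : Ideal U) := by
    intro s
    rw [Ideal.mem_jacobson_iff]
    intro y
    have h1 : ∃ t : S, y * Unitization.inr (R := ℚ) s = Unitization.inr (R := ℚ) t := by
      refine ⟨y.fst • s + y.snd * s, ?_⟩
      ext
      · simp
      · simp
    obtain ⟨t, ht⟩ := h1
    have h2 : IsUnit (1 + y * Unitization.inr (R := ℚ) s) := by
      rw [ht]
      exact (hnil t).isUnit_one_add
    obtain ⟨z, hz⟩ := h2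
    refine ⟨(z⁻¹ : Uˣ), ?_⟩
    have h3 : ((z⁻¹ : Uˣ) : U) * y * Unitization.inr (R := ℚ) s + ((z⁻¹ : Uˣ) : U) - 1 = 0 := by
      have h4 : ((z⁻¹ : Uˣ) : U) * (1 + y * Unitization.inr (R := ℚ) s) = 1 := by
        rw [← hz]
        simp
      rw [mul_add, mul_one, ← mul_assoc] at h4
      rw [add_comm, h4, sub_self]
    rw [h3]
    exact Ideal.zero_mem _
  refine ⟨n, fun l hl hlN => ?_⟩
  have key : ∀ l : List A, (∀ x ∈ l, x ∈ N) → ∃ t : U, t ∈ Ideal.jacobson (⊥ : Ideal U) ^ l.length ∧
      NonUnitalSubalgebra.unitization S t = l.prod := by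
    intro l
    induction l with
    | nil =>
      intro _
      refine ⟨1, ?_, ?_⟩
      · rw [List.length_nil, Submodule.pow_zero, Ideal.one_eq_top]
        exact Submodule.mem_top
      · simp
    | cons a l ih =>
      intro hl
      obtain ⟨t, ht, ht2⟩ := ih fun x hx => hl x (List.mem_cons_of_mem _ hx)
      have ha : a ∈ N := hl a List.mem_cons_self
      refine ⟨Unitization.inr (R := ℚ) (⟨a, ha⟩ : S) * t, ?_, ?_⟩
      · rw [List.length_cons, Ideal.IsTwoSided.pow_succ]
        exact Ideal.mul_mem_mul (hmem ⟨a, ha⟩) ht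
      · rw [map_mul, ht2, List.prod_cons]
        congr 1
        simp
  obtain ⟨t, ht, ht2⟩ := key l hlN
  rw [hl, hn] at ht
  rw [← ht2, (Ideal.mem_bot.1 ht : t = 0), map_zero]

end

end Pool.Agent.Helper47.Spread
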