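import Mathlib
import Pool.Agent.Helper47.Spread2.Final2
import Pool.Agent.Helper47.Spread2.G10

/-!
# Correspondences defined over the ground field
-/

universe u v w

open CategoryTheory AlgebraicGeometry Limits

namespace Pool.Agent.Helper47.Spread

open Pool.Agent.Helper10 Pool.Agent.Helper10.SmProjVar Pool.Agent.Helper47.Chow
open Pool.Agent.Helper47.Desc Pool.Agent.Helper11.Murre

noncomputable section

variable {F K : Type u} [Field F] [Field K] [Algebra F K] {M₀ : SmProjVar F} {I : Type}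
  [Fintype I] {L : Type v} [Field L] [CharZero L] {W : WeilCohomology.{u, v, w} K L}

/-- The sum of the points of `Y` over `u` which have the dimension of `u`: the base change of the
subvariety with generic point `u` (up to a factor). -/
def bcCls {Y : SmProjVar K} {N : SmProjVar F} (θ : Y.toOver.left ⟶ N.toOver.left)
    (u : N.toOver.left) : CH Y :=
  ∑ᶠ y : {y : Y.toOver.left // θ y = u ∧ Y.pointDim y = N.pointDim u}, ptCls Y y.1

/-- The classes defined over `F`. -/
def ratF {Y : SmProjVar K} {N : SmProjVar F} (θ : Y.toOver.left ⟶ N.toOver.left) :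
    Submodule ℚ (CH Y) :=
  Submodule.span ℚ (Set.range (bcCls θ))

lemma chow_injective {Y : SmProjVar K} (g : SemiAut Y) : Function.Injective g.chow := by
  intro a b h
  have h1 := congrArg (SemiAut.chow g⁻¹) h
  rwa [← chow_mul, ← chow_mul, inv_mul_cancel, chow_one, chow_one] at h1

lemma chow_bcCls {Y : SmProjVar K} {N : SmProjVar F} (θ : Y.toOver.left ⟶ N.toOver.left)
    (g : SemiAut Y) (hg : ∀ y, θ (g.pt y) = θ y) (u : N.toOver.left) :
    g.chow (bcCls θ u) = bcCls θ u := by
  have hg' : ∀ y, θ ((g⁻¹ : SemiAut Y).pt y) = θ y := by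
    intro y
    rw [← hg ((g⁻¹ : SemiAut Y).pt y), SemiAut.pt_pt_inv]
  let e : {y : Y.toOver.left // θ y = u ∧ Y.pointDim y = N.pointDim u} ≃
      {y : Y.toOver.left // θ y = u ∧ Y.pointDim y = N.pointDim u} :=
    { toFun := fun y => ⟨g.pt y.1, (hg y.1).trans y.2.1, (pointDim_pt g y.1).trans y.2.2⟩
      invFun := fun y => ⟨(g⁻¹ : SemiAut Y).pt y.1, (hg' y.1).trans y.2.1,
        (pointDim_pt g⁻¹ y.1).trans y.2.2⟩
      left_inv := fun y => Subtype.ext (SemiAut.pt_inv_pt g y.1)
      right_inv := fun y => Subtype.ext (SemiAut.pt_pt_inv g y.1) }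
  have h1 := AddMonoidHom.map_finsum_of_injective g.chow.toAddMonoidHom (chow_injective g)
    (fun y : {y : Y.toOver.left // θ y = u ∧ Y.pointDim y = N.pointDim u} => ptCls Y y.1)
  have h2 : ∀ y : {y : Y.toOver.left // θ y = u ∧ Y.pointDim y = N.pointDim u},
      g.chow.toAddMonoidHom (ptCls Y y.1) = ptCls Y (e y).1 := fun y => chow_ptCls g y.1
  have h3 := finsum_comp_equiv e
    (f := fun y : {y : Y.toOver.left // θ y = u ∧ Y.pointDim y = N.pointDim u} => ptCls Y y.1)
  refine h1.trans ?_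
  rw [finsum_congr h2]
  exact h3

lemma ratF_inv {Y : SmProjVar K} {N : SmProjVar F} (θ : Y.toOver.left ⟶ N.toOver.left)
    (g : SemiAut Y) (hg : ∀ y, θ (g.pt y) = θ y) (γ : CH Y) (hγ : γ ∈ ratF θ) :
    g.chow γ = γ := by
  unfold ratF at hγ
  refine Submodule.span_induction (p := fun γ _ => g.chow γ = γ) ?_ ?_ ?_ ?_ hγ
  · rintro _ ⟨u, rfl⟩
    exact chow_bcCls θ g hg u
  · exact map_zero _
  · intro x y _ _ hx hy
    rw [map_add, hx, hy]
  · intro q x _ hx
    rw [map_smul, hx]

omit [Fintype I] in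
lemma sepAt_trivial (x : (M₀.prod M₀).toOver.left) : SepAt (trivialSections M₀ I) x := by
  obtain ⟨i, hi⟩ := (trivialSections M₀ I).cover ((fst M₀ M₀).left x)
  obtain ⟨i', hi'⟩ := (trivialSections M₀ I).cover ((snd M₀ M₀).left x)
  refine ⟨i, i', fun c => c.elim Fin.elim0 Fin.elim0, ?_⟩
  have h1 : minorAt (trivialSections M₀ I) i i' (fun c => c.elim Fin.elim0 Fin.elim0) = 1 :=
    Matrix.det_isEmpty
  rw [h1, Scheme.basicOpen_of_isUnit _ isUnit_one]
  exact ⟨hi, hi'⟩

lemma isAffineHom_of_isPullback {M : SmProjVar K} (pM : M.toOver.left ⟶ M₀.toOver.left)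
    (hM : IsPullback pM M.toOver.hom M₀.toOver.hom (specMap F K)) : IsAffineHom pM := by
  have h1 : IsAffineHom (specMap F K) := isAffineHom_specMap
  exact MorphismProperty.of_isPullback (P := @IsAffineHom) hM.flip h1

/-- The sum of the points in a finite set. -/
def sumPts {Y : SmProjVar K} (T : Finset Y.Pt) : QCycles Y := ∑ y ∈ T, QCycles.point y

lemma sumPts_coeff {Y : SmProjVar K} (T : Finset Y.Pt) (x : Y.Pt) :
    (x ∈ T → (sumPts T).coeff x = 1) ∧ (x ∉ T → (sumPts T).coeff x = 0) := by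
  classical
  have h1 : (sumPts T).coeff x = ∑ y ∈ T, (Finsupp.single y (1 : ℚ) : Y.Pt →₀ ℚ) x :=
    Finsupp.finsetSum_apply T _ x
  rw [h1]
  have h2 : ∀ y ∈ T, (Finsupp.single y (1 : ℚ) : Y.Pt →₀ ℚ) x = if y = x then 1 else 0 :=
    fun y _ => Finsupp.single_apply
  rw [Finset.sum_congr rfl h2, Finset.sum_ite_eq']
  exact ⟨fun h => if_pos h, fun h => if_neg h⟩

lemma cls_sumPts {Y : SmProjVar K} (T : Finset Y.Pt) :
    cls Y (sumPts T) = ∑ y ∈ T, ptCls Y y :=
  map_sum (ratZero Y).mkQ _ _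

/-- Invariant correspondences are defined over `F`: cycles with generic points. -/
theorem mem_ratF_of_generic [IsAlgClosed K] {a : I → K} (ha : AlgebraicIndependent F a)
    {M : SmProjVar K} (pM : M.toOver.left ⟶ M₀.toOver.left)
    (hM : IsPullback pM M.toOver.hom M₀.toOver.hom (specMap F K)) (e : ℕ)
    (z : QCycles (M.prod M))
    (hz : ∀ y, z.coeff y ≠ 0 → (M.prod M).pointDim y = e ∧ IsGen a (theta pM hM.w) y)
    (hinv : ∀ g ∈ galGroup (F := F) a pM, (Desc.sq g).chow (cls (M.prod M) z) =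
      cls (M.prod M) z) :
    cls (M.prod M) z ∈ ratF (theta pM hM.w) := by
  classical
  have hA := isAffineHom_of_isPullback pM hM
  let G := galGroup (F := F) a pM
  let θ := theta pM hM.w
  have hX := isZeroLocus_trivial pM hM a
  refine mem_of_invariant (r := 0) ha hX ∅ (fun x _ => hasChart_of_sepAt hX x (sepAt_trivial x))
    (ratF (theta pM hM.w)) (fun g hg γ hγ => ?_) e ?_ ?_ z
    (fun y hy => ⟨(hz y hy).1, fun _ => (hz y hy).2⟩) hinv
  · rw [ratF_inv _ (Desc.sq g) (fun y => theta_sq_apply a pM hM.w g hg y) γ hγ]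
    exact hγ
  · intro y _ hx
    exact absurd hx (Set.notMem_empty _)
  · intro y hy _ h2 hfin h3
    let P : (M.prod M).Pt → Prop := fun y' => θ y' = θ y ∧
      (M.prod M).pointDim y' = (M₀.prod M₀).pointDim (θ y)
    have hT : {y' | P y'}.Finite := by
      refine hfin.subset ?_
      rintro y' ⟨h4, h5⟩
      obtain ⟨g, hg, h6⟩ := (h3 y' h4).1 (by
        change (M.prod M).pointDim y + 2 * 0 = (M₀.prod M₀).pointDim (θ y) at h2
        omega)
      exact ⟨⟨g, hg⟩, h6⟩
    have hmem : ∀ x, x ∈ hT.toFinset ↔ P x := fun x => by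
      rw [Set.Finite.mem_toFinset]
      rfl
    refine ⟨sumPts hT.toFinset, ?_, ?_, fun g hg => ?_, fun y' hy' => ?_⟩
    · rw [cls_sumPts]
      refine Submodule.subset_span ⟨θ y, ?_⟩
      have hfin' : Finite {y' : (M.prod M).toOver.left // P y'} := hT.to_subtype
      have e1 : bcCls θ (θ y) = ∑ᶠ y' : {y' // P y'}, ptCls (M.prod M) y'.1 := rfl
      have e2 : ∑ᶠ y' : {y' // P y'}, ptCls (M.prod M) y'.1 =
          ∑ᶠ (y') (_ : y' ∈ {y' | P y'}), ptCls (M.prod M) y' :=
        (finsum_set_coe_eq_finsum_mem {y' | P y'} (f := ptCls (M.prod M)))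
      rw [e1, e2]
      exact finsum_mem_eq_finite_toFinset_sum _ hT
    · have h4 := (sumPts_coeff hT.toFinset y).1 ((hmem y).2 ⟨rfl, h2⟩)
      exact h4.symm ▸ one_pos
    · by_cases h : (Desc.sq g).pt y ∈ hT.toFinset
      · have h4 := (sumPts_coeff hT.toFinset _).1 h
        exact h4.symm ▸ zero_le_one
      · have h4 := (sumPts_coeff hT.toFinset _).2 h
        exact h4.symm.le
    · have h4 : P y' := by
        by_contra h
        exact hy' ((sumPts_coeff hT.toFinset _).2 fun h5 => h ((hmem y').1 h5))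
      refine ⟨?_, ?_⟩
      · have h5 := h4.2
        change (M.prod M).pointDim y + 2 * 0 = (M₀.prod M₀).pointDim (θ y) at h2
        omega
      · change θ y ⤳ θ y'
        rw [h4.1]

/-- Invariant correspondences are defined over `F`. -/
theorem mem_ratF [IsAlgClosed K] {a : I → K} (ha : AlgebraicIndependent F a)
    {M : SmProjVar K} (pM : M.toOver.left ⟶ M₀.toOver.left)
    (hM : IsPullback pM M.toOver.hom M₀.toOver.hom (specMap F K)) (i : ℕ)
    (γ : CH (M.prod M)) (hγ : γ ∈ CHi (M.prod M) i)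
    (hinv : ∀ g ∈ galGroup (F := F) a pM, (Desc.sq g).chow γ = γ) :
    γ ∈ ratF (theta pM hM.w) := by
  have hA := isAffineHom_of_isPullback pM hM
  have hX := isZeroLocus_trivial pM hM a
  obtain ⟨z, hz, rfl⟩ := hγ
  obtain ⟨m, b, hb, hba, hgen⟩ := exists_generic_family ha hX z
  refine mem_ratF_of_generic hb pM hM ((M.prod M).dim - i) z
    (fun y hy => ⟨?_, hgen y hy (sepAt_trivial _)⟩)
    (fun g hg => hinv g (galGroup_extend hba hg))
  have h1 := hz y hy
  omega

/-- **Theorem.** If the homologically trivial correspondences defined over `F` form a nilpotent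
ring, all homologically trivial correspondences are nilpotent. -/
theorem nilHom_of_rat [IsAlgClosed K] {M : SmProjVar K} (pM : M.toOver.left ⟶ M₀.toOver.left)
    (hM : IsPullback pM M.toOver.hom M₀.toOver.hom (specMap F K)) {C : ChowTheory W}
    (hC : IsEquivariant C)
    (hN : ∃ N : ℕ, ∀ l : List (CH (M.prod M)), l.length = N →
      (∀ γ ∈ l, γ ∈ ratF (theta pM hM.w) ∧ γ ∈ CHi (M.prod M) M.dim ∧ C.ops.cl _ γ = 0) →
        compList C M l = 0) : NilHom C M := by
  have hA := isAffineHom_of_isPullback pM hM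
  let a : Fin 0 → K := Fin.elim0
  have ha : AlgebraicIndependent F a := algebraicIndependent_empty_type_iff.mpr
    (algebraMap F K).injective
  have hX := isZeroLocus_trivial pM hM a
  intro γ hγ h0
  obtain ⟨z, hz, rfl⟩ := id hγ
  obtain ⟨m, b, hb, hba, hgen⟩ := exists_generic_family ha hX z
  have hX' := isZeroLocus_trivial pM hM b
  refine nil_of_finite_orbit hC (galGroup (F := F) b pM) ?_ _ hγ h0 ?_
  · obtain ⟨N, hN⟩ := hN
    refine ⟨N, fun l hl h => hN l hl fun γ hγ => ?_⟩
    obtain ⟨h1, h2, h3⟩ := h γ hγ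
    exact ⟨mem_ratF hb pM hM _ γ h1 h3, h1, h2⟩
  · refine finite_orbit_cls (sqPi (galGroup (F := F) b pM)) z fun y hy => ?_
    exact (local_package2 (r := 0) hb hX' _ (hasChart_of_sepAt hX' _
        (sepAt_trivial _))).2.1 y rfl (hgen y hy (sepAt_trivial _))

/-- **Theorem.** The same if the space of correspondences defined over `F` is finite-dimensional
and contains no homologically trivial idempotent. -/
theorem nilHom_of_finite_rank [IsAlgClosed K] {M : SmProjVar K}
    (pM : M.toOver.left ⟶ M₀.toOver.left)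
    (hM : IsPullback pM M.toOver.hom M₀.toOver.hom (specMap F K)) {C : ChowTheory W}
    (hC : IsEquivariant C)
    (hfin : ∃ s : Set (CH (M.prod M)), s.Finite ∧ ∀ γ ∈ ratF (theta pM hM.w),
      γ ∈ CHi (M.prod M) M.dim → γ ∈ Submodule.span ℚ s)
    (hid : ∀ γ ∈ ratF (theta pM hM.w), γ ∈ CHi (M.prod M) M.dim → C.ops.cl _ γ = 0 →
      C.comp γ γ = γ → γ = 0) : NilHom C M := by
  refine nilHom_of_rat pM hM hC ?_
  let a : Fin 0 → K := Fin.elim0
  have ha : AlgebraicIndependent F a := algebraicIndependent_empty_type_iff.mpr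
    (algebraMap F K).injective
  let N : Submodule ℚ (Corr C M) :=
    { carrier := {x | x.val ∈ ratF (theta pM hM.w) ∧ C.cl _ x.val = 0}
      add_mem' := by
        rintro x y ⟨h1, h2⟩ ⟨h3, h4⟩
        refine ⟨Submodule.add_mem _ h1 h3, ?_⟩
        change C.cl _ (x.val + y.val) = 0
        rw [map_add, h2, h4, add_zero]
      zero_mem' := ⟨Submodule.zero_mem _, map_zero _⟩
      smul_mem' := by
        rintro q x ⟨h1, h2⟩
        refine ⟨Submodule.smul_mem _ q h1, ?_⟩
        change C.cl _ (q • x.val) = 0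
        rw [cl_smul, h2, smul_zero] }
  have hN : ∀ x : Corr C M, x ∈ N ↔ x.val ∈ ratF (theta pM hM.w) ∧ C.cl _ x.val = 0 :=
    fun x => Iff.rfl
  have hmul : ∀ x ∈ N, ∀ y ∈ N, x * y ∈ N := by
    intro x hx y hy
    rw [hN] at hx hy ⊢
    refine ⟨?_, (homIdeal C M).mul_mem_left x hy.2⟩
    refine mem_ratF ha pM hM M.dim _ (x * y).2 fun g hg => ?_
    have h1 : corrRho hC M g x = x := Corr.ext
      (ratF_inv _ (Desc.sq g) (fun y => theta_sq_apply a pM hM.w g hg y) _ hx.1)
    have h2 : corrRho hC M g y = y := Corr.ext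
      (ratF_inv _ (Desc.sq g) (fun y => theta_sq_apply a pM hM.w g hg y) _ hy.1)
    have h3 : corrRho hC M g (x * y) = x * y := by rw [map_mul, h1, h2]
    exact congrArg Corr.val h3
  have hfd : FiniteDimensional ℚ N := by
    obtain ⟨s, hs, hs'⟩ := hfin
    have hs2 : FiniteDimensional ℚ (Submodule.span ℚ s) := FiniteDimensional.span_of_finite ℚ hs
    let f : N →ₗ[ℚ] Submodule.span ℚ s :=
      { toFun := fun x => ⟨x.1.val, hs' _ x.2.1 x.1.2⟩
        map_add' := fun x y => rfl
        map_smul' := fun q x => rfl }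
    exact FiniteDimensional.of_injective f fun x y h =>
      Subtype.ext (Corr.ext (congrArg (fun t => (t.1 : CH (M.prod M))) h))
  obtain ⟨n, hn⟩ := nilpotent_of_no_idempotent N hmul (fun x hx hxx =>
    Corr.ext (hid _ hx.1 x.2 hx.2 (congrArg Corr.val hxx)))
  refine ⟨n, fun l hl h => ?_⟩
  have h1 : ∃ l' : List (Corr C M), l'.map Corr.val = l ∧ ∀ x ∈ l', x ∈ N := by
    clear hl
    induction l with
    | nil => exact ⟨[], rfl, by simp⟩
    | cons γ l ih =>
      obtain ⟨l', h2, h3⟩ := ih fun γ hγ => h γ (List.mem_cons_of_mem _ hγ)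
      obtain ⟨h4, h5, h6⟩ := h γ List.mem_cons_self
      refine ⟨(⟨γ, h5⟩ : Corr C M) :: l', congrArg (List.cons γ) h2, ?_⟩
      intro x hx
      rcases List.mem_cons.mp hx with rfl | hx
      · exact ⟨h4, h6⟩
      · exact h3 x hx
  obtain ⟨l', h2, h3⟩ := h1
  rw [← h2, ← list_prod_val, hn l' (by rw [← hl, ← h2, List.length_map]) h3]
  rfl

end

end Pool.Agent.Helper47.Spread
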